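import Mathlib
import Pool.Agent.R549.BD.Defs

/-! # Marks' graph is not a universal obstruction (MP_43c499_lc, S14642): definitions

See PAPER.md in this folder. -/

set_option autoImplicit false

namespace Pool.Agent.Helper701.Marks

/-! ## The group -/

/-- the free product of three groups of order two -/
abbrev Gam : Type := Monoid.CoprodI (fun _ : Fin 3 => Multiplicative (ZMod 2))

/-- the standard involutions -/
def gen (i : Fin 3) : Gam := Monoid.CoprodI.of (i := i) (Multiplicative.ofAdd (1 : ZMod 2))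

/-- the reduced word -/
noncomputable def wd (g : Gam) : Monoid.CoprodI.Word (fun _ : Fin 3 => Multiplicative (ZMod 2)) :=
  Monoid.CoprodI.Word.equiv g

/-- the elements whose reduced word starts with `gen i` -/
def R (i : Fin 3) : Set Gam := {g | (wd g).fstIdx = some i}

/-- word length -/
noncomputable def len (g : Gam) : ℕ := (wd g).toList.length

/-- parity of the word length -/
noncomputable def par (g : Gam) : Bool := decide (len g % 2 = 1)

/-- the shift -/
def act {α : Type} (d : Gam) (y : Gam → α) : Gam → α := fun g => y (d⁻¹ * g)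

/-- the underlying set of the counterexample -/
def XS : Set (Gam → ℕ → Bool) :=
  {y | Function.Injective y ∧ ∀ (g : Gam) (i : Fin 3), ∃ N, ∀ k, N ≤ k → y (g * gen i) k ≠ y g k}

/-! ## Games -/

/-- the history `[x n, ..., x 1]` (newest first, without the initial state `x 0`) -/
def hist {M : Type} (x : ℕ → M) : ℕ → List M
  | 0 => []
  | n + 1 => x (n + 1) :: hist x n

/-- The player with moves `E` moves second, from the state `s`, his opponent has the moves `C`; he has a strategy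
forcing the play into `P`. -/
def W2 {M : Type} (E C : M → M → Prop) (s : M) (P : Set (ℕ → M)) : Prop :=
  ∃ σ : List M → M, (∀ a l, E a (σ (a :: l))) ∧
    ∀ x : ℕ → M, x 0 = s → (∀ n, C (x (2 * n)) (x (2 * n + 1))) →
      (∀ n, x (2 * n + 2) = σ (hist x (2 * n + 1))) → x ∈ P

/-- quasi-Borel sets -/
inductive QB {M : Type} : Set (ℕ → M) → Prop
  | basic (n : ℕ) (C : Set M) : QB {x | x n ∈ C}
  | compl (A : Set (ℕ → M)) : QB A → QB Aᶜ
  | iUnion (A : ℕ → Set (ℕ → M)) : (∀ n, QB (A n)) → QB (⋃ n, A n)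
  | loc (n : ℕ) (A : Set (ℕ → M)) : (∀ a : M, QB (A ∩ {x | x n = a})) → QB A

/-- put `s` in front of the sequence -/
def pre {M : Type} (s : M) (x : ℕ → M) : ℕ → M
  | 0 => s
  | n + 1 => x n

/-- quasi-Borel sets of plays of a game tree -/
inductive QBT (T : R549.BD.GTree.{0}) : Set (ℕ → T.Pos) → Prop
  | fin (m : ℕ) (C : Set T.Pos) : QBT T {x | x m ∈ C}
  | compl (A : Set (ℕ → T.Pos)) : QBT T A → QBT T Aᶜ
  | iUnion (A : ℕ → Set (ℕ → T.Pos)) : (∀ n, QBT T (A n)) → QBT T (⋃ n, A n)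
  | loc (n : ℕ) (A : Set (ℕ → T.Pos)) : (∀ p : T.Pos, QBT T (A ∩ {x | x n = p})) → QBT T A

/-! ## States -/

/-- states; only `z g k` for `g ∈ F`, `k < m`, and `S k` for `k < m` matter -/
structure St : Type where
  m : ℕ
  F : Set Gam
  z : Gam → ℕ → Bool
  S : ℕ → Bool
  D : Set (ℕ → Bool)
  inj : ∀ g ∈ F, ∀ h ∈ F, (∀ k < m, z g k = z h k) → g = h
  cnt : D.Countable

/-- the moves of the player owning `A` -/
structure Ext (A : Set Gam) (s t : St) : Prop where
  lt : s.m < t.m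
  sub : s.F ⊆ t.F
  sup : t.F ⊆ s.F ∪ A
  z : ∀ g ∈ s.F, ∀ k < s.m, t.z g k = s.z g k
  T : ∃ T : ℕ → Bool, ∀ g ∈ s.F, ∀ k, s.m ≤ k → k < t.m → t.z g k = xor (T k) (par g)
  S : ∀ k < s.m, t.S k = s.S k
  D : s.D ⊆ t.D

/-- limit data -/
@[ext] structure Lim : Type where
  F : Set Gam
  y : Gam → ℕ → Bool
  S : ℕ → Bool
  Q : Set (ℕ → Bool)

open Classical in
/-- the limit of a sequence of states -/
noncomputable def lim (x : ℕ → St) : Lim where
  F := {g | ∃ n, g ∈ (x n).F}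
  y g k := decide (∃ n, g ∈ (x n).F ∧ k < (x n).m ∧ (x n).z g k = true)
  S k := decide (∃ n, k < (x n).m ∧ (x n).S k = true)
  Q := {r | ∃ n, r ∈ (x n).D}

/-- `x` is increasing -/
def Chain (x : ℕ → St) : Prop := ∀ n, Ext Set.univ (x n) (x (n + 1))

/-- the second player (owning `A`, against `C`) can force the limit into `P` -/
def Win2 (A C : Set Gam) (s : St) (P : Set Lim) : Prop := W2 (Ext A) (Ext C) s {x | lim x ∈ P}

/-- translation of a state -/
def tr (d : Gam) (s : St) : St where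
  m := s.m
  F := {g | d⁻¹ * g ∈ s.F}
  z := fun g => s.z (d⁻¹ * g)
  S := s.S
  D := s.D
  inj := by
    intro g hg h hh e
    exact mul_left_cancel (s.inj _ hg _ hh e)
  cnt := s.cnt

/-- translation of limit data -/
def trL (d : Gam) (l : Lim) : Lim where
  F := {g | d⁻¹ * g ∈ l.F}
  y := fun g => l.y (d⁻¹ * g)
  S := l.S
  Q := l.Q

/-- xor on the auxiliary sequence -/
def xo (v : ℕ → Bool) (s : St) : St := { s with S := fun k => xor (s.S k) (v k) }

/-- xor on limit data -/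
def xoL (v : ℕ → Bool) (l : Lim) : Lim := { l with S := fun k => xor (l.S k) (v k) }

/-! ## Payoffs -/

/-- What would follow from the hypothesis failing for the counterexample. -/
structure Dat : Type where
  f : (Gam → ℕ → Bool) → ℕ → Bool
  c : (ℕ → Bool) → (Gam → ℕ → Bool) → Fin 3
  hf : Measurable f
  hc : ∀ r, Measurable (c r)
  inv : ∀ y ∈ XS, ∀ i, f (act (gen i) y) = f y
  col : ∀ y ∈ XS, ∀ i, c (f y) (act (gen i) y) ≠ c (f y) y

/-- the payoff of the player owning `R i` -/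
def Pay (d : Dat) (i : Fin 3) (B : Set ((Gam → ℕ → Bool) × (ℕ → Bool))) : Set Lim :=
  {l | (∃ v, v ∉ l.F ∧ v ∉ R i ∧ ∀ w, w ∉ l.F → w ∈ R i → len v < len w) ∨
    (l.F = Set.univ ∧ ((d.f l.y ∈ l.Q ∧ d.c (d.f l.y) l.y ≠ i) ∨ (d.f l.y ∉ l.Q ∧ (l.y, l.S) ∈ B)))}

/-- the sets used: `(y, S) ∈ B ↔ (gen i • y, S) ∈ B` for `y ∈ XS` -/
def Inv (B : Set ((Gam → ℕ → Bool) × (ℕ → Bool))) : Prop :=
  ∀ y ∈ XS, ∀ i S, (act (gen i) y, S) ∈ B ↔ (y, S) ∈ B

/-- `W(i,u,B)`, `u` being the first `m` bits of `u` -/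
def W (d : Dat) (i : Fin 3) (m : ℕ) (u : ℕ → Bool) (B : Set ((Gam → ℕ → Bool) × (ℕ → Bool))) : Prop :=
  ∀ s : St, s.m = m → s.F = {1} → (∀ k < m, s.S k = u k) → Win2 (R i) (R i)ᶜ s (Pay d i B)

/-- `N(i,u,B)` -/
def NN (d : Dat) (i : Fin 3) (m : ℕ) (u : ℕ → Bool) (B : Set ((Gam → ℕ → Bool) × (ℕ → Bool))) : Prop :=
  ∃ s : St, s.m = m ∧ s.F ⊆ (R i)ᶜ ∧ (∀ k < m, s.S k = u k) ∧ Win2 (R i)ᶜ (R i) s (Pay d i Bᶜ)ᶜ

end Pool.Agent.Helper701.Marks
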