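import Pool.Agent.Helper701_Marks.QBDet

/-! # Determinacy for the games `W2` -/

set_option autoImplicit false

namespace Pool.Agent.Helper701.Marks

open Pool.Agent.R549.BD

namespace Det2

variable {M : Type} (E C : M → M → Prop) (s : M)

/-- the last state of a history (newest first) -/
def hd (l : List M) : M := l.headD s

/-- legal histories: the first player (moves `C`) moves at histories of even length -/
def Leg : List M → Prop
  | [] => True
  | a :: l => Leg l ∧ (if l.length % 2 = 0 then C (hd s l) a else E (hd s l) a)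

variable {E C s} in
theorem Leg.tail {l : List M} (h : Leg E C s l) : Leg E C s l.tail := by
  cases l with
  | nil => exact h
  | cons a l => exact h.1

variable {E C}

/-- the game tree -/
def GTr (hE : ∀ a, ∃ b, E a b) (hC : ∀ a, ∃ b, C a b) : GTree.{0} where
  Pos := {l : List M // Leg E C s l}
  len p := p.1.length
  par p := ⟨p.1.tail, p.2.tail⟩
  root := ⟨[], trivial⟩
  len_root := rfl
  eq_root p h := Subtype.ext (List.length_eq_zero_iff.1 h)
  len_par p := List.length_tail
  succ p := by
    obtain ⟨l, hl⟩ := p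
    by_cases h : l.length % 2 = 0
    · obtain ⟨b, hb⟩ := hC (hd s l)
      exact ⟨⟨b :: l, hl, by rw [if_pos h]; exact hb⟩, rfl, rfl⟩
    · obtain ⟨b, hb⟩ := hE (hd s l)
      exact ⟨⟨b :: l, hl, by rw [if_neg h]; exact hb⟩, rfl, rfl⟩

variable (hE : ∀ a, ∃ b, E a b) (hC : ∀ a, ∃ b, C a b)

/-- the sequence of states of a play -/
def seq (x : ℕ → (GTr s hE hC).Pos) (n : ℕ) : M := hd s (x n).1

theorem qbt_inter {T : GTree.{0}} {A B : Set (ℕ → T.Pos)} (hA : QBT T A) (hB : QBT T B) : QBT T (A ∩ B) := by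
  have h : A ∩ B = (⋃ n : ℕ, (if n = 0 then Aᶜ else Bᶜ))ᶜ := by
    ext x
    simp only [Set.mem_inter_iff, Set.mem_compl_iff, Set.mem_iUnion, not_exists]
    constructor
    · rintro ⟨h1, h2⟩ n
      split_ifs
      · exact fun h => h h1
      · exact fun h => h h2
    · intro h
      refine ⟨?_, ?_⟩
      · have := h 0
        rw [if_pos rfl] at this
        exact not_not.1 this
      · have := h 1
        rw [if_neg one_ne_zero] at this
        exact not_not.1 this
  rw [h]
  apply QBT.compl
  apply QBT.iUnion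
  intro n
  split_ifs
  · exact QBT.compl _ hA
  · exact QBT.compl _ hB

theorem qbt_of_qb {A : Set (ℕ → M)} (hA : QB A) : QBT (GTr s hE hC) {x | seq s hE hC x ∈ A} := by
  induction hA with
  | basic n D => exact QBT.fin n {p : (GTr s hE hC).Pos | hd s p.1 ∈ D}
  | compl A _ ih => exact QBT.compl _ ih
  | iUnion A _ ih =>
    have h : {x | seq s hE hC x ∈ ⋃ n, A n} = ⋃ n, {x | seq s hE hC x ∈ A n} := by
      ext x; simp
    rw [h]
    exact QBT.iUnion _ ih
  | loc n A _ ih =>
    apply QBT.loc n
    intro p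
    have h : {x | seq s hE hC x ∈ A} ∩ {x | x n = p} =
        {x | seq s hE hC x ∈ A ∩ {x | x n = hd s p.1}} ∩ {x | x n = p} := by
      ext x
      constructor
      · rintro ⟨h1, h2⟩
        refine ⟨⟨h1, ?_⟩, h2⟩
        show seq s hE hC x n = hd s p.1
        have h3 : x n = p := h2
        simp only [seq, h3]
      · rintro ⟨⟨h1, _⟩, h2⟩
        exact ⟨h1, h2⟩
    rw [h]
    exact qbt_inter (ih _) (QBT.fin n {p})

theorem hd_hist {x : ℕ → M} (h0 : x 0 = s) (n : ℕ) : hd s (hist x n) = x n := by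
  cases n with
  | zero => exact h0.symm
  | succ n => rfl

theorem length_hist (x : ℕ → M) (n : ℕ) : (hist x n).length = n := by
  induction n with
  | zero => rfl
  | succ n ih => simp [hist, ih]

theorem hist_pre (x : ℕ → M) (n : ℕ) : hist (pre s x) (n + 1) = hist x n ++ [x 0] := by
  induction n with
  | zero => rfl
  | succ n ih =>
    show pre s x (n + 2) :: hist (pre s x) (n + 1) = (x (n + 1) :: hist x n) ++ [x 0]
    rw [ih]
    rfl

variable {s} in
theorem leg_hist {x : ℕ → M} (h0 : x 0 = s) (h1 : ∀ n, n % 2 = 0 → C (x n) (x (n + 1)))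
    (h2 : ∀ n, n % 2 = 1 → E (x n) (x (n + 1))) (n : ℕ) : Leg E C s (hist x n) := by
  induction n with
  | zero => trivial
  | succ n ih =>
    refine ⟨ih, ?_⟩
    rw [length_hist, hd_hist s h0]
    split_ifs with h
    · exact h1 n h
    · exact h2 n (by omega)

theorem child_form {p q : (GTr s hE hC).Pos} (h1 : (GTr s hE hC).par q = p)
    (h2 : (GTr s hE hC).len q = (GTr s hE hC).len p + 1) : ∃ a, q.1 = a :: p.1 := by
  obtain ⟨l, hl⟩ := q
  subst h1
  cases l with
  | nil => exact absurd h2 (by show ¬ (0 = _ + 1); omega)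
  | cons a l => exact ⟨a, rfl⟩

/-- the strategy on lists given by a strategy on the game tree -/
noncomputable def lst (σ : (GTr s hE hC).Pos → (GTr s hE hC).Pos) (D : M → M) (r : ℕ) (l : List M) : M := by
  classical
  exact if h : Leg E C s l ∧ l.length % 2 = r then hd s (σ ⟨l, h.1⟩).1 else D (hd s l)

theorem lst_eq {σ : (GTr s hE hC).Pos → (GTr s hE hC).Pos} {D : M → M} {r : ℕ} {l : List M}
    (h : Leg E C s l) (h' : l.length % 2 = r) : lst s hE hC σ D r l = hd s (σ ⟨l, h⟩).1 := by
  unfold lst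
  rw [dif_pos ⟨h, h'⟩]

theorem lst_C {σ : (GTr s hE hC).Pos → (GTr s hE hC).Pos} (hσ : (GTr s hE hC).IsStrat σ) {D : M → M}
    (hD : ∀ a, C a (D a)) (l : List M) : C (hd s l) (lst s hE hC σ D 0 l) := by
  unfold lst
  split_ifs with h
  · obtain ⟨e1, e2⟩ := hσ ⟨l, h.1⟩
    obtain ⟨a, ha⟩ := child_form s hE hC e1 e2
    have h3 := (σ ⟨l, h.1⟩).2
    rw [ha] at h3 ⊢
    have h4 := h3.2
    rw [if_pos h.2] at h4
    exact h4
  · exact hD _

theorem lst_E {σ : (GTr s hE hC).Pos → (GTr s hE hC).Pos} (hσ : (GTr s hE hC).IsStrat σ) {D : M → M}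
    (hD : ∀ a, E a (D a)) (l : List M) : E (hd s l) (lst s hE hC σ D 1 l) := by
  unfold lst
  split_ifs with h
  · obtain ⟨e1, e2⟩ := hσ ⟨l, h.1⟩
    obtain ⟨a, ha⟩ := child_form s hE hC e1 e2
    have h3 := (σ ⟨l, h.1⟩).2
    rw [ha] at h3 ⊢
    have h4 := h3.2
    rw [if_neg (show ¬ l.length % 2 = 0 by omega)] at h4
    exact h4
  · exact hD _

/-- the play of the game tree given by a sequence of states -/
def toP {x : ℕ → M} (hx : ∀ n, Leg E C s (hist x n)) (n : ℕ) : (GTr s hE hC).Pos := ⟨hist x n, hx n⟩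

theorem toP_play {x : ℕ → M} (hx : ∀ n, Leg E C s (hist x n)) : (GTr s hE hC).IsPlay (toP s hE hC hx) :=
  ⟨fun n => length_hist x n, fun _ => rfl⟩

theorem seq_toP {x : ℕ → M} (h0 : x 0 = s) (hx : ∀ n, Leg E C s (hist x n)) :
    seq s hE hC (toP s hE hC hx) = x := by
  funext n
  exact hd_hist s h0 n

theorem toP_succ {x : ℕ → M} (hx : ∀ n, Leg E C s (hist x n))
    {σ : (GTr s hE hC).Pos → (GTr s hE hC).Pos} (hσ : (GTr s hE hC).IsStrat σ) (n : ℕ)
    (h : x (n + 1) = hd s (σ ⟨hist x n, hx n⟩).1) : toP s hE hC hx (n + 1) = σ (toP s hE hC hx n) := by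
  apply Subtype.ext
  obtain ⟨e1, e2⟩ := hσ (toP s hE hC hx n)
  obtain ⟨a, ha⟩ := child_form s hE hC e1 e2
  rw [ha]
  show x (n + 1) :: hist x n = a :: hist x n
  rw [h]
  show hd s (σ (toP s hE hC hx n)).1 :: hist x n = a :: hist x n
  rw [ha]
  rfl

end Det2

open Det2 in
/-- Either the second player (with moves `E`) can force `P`, or the first player (with moves `C`) has a first move `t` such
that from `t` he can, as second player, force the complement. -/
theorem det2 {M : Type} (E C : M → M → Prop) (hE : ∀ a, ∃ b, E a b) (hC : ∀ a, ∃ b, C a b) (s : M)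
    (P : Set (ℕ → M)) (hP : QB P) :
    W2 E C s P ∨ ∃ t, C s t ∧ W2 C E t {x | pre s x ∉ P} := by
  choose DE hDE using hE
  choose DC hDC using hC
  have hE : ∀ a, ∃ b, E a b := fun a => ⟨_, hDE a⟩
  have hC : ∀ a, ∃ b, C a b := fun a => ⟨_, hDC a⟩
  rcases qdet (GTr s hE hC) _ (QBT.compl _ (qbt_of_qb s hE hC hP)) with ⟨σ, hσ, hw⟩ | ⟨σ, hσ, hw⟩
  · right
    have hr := lst_C s hE hC hσ hDC []
    refine ⟨lst s hE hC σ DC 0 [], hr, fun l => lst s hE hC σ DC 0 (l ++ [lst s hE hC σ DC 0 []]), ?_, ?_⟩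
    · intro a l
      exact lst_C s hE hC hσ hDC (a :: (l ++ [lst s hE hC σ DC 0 []]))
    · intro x hx0 hx1 hx2
      have h0 : pre s x 0 = s := rfl
      have hleg : ∀ n, Leg E C s (hist (pre s x) n) := by
        apply leg_hist h0
        · intro n hn
          cases n with
          | zero => show C s (x 0); rw [hx0]; exact hr
          | succ n =>
            show C (x n) (x (n + 1))
            obtain ⟨k, rfl⟩ : ∃ k, n = 2 * k + 1 := ⟨n / 2, by omega⟩
            rw [hx2 k]
            exact lst_C s hE hC hσ hDC (hist x (2 * k + 1) ++ [_])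
        · intro n hn
          obtain ⟨k, rfl⟩ : ∃ k, n = 2 * k + 1 := ⟨n / 2, by omega⟩
          exact hx1 k
      have hres := hw (toP s hE hC hleg) (toP_play s hE hC hleg) (by
        intro n hn
        apply toP_succ s hE hC hleg hσ
        cases n with
        | zero =>
          show x 0 = _
          rw [hx0]
          exact lst_eq s hE hC (l := []) trivial rfl
        | succ n =>
          obtain ⟨k, rfl⟩ : ∃ k, n = 2 * k + 1 := ⟨n / 2, by omega⟩
          show x (2 * k + 2) = _
          rw [hx2 k]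
          beta_reduce
          have e : hist x (2 * k + 1) ++ [lst s hE hC σ DC 0 []] = hist (pre s x) (2 * k + 1 + 1) := by
            rw [hist_pre, hx0]
          simp only [e]
          exact lst_eq s hE hC (hleg _) (by rw [length_hist]; omega))
      show pre s x ∉ P
      intro hmem
      apply hres
      show seq s hE hC (toP s hE hC hleg) ∈ P
      rw [seq_toP s hE hC h0]
      exact hmem
  · left
    refine ⟨lst s hE hC σ DE 1, ?_, ?_⟩
    · intro a l
      exact lst_E s hE hC hσ hDE (a :: l)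
    · intro x hx0 hx1 hx2
      have hleg : ∀ n, Leg E C s (hist x n) := by
        apply leg_hist hx0
        · intro n hn
          obtain ⟨k, rfl⟩ : ∃ k, n = 2 * k := ⟨n / 2, by omega⟩
          exact hx1 k
        · intro n hn
          obtain ⟨k, rfl⟩ : ∃ k, n = 2 * k + 1 := ⟨n / 2, by omega⟩
          rw [hx2 k]
          exact lst_E s hE hC hσ hDE (hist x (2 * k + 1))
      have hres := hw (toP s hE hC hleg) (toP_play s hE hC hleg) (by
        intro n hn
        apply toP_succ s hE hC hleg hσ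
        obtain ⟨k, rfl⟩ : ∃ k, n = 2 * k + 1 := ⟨n / 2, by omega⟩
        rw [hx2 k]
        exact lst_eq s hE hC (hleg _) (by rw [length_hist]; omega))
      have h3 : toP s hE hC hleg ∈ {x | seq s hE hC x ∈ P} := not_not.1 hres
      have h4 : seq s hE hC (toP s hE hC hleg) ∈ P := h3
      rw [seq_toP s hE hC hx0] at h4
      exact h4

end Pool.Agent.Helper701.Marks
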