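import Pool.Agent.Helper701_Marks.Grp

/-! # The graph -/

set_option autoImplicit false

namespace Pool.Agent.Helper701.Marks

theorem act_act {α : Type} (d e : Gam) (y : Gam → α) : act d (act e y) = act (d * e) y := by
  funext g
  unfold act
  rw [mul_inv_rev, mul_assoc]

theorem act_one {α : Type} (y : Gam → α) : act 1 y = y := by
  funext g
  unfold act
  rw [inv_one, one_mul]

theorem act_gen_gen {α : Type} (i : Fin 3) (y : Gam → α) : act (gen i) (act (gen i) y) = y := by
  rw [act_act, gen_mul_gen, act_one]

theorem act_mem_XS {y : Gam → ℕ → Bool} (h : y ∈ XS) (d : Gam) : act d y ∈ XS := by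
  refine ⟨?_, ?_⟩
  · intro g g' e
    exact mul_left_cancel (h.1 e)
  · intro g i
    obtain ⟨N, hN⟩ := h.2 (d⁻¹ * g) i
    refine ⟨N, fun k hk => ?_⟩
    have := hN k hk
    unfold act
    rwa [mul_assoc] at this

theorem act_free {y : Gam → ℕ → Bool} (h : y ∈ XS) {d : Gam} (hd : act d y = y) : d = 1 := by
  have h1 := congrFun hd d
  unfold act at h1
  rw [inv_mul_cancel] at h1
  exact (h.1 h1).symm

theorem measurable_act (d : Gam) : Measurable (act d : (Gam → ℕ → Bool) → Gam → ℕ → Bool) := by
  unfold act
  exact measurable_pi_lambda _ fun g => measurable_pi_apply _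

theorem measurable_coord (g : Gam) (k : ℕ) :
    Measurable (fun y : Gam → ℕ → Bool => y g k) :=
  (measurable_pi_apply k).comp (measurable_pi_apply g)

theorem measurableSet_XS : MeasurableSet XS := by
  have h1 : XS = (⋂ (g : Gam), ⋂ (h : Gam), ⋂ (_ : g ≠ h), ⋃ (k : ℕ),
      {y : Gam → ℕ → Bool | y g k = y h k}ᶜ) ∩
      ⋂ (g : Gam), ⋂ (i : Fin 3), ⋃ (N : ℕ), ⋂ (k : ℕ), ⋂ (_ : N ≤ k),
        {y : Gam → ℕ → Bool | y (g * gen i) k = y g k}ᶜ := by
    ext y
    simp only [Set.mem_inter_iff, Set.mem_iInter, Set.mem_iUnion]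
    constructor
    · intro hy
      refine ⟨?_, ?_⟩
      · intro g h hgh
        by_contra hc
        push Not at hc
        apply hgh
        apply hy.1
        funext k
        have := hc k
        by_contra hk
        exact this hk
      · intro g i
        obtain ⟨N, hN⟩ := hy.2 g i
        exact ⟨N, fun k hk => hN k hk⟩
    · rintro ⟨h1, h2⟩
      refine ⟨?_, ?_⟩
      · intro g h e
        by_contra hgh
        obtain ⟨k, hk⟩ := h1 g h hgh
        exact hk (congrFun e k)
      · intro g i
        obtain ⟨N, hN⟩ := h2 g i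
        exact ⟨N, fun k hk => hN k hk⟩
  rw [h1]
  refine MeasurableSet.inter ?_ ?_
  · refine MeasurableSet.iInter fun g => MeasurableSet.iInter fun h => MeasurableSet.iInter fun _ =>
      MeasurableSet.iUnion fun k => MeasurableSet.compl ?_
    exact measurableSet_eq_fun (measurable_coord g k) (measurable_coord h k)
  · refine MeasurableSet.iInter fun g => MeasurableSet.iInter fun i => MeasurableSet.iUnion fun N =>
      MeasurableSet.iInter fun k => MeasurableSet.iInter fun _ => MeasurableSet.compl ?_
    exact measurableSet_eq_fun (measurable_coord _ k) (measurable_coord g k)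

theorem gen_mem_R (i : Fin 3) : gen i ∈ R i := by
  have := gen_mul_mem (one_notMem i)
  rwa [mul_one] at this

theorem gen_ne_one (i : Fin 3) : gen i ≠ 1 := by
  intro h
  have := gen_mem_R i
  rw [h] at this
  exact one_notMem i this

theorem gen_inj {i j : Fin 3} (h : gen i = gen j) : i = j := by
  by_contra hne
  have h1 := gen_mem_R i
  have h2 := gen_mem_R j
  rw [← h] at h2
  exact R_disj hne h1 h2

/-- the graph -/
def GX : SimpleGraph XS where
  Adj x y := ∃ i, y.1 = act (gen i) x.1
  symm := by
    refine ⟨?_⟩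
    rintro x y ⟨i, h⟩
    exact ⟨i, by rw [h, act_gen_gen]⟩
  loopless := by
    refine ⟨?_⟩
    rintro x ⟨i, h⟩
    exact gen_ne_one i (act_free x.2 h.symm)

theorem GX_meas : MeasurableSet {p : XS × XS | GX.Adj p.1 p.2} := by
  have h1 : {p : XS × XS | GX.Adj p.1 p.2} = ⋃ i : Fin 3, ⋂ g : Gam, ⋂ k : ℕ,
      {p : XS × XS | p.2.1 g k = act (gen i) p.1.1 g k} := by
    ext p
    simp only [Set.mem_iUnion, Set.mem_iInter]
    constructor
    · rintro ⟨i, h⟩
      refine ⟨i, fun g k => ?_⟩
      show p.2.1 g k = act (gen i) p.1.1 g k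
      rw [h]
    · rintro ⟨i, h⟩
      refine ⟨i, ?_⟩
      funext g k
      exact h g k
  rw [h1]
  refine MeasurableSet.iUnion fun i => MeasurableSet.iInter fun g => MeasurableSet.iInter fun k => ?_
  refine measurableSet_eq_fun ?_ ?_
  · exact (measurable_coord g k).comp (measurable_subtype_coe.comp measurable_snd)
  · exact (measurable_coord g k).comp ((measurable_act (gen i)).comp
      (measurable_subtype_coe.comp measurable_fst))

theorem GX_reg (x : XS) : (GX.neighborSet x).encard = ((3 : ℕ) : ℕ∞) := by
  let f : Fin 3 → XS := fun i => ⟨act (gen i) x.1, act_mem_XS x.2 (gen i)⟩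
  have hf : Function.Injective f := by
    intro i j h
    have h1 : act (gen i) x.1 = act (gen j) x.1 := congrArg Subtype.val h
    have h2 : act (gen j * gen i) x.1 = x.1 := by
      rw [← act_act, h1, act_gen_gen]
    have h3 := act_free x.2 h2
    have h4 : gen i = gen j := by
      have := congrArg (fun g => gen j * g) h3
      simpa [gen_mul_cancel] using this
    exact gen_inj h4
  have h1 : GX.neighborSet x = Set.range f := by
    ext y
    constructor
    · rintro ⟨i, h⟩
      exact ⟨i, Subtype.ext h.symm⟩
    · rintro ⟨i, h⟩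
      exact ⟨i, by rw [← h]⟩
  rw [h1, ← Set.image_univ, hf.encard_image, Set.encard_univ]
  simp

theorem path_elt {u v : XS} (q : GX.Walk u v) : q.IsPath →
    ∃ e : Gam, u.1 = act e v.1 ∧ len e = q.length ∧
      ∀ i, e ∈ R i → ∃ w ∈ q.support, w.1 = act (gen i) u.1 := by
  induction q with
  | nil =>
    intro _
    refine ⟨1, (act_one _).symm, len_one, fun i hi => absurd hi (one_notMem i)⟩
  | @cons u w v h q ih =>
    intro hp
    rw [SimpleGraph.Walk.cons_isPath_iff] at hp
    obtain ⟨e, he1, he2, he3⟩ := ih hp.1
    obtain ⟨i, hi⟩ := h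
    have hu : u.1 = act (gen i) w.1 := by rw [hi, act_gen_gen]
    have hei : e ∉ R i := by
      intro hc
      obtain ⟨x, hx1, hx2⟩ := he3 i hc
      have : x = u := Subtype.ext (hx2.trans hu.symm)
      rw [this] at hx1
      exact hp.2 hx1
    refine ⟨gen i * e, ?_, ?_, ?_⟩
    · rw [hu, he1, act_act]
    · rw [len_gen_mul i e hei, he2, SimpleGraph.Walk.length_cons]
    · intro j hj
      have hij : j = i := by
        by_contra hne
        exact R_disj hne hj (gen_mul_mem hei)
      subst hij
      exact ⟨w, by simp, hi⟩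

theorem GX_acyclic : GX.IsAcyclic := by
  intro v c hc
  cases c with
  | nil => exact hc.ne_nil rfl
  | @cons _ w _ h q =>
    rw [SimpleGraph.Walk.cons_isCycle_iff] at hc
    obtain ⟨e, he1, he2, -⟩ := path_elt q hc.1
    obtain ⟨i, hi⟩ := h
    have h1 : act (gen i * e) v.1 = v.1 := by
      rw [← act_act, ← he1, hi, act_gen_gen]
    have h2 := act_free v.2 h1
    have h3 : e = gen i := by
      have := congrArg (fun g => gen i * g) h2
      simpa [gen_mul_cancel] using this
    have h4 : len e = 1 := by
      have := len_gen_mul i 1 (one_notMem i)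
      rw [mul_one, len_one] at this
      rw [h3, this]
    rw [h4] at he2
    cases q with
    | nil => simp at he2
    | cons h' q' =>
      rw [SimpleGraph.Walk.length_cons] at he2
      have h5 : q'.length = 0 := by omega
      cases q' with
      | nil =>
        apply hc.2
        simp [Sym2.eq_swap]
      | cons h'' q'' => simp at h5

end Pool.Agent.Helper701.Marks
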