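import Pool.Agent.Helper701_Marks.Grp

/-! # Theorem B, the finite part -/

set_option autoImplicit false

namespace Pool.Agent.Helper701.Marks.ThmBFin

open Finset

/-- left translation of finite sets -/
def tl (i : Fin 3) (F : Finset Gam) : Finset Gam := F.map (mulLeftEmbedding (gen i))

theorem mem_tl (i : Fin 3) (F : Finset Gam) (g : Gam) : g ∈ tl i F ↔ gen i * g ∈ F := by
  unfold tl
  rw [Finset.mem_map]
  constructor
  · rintro ⟨h, hh, rfl⟩
    change gen i * (gen i * h) ∈ F
    rwa [gen_mul_cancel]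
  · intro h
    exact ⟨_, h, gen_mul_cancel i g⟩

theorem tl_tl (i : Fin 3) (F : Finset Gam) : tl i (tl i F) = F := by
  ext g
  rw [mem_tl, mem_tl, gen_mul_cancel]

theorem tl_inj (i : Fin 3) : Function.Injective (tl i) :=
  Function.LeftInverse.injective (g := tl i) (fun F => tl_tl i F)

theorem tl_empty (i : Fin 3) : tl i ∅ = ∅ := rfl

/-- the sets dominated by `R i` -/
def SS (i : Fin 3) : Set (Finset Gam) := {F | ∃ g ∈ F, g ∈ R i ∧ ∀ h ∈ F, h ∉ R i → len h < len g}

theorem SS_disj {i j : Fin 3} (hij : i ≠ j) {F : Finset Gam} (h1 : F ∈ SS i) : F ∉ SS j := by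
  rintro ⟨g', hg', hg2', hmax'⟩
  obtain ⟨g, hg, hg2, hmax⟩ := h1
  have a := hmax g' hg' (R_disj hij.symm hg2')
  have b := hmax' g hg (R_disj hij hg2)
  omega

theorem SS_nonempty {i : Fin 3} {F : Finset Gam} (h1 : F ∈ SS i) : F ≠ ∅ := by
  obtain ⟨g, hg, _⟩ := h1
  exact Finset.ne_empty_of_mem hg

theorem SS_tl {i : Fin 3} {F : Finset Gam} (hF : F ≠ ∅) (h : F ∉ SS i) : tl i F ∈ SS i := by
  classical
  have h' : ∀ g ∈ F, g ∈ R i → ∃ k ∈ F, k ∉ R i ∧ len g ≤ len k := by
    intro g hg hgi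
    by_contra hcon
    push Not at hcon
    exact h ⟨g, hg, hgi, hcon⟩
  have hne : (F.filter (fun g => g ∉ R i)).Nonempty := by
    obtain ⟨g, hg⟩ := Finset.nonempty_iff_ne_empty.mpr hF
    by_cases hgi : g ∈ R i
    · obtain ⟨k, hk, hki, _⟩ := h' g hg hgi
      exact ⟨k, Finset.mem_filter.mpr ⟨hk, hki⟩⟩
    · exact ⟨g, Finset.mem_filter.mpr ⟨hg, hgi⟩⟩
  obtain ⟨k, hk, hmax⟩ := Finset.exists_max_image _ len hne
  rw [Finset.mem_filter] at hk
  refine ⟨gen i * k, ?_, gen_mul_mem hk.2, ?_⟩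
  · rw [mem_tl, gen_mul_cancel]; exact hk.1
  · intro l hl hli
    rw [mem_tl] at hl
    have h1 : gen i * l ∈ R i := (mem_R_iff i l).mpr hli
    obtain ⟨k', hk', hki', hle⟩ := h' _ hl h1
    have h2 := hmax k' (Finset.mem_filter.mpr ⟨hk', hki'⟩)
    rw [len_gen_mul i l hli] at hle
    rw [len_gen_mul i k hk.2]
    omega

/-- The finite part of Theorem B: a square summable family indexed by the finite subsets cannot be almost negated by all
three translations. -/
theorem fin_gap_inf (a : Finset Gam → ℝ) (C : ℝ) (h0 : ∀ U : Finset (Finset Gam), ∑ F ∈ U, a F ^ 2 ≤ C)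
    (U₀ : Finset (Finset Gam)) (h1 : 1 / 2 ≤ ∑ F ∈ U₀, a F ^ 2)
    (h2 : ∀ (i : Fin 3) (U : Finset (Finset Gam)), ∑ F ∈ U, (a (tl i F) + a F) ^ 2 ≤ 1 / 50) : False := by
  classical
  set f : Finset Gam → ℝ := fun F => a F ^ 2 with hf
  have hf0 : ∀ F, 0 ≤ f F := fun F => sq_nonneg _
  have hs : Summable f := summable_of_sum_le hf0 h0
  have hsi : ∀ P : Set (Finset Gam), Summable (P.indicator f) := fun P => hs.indicator P
  have hi0 : ∀ (P : Set (Finset Gam)) F, 0 ≤ P.indicator f F := fun P F =>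
    Set.indicator_nonneg (fun x _ => hf0 x) F
  obtain ⟨m, hm⟩ : ∃ m : Set (Finset Gam) → ℝ, m = fun P => ∑' F, P.indicator f F := ⟨_, rfl⟩
  have hlow : ∀ (P : Set (Finset Gam)) (U : Finset (Finset Gam)), (∀ F ∈ U, F ∈ P) → ∑ F ∈ U, f F ≤ m P := by
    intro P U hU
    rw [hm]
    have h3 : ∑ F ∈ U, f F = ∑ F ∈ U, P.indicator f F :=
      Finset.sum_congr rfl (fun F hF => (Set.indicator_of_mem (hU F hF) f).symm)
    rw [h3]
    exact (hsi P).sum_le_tsum U (fun F _ => hi0 P F)
  have hupp : ∀ (P : Set (Finset Gam)) (c : ℝ),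
      (∀ U : Finset (Finset Gam), (∀ F ∈ U, F ∈ P) → ∑ F ∈ U, f F ≤ c) → m P ≤ c := by
    intro P c h
    rw [hm]
    apply (hsi P).tsum_le_of_sum_le
    intro U
    have h3 : ∑ F ∈ U, P.indicator f F = ∑ F ∈ U.filter (fun F => F ∈ P), f F := by
      rw [Finset.sum_filter]
      exact Finset.sum_congr rfl (fun F _ => by
        by_cases hF : F ∈ P
        · rw [Set.indicator_of_mem hF, if_pos hF]
        · rw [Set.indicator_of_notMem hF, if_neg hF])
    rw [h3]
    exact h _ (fun F hF => (Finset.mem_filter.mp hF).2)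
  obtain ⟨Ne, hNe⟩ : ∃ Ne : Set (Finset Gam), Ne = {F | F ≠ ∅} := ⟨_, rfl⟩
  -- the empty set
  have hempty : f ∅ ≤ 1 / 200 := by
    have := h2 0 {∅}
    rw [Finset.sum_singleton, tl_empty] at this
    have e : (a ∅ + a ∅) ^ 2 = 4 * f ∅ := by rw [hf]; ring
    rw [e] at this
    linarith
  have hM : 1 / 2 - 1 / 200 ≤ m Ne := by
    have h3 : ∑ F ∈ U₀, f F ≤ ∑ F ∈ U₀.erase ∅, f F + f ∅ := by
      by_cases h4 : ∅ ∈ U₀
      · rw [Finset.sum_erase_add _ _ h4]
      · rw [Finset.erase_eq_of_notMem h4]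
        linarith [hf0 ∅]
    have h5 := hlow Ne (U₀.erase ∅) (fun F hF => by rw [hNe]; exact Finset.ne_of_mem_erase hF)
    have h6 : 1 / 2 ≤ ∑ F ∈ U₀, f F := h1
    linarith
  have hsum : m (SS 0) + m (SS 1) + m (SS 2) ≤ m Ne := by
    rw [hm]
    have e : ∑' F, (SS 0).indicator f F + ∑' F, (SS 1).indicator f F + ∑' F, (SS 2).indicator f F =
        ∑' F, ((SS 0).indicator f F + (SS 1).indicator f F + (SS 2).indicator f F) := by
      rw [((hsi (SS 0)).add (hsi (SS 1))).tsum_add (hsi (SS 2)), (hsi (SS 0)).tsum_add (hsi (SS 1))]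
    change ∑' F, (SS 0).indicator f F + ∑' F, (SS 1).indicator f F + ∑' F, (SS 2).indicator f F ≤
      ∑' F, Ne.indicator f F
    rw [e]
    refine (((hsi (SS 0)).add (hsi (SS 1))).add (hsi (SS 2))).tsum_le_tsum ?_ (hsi Ne)
    intro F
    have hcase : ∀ i : Fin 3, F ∈ SS i → F ∈ Ne := fun i hi => by rw [hNe]; exact SS_nonempty hi
    by_cases c0 : F ∈ SS 0
    · rw [Set.indicator_of_mem c0, Set.indicator_of_notMem (SS_disj (by decide) c0),
        Set.indicator_of_notMem (SS_disj (by decide) c0), Set.indicator_of_mem (hcase 0 c0)]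
      simp
    · by_cases c1 : F ∈ SS 1
      · rw [Set.indicator_of_notMem c0, Set.indicator_of_mem c1,
          Set.indicator_of_notMem (SS_disj (by decide) c1), Set.indicator_of_mem (hcase 1 c1)]
        simp
      · by_cases c2 : F ∈ SS 2
        · rw [Set.indicator_of_notMem c0, Set.indicator_of_notMem c1, Set.indicator_of_mem c2,
            Set.indicator_of_mem (hcase 2 c2)]
          simp
        · rw [Set.indicator_of_notMem c0, Set.indicator_of_notMem c1, Set.indicator_of_notMem c2]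
          simpa using hi0 Ne F
  have hmain : ∀ i : Fin 3, m Ne ≤ m (SS i) + (6 / 5 * m (SS i) + 6 / 50) := by
    intro i
    have h3 : m Ne ≤ m (SS i) + m (Ne \ SS i) := by
      rw [hm]
      change ∑' F, Ne.indicator f F ≤ ∑' F, (SS i).indicator f F + ∑' F, (Ne \ SS i).indicator f F
      rw [← (hsi (SS i)).tsum_add (hsi (Ne \ SS i))]
      refine (hsi Ne).tsum_le_tsum ?_ ((hsi (SS i)).add (hsi (Ne \ SS i)))
      intro F
      by_cases c0 : F ∈ Ne
      · by_cases c1 : F ∈ SS i
        · rw [Set.indicator_of_mem c0, Set.indicator_of_mem c1]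
          linarith [hi0 (Ne \ SS i) F]
        · rw [Set.indicator_of_mem c0, Set.indicator_of_notMem c1, Set.indicator_of_mem (show F ∈ Ne \ SS i from ⟨c0, c1⟩)]
          simp
      · rw [Set.indicator_of_notMem c0]
        linarith [hi0 (Ne \ SS i) F, hi0 (SS i) F]
    have h4 : m (Ne \ SS i) ≤ 6 / 5 * m (SS i) + 6 / 50 := by
      apply hupp
      intro U hU
      have h5 : ∑ F ∈ U, f F ≤ ∑ F ∈ U, (6 / 5 * f (tl i F) + 6 * (a (tl i F) + a F) ^ 2) := by
        apply Finset.sum_le_sum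
        intro F _
        change a F ^ 2 ≤ 6 / 5 * a (tl i F) ^ 2 + 6 * (a (tl i F) + a F) ^ 2
        nlinarith [sq_nonneg (5 * (a (tl i F) + a F) + a (tl i F)), sq_nonneg (5 * (a (tl i F) + a F) - a (tl i F)),
          sq_nonneg (a F + 6 / 5 * a (tl i F))]
      have h6 : ∑ F ∈ U, f (tl i F) ≤ m (SS i) := by
        have h7 := hlow (SS i) (U.map ⟨tl i, tl_inj i⟩) (by
          intro F hF
          rw [Finset.mem_map] at hF
          obtain ⟨G, hG, rfl⟩ := hF
          have h8 := hU G hG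
          rw [hNe] at h8
          exact SS_tl h8.1 h8.2)
        rw [Finset.sum_map] at h7
        exact h7
      rw [Finset.sum_add_distrib, ← Finset.mul_sum, ← Finset.mul_sum] at h5
      have h7 := h2 i U
      linarith
    linarith
  have a0 := hmain 0
  have a1 := hmain 1
  have a2 := hmain 2
  linarith

end Pool.Agent.Helper701.Marks.ThmBFin

namespace Pool.Agent.Helper701.Marks

open Finset ThmBFin

/-- The finite part of Theorem B. -/
theorem fin_gap (S : Finset (Finset Gam)) (a : Finset Gam → ℝ) (hsupp : ∀ F, F ∉ S → a F = 0)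
    (h1 : ∑ F ∈ S, a F ^ 2 = 1)
    (h2 : ∀ i : Fin 3, ∑ F ∈ S, (a F + a (F.map (mulLeftEmbedding (gen i)))) ^ 2 ≤ 1 / 100) : False := by
  classical
  have hb : ∀ (b : Finset Gam → ℝ), (∀ F, 0 ≤ b F) → (∀ F, F ∉ S → b F = 0) →
      ∀ U : Finset (Finset Gam), ∑ F ∈ U, b F ≤ ∑ F ∈ S, b F := by
    intro b hb0 hbS U
    have e : ∑ F ∈ U, b F = ∑ F ∈ U ∩ S, b F := by
      symm
      apply Finset.sum_subset Finset.inter_subset_left
      intro F hF hF2
      exact hbS F (fun h => hF2 (Finset.mem_inter.mpr ⟨hF, h⟩))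
    rw [e]
    exact Finset.sum_le_sum_of_subset_of_nonneg Finset.inter_subset_right (fun F _ _ => hb0 F)
  refine fin_gap_inf a 1 ?_ S (by rw [h1]; norm_num) ?_
  · intro U
    rw [← h1]
    exact hb (fun F => a F ^ 2) (fun F => sq_nonneg _) (fun F hF => by rw [hsupp F hF]; norm_num) U
  · intro i U
    -- terms with `F ∈ S` and terms with `tl i F ∈ S`
    set t : Finset Gam → ℝ := fun F => (a F + a (tl i F)) ^ 2 with ht
    have hti : ∀ F, t (tl i F) = t F := by
      intro F
      rw [ht]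
      change (a (tl i F) + a (tl i (tl i F))) ^ 2 = (a F + a (tl i F)) ^ 2
      rw [tl_tl]; ring
    have ht0 : ∀ F, 0 ≤ t F := fun F => sq_nonneg _
    have hS : ∑ F ∈ S, t F ≤ 1 / 100 := h2 i
    have hpt : ∀ F, t F ≤ (if F ∈ S then t F else 0) + (if tl i F ∈ S then t (tl i F) else 0) := by
      intro F
      by_cases c1 : F ∈ S
      · rw [if_pos c1]
        have : 0 ≤ (if tl i F ∈ S then t (tl i F) else 0) := by
          split_ifs
          · exact ht0 _
          · exact le_refl _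
        linarith
      · by_cases c2 : tl i F ∈ S
        · rw [if_neg c1, if_pos c2, hti, zero_add]
        · have : t F = 0 := by
            rw [ht]
            change (a F + a (tl i F)) ^ 2 = 0
            rw [hsupp F c1, hsupp _ c2]; norm_num
          rw [this, if_neg c1, if_neg c2, add_zero]
    have e1 : ∑ F ∈ U, (a (tl i F) + a F) ^ 2 = ∑ F ∈ U, t F :=
      Finset.sum_congr rfl (fun F _ => by rw [ht]; ring)
    rw [e1]
    have e2 := Finset.sum_le_sum (s := U) (fun F _ => hpt F)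
    rw [Finset.sum_add_distrib] at e2
    have e3 : ∑ F ∈ U, (if F ∈ S then t F else 0) ≤ ∑ F ∈ S, t F := by
      refine (hb (fun F => if F ∈ S then t F else 0) ?_ ?_ U).trans (le_of_eq ?_)
      · intro F
        split_ifs
        · exact ht0 F
        · exact le_refl _
      · intro F hF
        exact if_neg hF
      · exact Finset.sum_congr rfl (fun F hF => if_pos hF)
    have e4 : ∑ F ∈ U, (if tl i F ∈ S then t (tl i F) else 0) ≤ ∑ F ∈ S, t F := by
      have e5 : ∑ F ∈ U, (if tl i F ∈ S then t (tl i F) else 0) =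
          ∑ F ∈ U.map ⟨tl i, tl_inj i⟩, (if F ∈ S then t F else 0) := by
        rw [Finset.sum_map]; rfl
      rw [e5]
      refine (hb (fun F => if F ∈ S then t F else 0) ?_ ?_ _).trans (le_of_eq ?_)
      · intro F
        split_ifs
        · exact ht0 F
        · exact le_refl _
      · intro F hF
        exact if_neg hF
      · exact Finset.sum_congr rfl (fun F hF => if_pos hF)
    linarith

end Pool.Agent.Helper701.Marks
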