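import Pool.Agent.Helper701_Marks.ThmB2
import Pool.Agent.Helper701_Marks.ThmBFin

/-! # Theorem B: no homomorphism from Marks' graph -/

set_option autoImplicit false

open MeasureTheory

namespace Pool.Agent.Helper701.Marks

/-- There are no functions `p K` on the Bernoulli shift such that for every `x` in the free part and every `i`, the bits
`p K (gen i • x)` and `p K x` are different for all large `K`. -/
theorem noBits (p : ℕ → (Gam → Bool) → Bool) (hp : ∀ K, Measurable (p K))
    (h : ∀ x : Gam → Bool, (∀ γ : Gam, γ ≠ 1 → act γ x ≠ x) → ∀ i : Fin 3,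
      ∃ N, ∀ K, N ≤ K → p K (act (gen i) x) ≠ p K x) : False := by
  classical
  obtain ⟨K, hK⟩ := ThmB.exists_small p hp h (ε := 1 / 1200) (by norm_num)
  have hA : MeasurableSet {x | p K x = true} := hp K (measurableSet_singleton true)
  obtain ⟨T, C, hC, hCT, hAC⟩ := ThmB.approx_set hA (ε := 1 / 1200) (by norm_num)
  -- the approximating function with values `1` and `-1`
  set u : (Gam → Bool) → ℝ := fun x => if x ∈ C then -1 else 1 with hu
  have hum : Measurable u := Measurable.ite hC measurable_const measurable_const
  have husq : ∀ x, u x ^ 2 = 1 := by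
    intro x
    simp only [hu]
    split_ifs <;> norm_num
  obtain ⟨a, ha, hexp⟩ := ThmB.expand T u (fun x y hxy => by
    simp only [hu, hCT x y hxy])
  refine fin_gap T.powerset a ha ?_ (fun i => ?_)
  · rw [← ThmB.integral_sq T.powerset a]
    simp only [← hexp, husq, integral_const, probReal_univ, smul_eq_mul, mul_one]
  · refine (ThmB.shift_sq T.powerset a ha i).trans ?_
    simp only [← hexp]
    -- the set where `u` does not change
    set B : Set (Gam → Bool) := {x | p K (act (gen i) x) = p K x} ∪ symmDiff {x | p K x = true} C ∪
      (act (gen i)) ⁻¹' (symmDiff {x | p K x = true} C) with hB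
    have hDm : MeasurableSet (symmDiff {x | p K x = true} C) := hA.symmDiff hC
    have hEm : MeasurableSet {x | p K (act (gen i) x) = p K x} :=
      measurableSet_eq_fun ((hp K).comp (ThmB.mp_act (gen i)).measurable) (hp K)
    have hBm : MeasurableSet B := (hEm.union hDm).union ((ThmB.mp_act (gen i)).measurable hDm)
    have hBle : ThmB.mu.real B ≤ 1 / 400 := by
      have e1 : ThmB.mu.real ((act (gen i)) ⁻¹' (symmDiff {x | p K x = true} C)) =
          ThmB.mu.real (symmDiff {x | p K x = true} C) := by
        unfold Measure.real
        rw [(ThmB.mp_act (gen i)).measure_preimage hDm.nullMeasurableSet]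
      have e2 := measureReal_union_le (μ := ThmB.mu) ({x | p K (act (gen i) x) = p K x} ∪ symmDiff {x | p K x = true} C)
        ((act (gen i)) ⁻¹' (symmDiff {x | p K x = true} C))
      have e3 := measureReal_union_le (μ := ThmB.mu) {x | p K (act (gen i) x) = p K x} (symmDiff {x | p K x = true} C)
      have e4 := hK i
      rw [e1] at e2
      linarith
    have hpt : ∀ x, (u (act (gen i) x) + u x) ^ 2 ≤ B.indicator (fun _ => (4 : ℝ)) x := by
      intro x
      by_cases hx : x ∈ B
      · rw [Set.indicator_of_mem hx]
        simp only [hu]
        split_ifs <;> norm_num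
      · rw [Set.indicator_of_notMem hx]
        simp only [hB, Set.mem_union, Set.mem_preimage, not_or, Set.mem_ofPred_eq, Set.mem_symmDiff] at hx
        obtain ⟨⟨hx1, hx2⟩, hx3⟩ := hx
        simp only [hu]
        cases ha1 : p K x <;> cases ha2 : p K (act (gen i) x) <;> simp_all
    have hint1 : Integrable (fun x => (u (act (gen i) x) + u x) ^ 2) ThmB.mu := by
      refine ThmB.integrable_of_bdd (C := 4) (((hum.comp (ThmB.mp_act (gen i)).measurable).add hum).pow_const 2) (fun x => ?_)
      simp only [hu]
      split_ifs <;> norm_num
    have hint2 : Integrable (B.indicator (fun _ => (4 : ℝ))) ThmB.mu := (integrable_const _).indicator hBm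
    have h5 := integral_mono hint1 hint2 hpt
    rw [integral_indicator_const _ hBm, smul_eq_mul] at h5
    linarith

end Pool.Agent.Helper701.Marks
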