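import Pool.Agent.Helper701_Marks.ThmA
import Pool.Agent.Helper701_Marks.ThmB
import Pool.Agent.Helper701_Marks.Graph

/-! # Assembly -/

set_option autoImplicit false

namespace Pool.Agent.Helper701.Marks

/-- the hypothesis of the frozen statement holds for `GX` -/
theorem hyp : ¬ ∃ E : XS → XS → Prop, Equivalence E ∧ (∀ x y, GX.Reachable x y → E x y) ∧
        (∃ f : XS → ℝ, Measurable f ∧ ∀ x y, E x y ↔ f x = f y) ∧
        ∀ x₀ : XS, ∃ c : XS → Fin 3, Measurable c ∧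
          ∀ x y, E x₀ x → E x₀ y → GX.Adj x y → c x ≠ c y := by
  rintro ⟨E, _, hEG, ⟨f, hf, hEf⟩, hc⟩
  choose c hcm hcc using hc
  classical
  let ι : ℝ → ℕ → Bool := MeasurableSpace.mapNatBool ℝ
  have hι : Measurable ι := MeasurableSpace.measurable_mapNatBool ℝ
  have hιi : Function.Injective ι := MeasurableSpace.injective_mapNatBool ℝ
  have hadj : ∀ (y : XS) (i : Fin 3), GX.Adj y ⟨act (gen i) y.1, act_mem_XS y.2 _⟩ := fun y i => ⟨i, rfl⟩
  have hE : ∀ (y : XS) (i : Fin 3), f ⟨act (gen i) y.1, act_mem_XS y.2 _⟩ = f y := fun y i =>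
    ((hEf _ _).1 (hEG _ _ (hadj y i).reachable)).symm
  let F : (Gam → ℕ → Bool) → ℕ → Bool := fun y => if h : y ∈ XS then ι (f ⟨y, h⟩) else fun _ => false
  have hF : ∀ y (h : y ∈ XS), F y = ι (f ⟨y, h⟩) := fun y h => dif_pos h
  let C : (ℕ → Bool) → (Gam → ℕ → Bool) → Fin 3 := fun r =>
    if hr : ∃ x0 : XS, ι (f x0) = r then
      fun y => if h : y ∈ XS then c (Classical.choose hr) ⟨y, h⟩ else 0
    else fun _ => 0
  have hFm : Measurable F :=
    Measurable.dite (s := XS) (f := fun y => ι (f y)) (g := fun _ _ => false) (hι.comp hf)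
      measurable_const measurableSet_XS
  have hCm : ∀ r, Measurable (C r) := by
    intro r
    by_cases hr : ∃ x0 : XS, ι (f x0) = r
    · simp only [C, dif_pos hr]
      exact Measurable.dite (s := XS) (f := fun y => c (Classical.choose hr) y) (g := fun _ => 0) (hcm _)
        measurable_const measurableSet_XS
    · simp only [C, dif_neg hr]
      exact measurable_const
  refine noDat ⟨F, C, hFm, hCm, ?_, ?_⟩
  · intro y hy i
    rw [hF y hy, hF _ (act_mem_XS hy _)]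
    exact congrArg ι (hE ⟨y, hy⟩ i)
  · intro y hy i
    have hr : ∃ x0 : XS, ι (f x0) = F y := ⟨⟨y, hy⟩, (hF y hy).symm⟩
    have hx0 : f (Classical.choose hr) = f ⟨y, hy⟩ :=
      hιi ((Classical.choose_spec hr).trans (hF y hy))
    simp only [C, dif_pos hr, dif_pos hy, dif_pos (act_mem_XS hy (gen i))]
    refine (hcc _ _ _ ((hEf _ _).2 hx0) ((hEf _ _).2 ?_) (hadj ⟨y, hy⟩ i)).symm
    rw [hx0]
    exact (hE ⟨y, hy⟩ i).symm

/-- there is no Borel homomorphism -/
theorem nohom : ¬ ∃ φ : (Gam → Bool) → XS, Measurable φ ∧ ∀ x y : Gam → Bool,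
    (∀ γ : Gam, γ ≠ 1 → (fun δ => x (γ⁻¹ * δ)) ≠ x) →
    (∃ i : Fin 3, y = fun δ => x ((gen i)⁻¹ * δ)) → GX.Adj (φ x) (φ y) := by
  rintro ⟨φ, hφ, h⟩
  refine noBits (fun K x => (φ x).1 1 K) ?_ ?_
  · intro K
    exact (measurable_pi_apply K).comp ((measurable_pi_apply (1 : Gam)).comp (measurable_subtype_coe.comp hφ))
  · intro x hx i
    obtain ⟨j, hj⟩ := h x (act (gen i) x) hx ⟨i, rfl⟩
    obtain ⟨N, hN⟩ := (φ x).2.2 1 j
    refine ⟨N, fun K hK => ?_⟩
    show (φ (act (gen i) x)).1 1 K ≠ (φ x).1 1 K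
    rw [hj]
    show (φ x).1 ((gen j)⁻¹ * 1) K ≠ _
    rw [gen_inv, mul_one]
    have h2 := hN K hK
    rwa [one_mul] at h2

end Pool.Agent.Helper701.Marks
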