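import Pool.Agent.Helper701_Marks.Defs
import Pool.Agent.R549.BD.L1
import Pool.Agent.R549.BD.L2
import Pool.Agent.R549.BD.L3

/-! # Gluing coverings over the positions of a level -/

set_option autoImplicit false

namespace Pool.Agent.Helper701.Marks.Glue

open Pool.Agent.R549.BD

universe u

variable {T : GTree.{u}} {N : ℕ} {I : Type u}

/-- the label of a position, determined by its part of length `N` -/
def L (N : ℕ) (lab : T.Pos → I) (q : T.Pos) : I := lab (T.res N q)

theorem L_par {lab : T.Pos → I} {q : T.Pos} (h : N < T.len q) : L N lab (T.par q) = L N lab q := by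
  unfold L; rw [T.res_par h]

/-- the positions of the glued tree -/
structure GPos (lab : T.Pos → I) (Sf : I → GTree.{u}) (cf : ∀ i, Cov N (Sf i) T) : Type u where
  i : I
  s : (Sf i).Pos
  hv : i = L N lab ((cf i).pi s)

variable {lab : T.Pos → I} {Sf : I → GTree.{u}} {cf : ∀ i, Cov N (Sf i) T}

/-- the projection -/
def gpi (z : GPos lab Sf cf) : T.Pos := (cf z.i).pi z.s

/-- the length -/
def glen (z : GPos lab Sf cf) : ℕ := (Sf z.i).len z.s

theorem len_gpi (z : GPos lab Sf cf) : T.len (gpi z) = glen z := (cf z.i).len_pi _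

theorem L_gpi (z : GPos lab Sf cf) : L N lab (gpi z) = z.i := z.hv.symm

variable (lab Sf cf)

/-- the position below level `N` over `q` -/
noncomputable def lowz (q : T.Pos) (h : T.len q ≤ N) : GPos lab Sf cf :=
  ⟨L N lab q, Classical.choose ((cf (L N lab q)).bij q h), by
    rw [(Classical.choose_spec ((cf (L N lab q)).bij q h)).1]⟩

theorem gpi_lowz (q : T.Pos) (h : T.len q ≤ N) : gpi (lowz lab Sf cf q h) = q :=
  (Classical.choose_spec ((cf (L N lab q)).bij q h)).1

theorem glen_lowz (q : T.Pos) (h : T.len q ≤ N) : glen (lowz lab Sf cf q h) = T.len q := by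
  rw [← len_gpi, gpi_lowz]

theorem eq_of_gpi {z z' : GPos lab Sf cf} (h : gpi z = gpi z') (hl : glen z ≤ N) : z = z' := by
  obtain ⟨i, s, hz⟩ := z
  obtain ⟨i', s', hz'⟩ := z'
  simp only [gpi, glen] at h hl
  have e : i = i' := by rw [hz, hz', h]
  subst e
  have hl' : T.len ((cf i).pi s) ≤ N := by rw [(cf i).len_pi]; exact hl
  obtain ⟨p, hp, hu⟩ := (cf i).bij ((cf i).pi s) hl'
  have e1 := hu s rfl
  have e2 := hu s' h.symm
  obtain rfl := e1.trans e2.symm
  rfl

theorem lowz_gpi (z : GPos lab Sf cf) (h : T.len (gpi z) ≤ N) : lowz lab Sf cf (gpi z) h = z := by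
  apply eq_of_gpi
  · rw [gpi_lowz]
  · rw [← len_gpi, gpi_lowz]; exact h

/-- the parent -/
noncomputable def gpar (z : GPos lab Sf cf) : GPos lab Sf cf :=
  if h : glen z ≤ N then lowz lab Sf cf (T.par (gpi z)) (by rw [T.len_par, len_gpi]; omega)
  else ⟨z.i, (Sf z.i).par z.s, by
    rw [(cf z.i).par_pi, L_par (by rw [(cf z.i).len_pi]; exact Nat.lt_of_not_le h)]
    exact z.hv⟩

theorem gpar_high {z : GPos lab Sf cf} (h : N < glen z) :
    gpar lab Sf cf z = ⟨z.i, (Sf z.i).par z.s, by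
      rw [(cf z.i).par_pi, L_par (by rw [(cf z.i).len_pi]; exact h)]
      exact z.hv⟩ := by
  unfold gpar
  rw [dif_neg (by omega)]

theorem gpi_gpar (z : GPos lab Sf cf) : gpi (gpar lab Sf cf z) = T.par (gpi z) := by
  unfold gpar
  split_ifs with h
  · rw [gpi_lowz]
  · exact (cf z.i).par_pi _

theorem glen_gpar (z : GPos lab Sf cf) : glen (gpar lab Sf cf z) = glen z - 1 := by
  rw [← len_gpi, gpi_gpar, T.len_par, len_gpi]

variable {lab Sf cf} in
theorem mk_eq {i : I} {s s' : (Sf i).Pos} (h : s = s') {hv : i = L N lab ((cf i).pi s)}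
    {hv' : i = L N lab ((cf i).pi s')} : (⟨i, s, hv⟩ : GPos lab Sf cf) = ⟨i, s', hv'⟩ := by
  subst h; rfl

/-- the glued tree -/
noncomputable abbrev GT : GTree.{u} where
  Pos := GPos lab Sf cf
  len := glen
  par := gpar lab Sf cf
  root := lowz lab Sf cf T.root (by rw [T.len_root]; omega)
  len_root := by rw [← len_gpi, gpi_lowz, T.len_root]
  eq_root := by
    intro z hz
    apply eq_of_gpi
    · rw [gpi_lowz]
      exact T.eq_root _ (by rw [len_gpi]; exact hz)
    · omega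
  len_par := glen_gpar lab Sf cf
  succ := by
    intro z
    by_cases h : glen z < N
    · obtain ⟨q, hq1, hq2⟩ := T.succ (gpi z)
      have hl : T.len q ≤ N := by rw [hq2, len_gpi]; omega
      refine ⟨lowz lab Sf cf q hl, ?_, ?_⟩
      · apply eq_of_gpi
        · rw [gpi_gpar, gpi_lowz, hq1]
        · rw [glen_gpar, ← len_gpi, gpi_lowz]; omega
      · rw [← len_gpi, gpi_lowz, hq2, len_gpi]
    · obtain ⟨s, hs1, hs2⟩ := (Sf z.i).succ z.s
      have hl : N < (Sf z.i).len s := by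
        rw [hs2]; unfold glen at h; omega
      have hv : z.i = L N lab ((cf z.i).pi s) := by
        rw [← L_par (by rw [(cf z.i).len_pi]; exact hl), ← (cf z.i).par_pi, hs1]
        exact z.hv
      refine ⟨⟨z.i, s, hv⟩, ?_, hs2⟩
      rw [gpar_high lab Sf cf (z := ⟨z.i, s, hv⟩) hl]
      exact mk_eq hs1

/-- high positions have high children with the same label -/
theorem high_child {z z' : GPos lab Sf cf} (hz : N ≤ glen z) (hp : gpar lab Sf cf z' = z)
    (hl : glen z' = glen z + 1) :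
    ∃ (s' : (Sf z.i).Pos) (hv : z.i = L N lab ((cf z.i).pi s')), z' = ⟨z.i, s', hv⟩ ∧
      (Sf z.i).par s' = z.s ∧ (Sf z.i).len s' = (Sf z.i).len z.s + 1 := by
  rw [gpar_high lab Sf cf (z := z') (by omega)] at hp
  obtain ⟨i', s', hv'⟩ := z'
  obtain ⟨i, s, hv⟩ := z
  simp only [GPos.mk.injEq] at hp
  obtain ⟨rfl, h2⟩ := hp
  exact ⟨s', hv', rfl, eq_of_heq h2, hl⟩

/-- auxiliary -/
noncomputable def ans (i : I) (s di : (Sf i).Pos) (g : i = L N lab ((cf i).pi s) → GPos lab Sf cf) :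
    (Sf i).Pos := by
  classical
  exact if h1 : ∃ (hv : i = L N lab ((cf i).pi s)) (s' : (Sf i).Pos) (hv' : i = L N lab ((cf i).pi s')),
        g hv = ⟨i, s', hv'⟩ then Classical.choose (Classical.choose_spec h1)
    else di

/-- the answer of a strategy of the glued tree, seen in the tree `Sf i` -/
noncomputable def sg (d : ∀ i, (Sf i).Pos → (Sf i).Pos) (σ : GPos lab Sf cf → GPos lab Sf cf)
    (i : I) (s : (Sf i).Pos) : (Sf i).Pos := by
  classical
  exact
    if h : (Sf i).len s < N then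
      if h' : T.len (gpi (σ (lowz lab Sf cf ((cf i).pi s) (by rw [(cf i).len_pi]; omega)))) ≤ N then
        Classical.choose ((cf i).bij _ h')
      else d i s
    else ans lab Sf cf i s (d i s) (fun hv => σ ⟨i, s, hv⟩)

variable {lab Sf cf}

theorem sg_low {d : ∀ i, (Sf i).Pos → (Sf i).Pos} {σ : GPos lab Sf cf → GPos lab Sf cf}
    (hσ : (GT lab Sf cf).IsStrat σ) {i : I} {s : (Sf i).Pos} (h : (Sf i).len s < N)
    (hh : T.len ((cf i).pi s) ≤ N) :
    (cf i).pi (sg lab Sf cf d σ i s) = gpi (σ (lowz lab Sf cf ((cf i).pi s) hh)) := by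
  unfold sg
  have h2 : glen (σ (lowz lab Sf cf ((cf i).pi s) hh)) = (Sf i).len s + 1 := by
    have := (hσ (lowz lab Sf cf ((cf i).pi s) hh)).2
    change glen _ = glen _ + 1 at this
    rw [this, glen_lowz, (cf i).len_pi]
  have h' : T.len (gpi (σ (lowz lab Sf cf ((cf i).pi s) hh))) ≤ N := by
    rw [len_gpi, h2]; omega
  rw [dif_pos h, dif_pos h']
  exact (Classical.choose_spec ((cf i).bij _ h')).1

theorem sg_high {d : ∀ i, (Sf i).Pos → (Sf i).Pos} {σ : GPos lab Sf cf → GPos lab Sf cf}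
    (hσ : (GT lab Sf cf).IsStrat σ) {i : I} {s : (Sf i).Pos} (h : N ≤ (Sf i).len s)
    (hv : i = L N lab ((cf i).pi s)) :
    ∃ hv', σ ⟨i, s, hv⟩ = ⟨i, sg lab Sf cf d σ i s, hv'⟩ := by
  unfold sg
  have h1 : ∃ (hv : i = L N lab ((cf i).pi s)) (s' : (Sf i).Pos) (hv' : i = L N lab ((cf i).pi s')),
      σ ⟨i, s, hv⟩ = ⟨i, s', hv'⟩ := by
    obtain ⟨e1, e2⟩ := hσ ⟨i, s, hv⟩
    obtain ⟨s', hv', e3, _⟩ := high_child lab Sf cf (z := ⟨i, s, hv⟩) h e1 e2
    exact ⟨hv, s', hv', e3⟩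
  rw [dif_neg (by omega)]
  unfold ans
  rw [dif_pos h1]
  exact Classical.choose_spec (Classical.choose_spec h1)

theorem sg_strat {d : ∀ i, (Sf i).Pos → (Sf i).Pos} (hd : ∀ i, (Sf i).IsStrat (d i))
    {σ : GPos lab Sf cf → GPos lab Sf cf}
    (hσ : (GT lab Sf cf).IsStrat σ) (i : I) : (Sf i).IsStrat (sg lab Sf cf d σ i) := by
  intro s
  by_cases h : (Sf i).len s < N
  · have hh : T.len ((cf i).pi s) ≤ N := by rw [(cf i).len_pi]; omega
    have e := sg_low (d := d) hσ h hh
    have e1 := (hσ (lowz lab Sf cf ((cf i).pi s) hh)).1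
    have e2 := (hσ (lowz lab Sf cf ((cf i).pi s) hh)).2
    change gpar lab Sf cf _ = _ at e1
    change glen _ = glen _ + 1 at e2
    have e3 : (cf i).pi ((Sf i).par (sg lab Sf cf d σ i s)) = (cf i).pi s := by
      rw [(cf i).par_pi, e, ← gpi_gpar, e1, gpi_lowz]
    have e4 : (Sf i).len (sg lab Sf cf d σ i s) = (Sf i).len s + 1 := by
      rw [← (cf i).len_pi, e, len_gpi, e2, glen_lowz, (cf i).len_pi]
    refine ⟨?_, e4⟩
    obtain ⟨p, hp, hu⟩ := (cf i).bij ((cf i).pi s) hh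
    rw [hu _ e3, hu s rfl]
  · by_cases hv : i = L N lab ((cf i).pi s)
    · obtain ⟨hv', e⟩ := sg_high (d := d) hσ (by omega) hv
      obtain ⟨e1, e2⟩ := hσ ⟨i, s, hv⟩
      rw [e] at e1 e2
      change gpar lab Sf cf _ = _ at e1
      change glen _ = glen _ + 1 at e2
      obtain ⟨s', hv'', e3, e4, e5⟩ := high_child lab Sf cf (z := ⟨i, s, hv⟩) (by unfold glen; simp only; omega) e1 e2
      simp only [GPos.mk.injEq, heq_eq_eq, true_and] at e3
      rw [e3]
      exact ⟨e4, e5⟩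
    · unfold sg ans
      rw [dif_neg h, dif_neg]
      · exact hd i s
      · rintro ⟨hv', _⟩
        exact hv hv'

theorem sg_congr {d : ∀ i, (Sf i).Pos → (Sf i).Pos} {σ σ' : GPos lab Sf cf → GPos lab Sf cf} {i : I} {s : (Sf i).Pos}
    (h : ∀ z : GPos lab Sf cf, glen z ≤ (Sf i).len s → σ z = σ' z) :
    sg lab Sf cf d σ i s = sg lab Sf cf d σ' i s := by
  unfold sg
  by_cases h1 : (Sf i).len s < N
  · have e : σ (lowz lab Sf cf ((cf i).pi s) (by rw [(cf i).len_pi]; omega)) =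
        σ' (lowz lab Sf cf ((cf i).pi s) (by rw [(cf i).len_pi]; omega)) :=
      h _ (by rw [glen_lowz, (cf i).len_pi])
    simp only [dif_pos h1, e]
  · have e : (fun hv : i = L N lab ((cf i).pi s) => σ ⟨i, s, hv⟩) = fun hv => σ' ⟨i, s, hv⟩ :=
      funext fun hv => h _ le_rfl
    rw [dif_neg h1, dif_neg h1, e]

theorem L_play {x : ℕ → T.Pos} (hx : T.IsPlay x) {n : ℕ} (hn : N ≤ n) : L N lab (x n) = L N lab (x N) := by
  unfold L
  rw [T.play_res hx hn, T.play_res hx le_rfl]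

theorem glue_lift {d : ∀ i, (Sf i).Pos → (Sf i).Pos} (hd : ∀ i, (Sf i).IsStrat (d i)) {j : ℕ} (hj : j < 2)
    {σ : GPos lab Sf cf → GPos lab Sf cf} (hσ : (GT lab Sf cf).IsStrat σ) {x : ℕ → T.Pos} (hx : T.IsPlay x)
    (hlow : ∀ n (hn : n < N), n % 2 = j → x (n + 1) = gpi (σ (lowz lab Sf cf (x n) (by rw [hx.1]; omega))))
    (hhigh : ∀ n, N ≤ n → n % 2 = j →
      x (n + 1) = (cf (L N lab (x N))).phi j (sg lab Sf cf d σ (L N lab (x N))) (x n)) :
    ∃ y : ℕ → GPos lab Sf cf, (GT lab Sf cf).IsPlay y ∧ (GT lab Sf cf).Cons j σ y ∧ ∀ n, gpi (y n) = x n := by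
  classical
  set i := L N lab (x N) with hi
  have hc : T.Cons j ((cf i).phi j (sg lab Sf cf d σ i)) x := by
    intro n hn
    rcases Nat.lt_or_ge n N with h | h
    · have hl : T.len (x n) ≤ N := by rw [hx.1]; omega
      obtain ⟨s, hs, _⟩ := (cf i).bij (x n) hl
      have hs' : (Sf i).len s < N := by rw [← (cf i).len_pi, hs, hx.1]; exact h
      have e1 := (cf i).phi_low j hj _ (sg_strat hd hσ i) s hs'
      have e2 := sg_low (d := d) hσ hs' (by rw [hs]; exact hl)
      rw [hs] at e1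
      rw [e1, e2, hlow n h hn]
      simp only [hs]
    · exact hhigh n h hn
  obtain ⟨y, hy, hyc, hyx⟩ := (cf i).lift j hj _ (sg_strat hd hσ i) x hx hc
  have hLn : ∀ n, N ≤ n → L N lab (x n) = i := fun n hn => L_play hx hn
  have hv : ∀ n, ¬ n ≤ N → i = L N lab ((cf i).pi (y n)) := fun n hn => by
    rw [hyx, hLn n (by omega)]
  let Y : ℕ → GPos lab Sf cf := fun n =>
    if h : n ≤ N then lowz lab Sf cf (x n) (by rw [hx.1]; exact h) else ⟨i, y n, hv n h⟩
  have hYpi : ∀ n, gpi (Y n) = x n := by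
    intro n
    by_cases h : n ≤ N
    · simp only [Y, dif_pos h, gpi_lowz]
    · simp only [Y, dif_neg h]; exact hyx n
  have hYlen : ∀ n, glen (Y n) = n := fun n => by rw [← len_gpi, hYpi, hx.1]
  have hYhigh : ∀ n, N ≤ n → ∃ hv', Y n = ⟨i, y n, hv'⟩ := by
    intro n hn
    have h1 : i = L N lab ((cf i).pi (y n)) := by rw [hyx, hLn n hn]
    refine ⟨h1, ?_⟩
    by_cases h : n ≤ N
    · apply eq_of_gpi
      · rw [hYpi]; exact (hyx n).symm
      · rw [hYlen]; exact h
    · simp only [Y, dif_neg h]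
  refine ⟨Y, ⟨hYlen, ?_⟩, ?_, hYpi⟩
  · intro n
    change gpar lab Sf cf (Y (n + 1)) = Y n
    rcases Nat.lt_or_ge n N with h | h
    · apply eq_of_gpi
      · rw [gpi_gpar, hYpi, hYpi, hx.2]
      · rw [glen_gpar, hYlen]; omega
    · obtain ⟨h1, e1⟩ := hYhigh n h
      obtain ⟨h2, e2⟩ := hYhigh (n + 1) (by omega)
      have h3 := hYlen (n + 1)
      rw [e2] at h3
      rw [e2, gpar_high lab Sf cf (z := ⟨i, y (n + 1), h2⟩) (by rw [h3]; omega), e1]
      exact mk_eq (hy.2 n)
  · intro n hn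
    rcases Nat.lt_or_ge n N with h | h
    · have e1 : Y n = lowz lab Sf cf (x n) (by rw [hx.1]; omega) := by
        simp only [Y, dif_pos h.le]
      apply eq_of_gpi
      · rw [hYpi, e1, hlow n h hn]
      · rw [hYlen]; omega
    · obtain ⟨h1, e1⟩ := hYhigh n h
      obtain ⟨h2, e2⟩ := hYhigh (n + 1) (by omega)
      obtain ⟨h3, e3⟩ := sg_high (d := d) hσ (i := i) (s := y n) (by rw [hy.1]; exact h) h1
      rw [e1, e2, e3]
      exact mk_eq (hyc n hn)

/-- the glued covering -/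
noncomputable def GC (d : ∀ i, (Sf i).Pos → (Sf i).Pos) (hd : ∀ i, (Sf i).IsStrat (d i)) :
    Cov N (GT lab Sf cf) T where
  pi := gpi
  len_pi := len_gpi
  par_pi := gpi_gpar lab Sf cf
  bij q hq := ⟨lowz lab Sf cf q hq, gpi_lowz lab Sf cf q hq, fun z hz => by
    apply eq_of_gpi
    · rw [gpi_lowz]; exact hz
    · change gpi z = q at hz
      rw [← len_gpi, hz]; exact hq⟩
  phi j σ q := by
    classical
    exact if h : T.len q < N then gpi (σ (lowz lab Sf cf q (by omega)))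
      else (cf (L N lab q)).phi j (sg lab Sf cf d σ (L N lab q)) q
  phi_strat j hj σ hσ q := by
    by_cases h : T.len q < N
    · simp only [dif_pos h]
      obtain ⟨e1, e2⟩ := hσ (lowz lab Sf cf q (by omega))
      change gpar lab Sf cf _ = _ at e1
      change glen _ = glen _ + 1 at e2
      refine ⟨by rw [← gpi_gpar, e1, gpi_lowz], by rw [len_gpi, e2, glen_lowz]⟩
    · simp only [dif_neg h]
      exact (cf _).phi_strat j hj _ (sg_strat hd hσ _) q
  phi_local j hj σ σ' hσ hσ' n h q hq := by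
    by_cases h1 : T.len q < N
    · simp only [dif_pos h1]
      rw [h]
      change glen _ ≤ n
      rw [glen_lowz]; exact hq
    · simp only [dif_neg h1]
      apply (cf _).phi_local j hj _ _ (sg_strat hd hσ _) (sg_strat hd hσ' _) n _ q hq
      intro p hp
      exact sg_congr fun z hz => h z (le_trans hz hp)
  phi_low j hj σ hσ z hz := by
    change glen z < N at hz
    have h1 : T.len (gpi z) < N := by rw [len_gpi]; exact hz
    simp only [dif_pos h1]
    rw [lowz_gpi]
  lift j hj σ hσ x hx hxc := by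
    refine glue_lift hd hj hσ hx ?_ ?_
    · intro n hn hnj
      have h1 : T.len (x n) < N := by rw [hx.1]; exact hn
      rw [hxc n hnj]
      simp only [dif_pos h1]
    · intro n hn hnj
      have h1 : ¬ T.len (x n) < N := by rw [hx.1]; omega
      rw [hxc n hnj]
      simp only [dif_neg h1]
      rw [L_play hx hn]

/-- a play of the glued tree gives a play of the tree `Sf i` -/
theorem proj_play {y : ℕ → GPos lab Sf cf} (hy : (GT lab Sf cf).IsPlay y) {i : I} (hi : (y N).i = i) :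
    ∃ ys : ℕ → (Sf i).Pos, (Sf i).IsPlay ys ∧ (∀ k, (cf i).pi (ys k) = gpi (y k)) ∧
      ∀ k, N ≤ k → ∃ hv, y k = ⟨i, ys k, hv⟩ := by
  have hx : T.IsPlay (fun k => gpi (y k)) := by
    refine ⟨fun k => ?_, fun k => ?_⟩
    · rw [len_gpi]; exact hy.1 k
    · show T.par (gpi (y (k + 1))) = gpi (y k)
      rw [← gpi_gpar]
      exact congrArg gpi (hy.2 k)
  have hL : ∀ k, N ≤ k → (y k).i = i := by
    intro k hk
    rw [← hi, ← L_gpi (y k), ← L_gpi (y N)]
    exact L_play (lab := lab) hx hk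
  have hex : ∀ k, ∃ s : (Sf i).Pos, (cf i).pi s = gpi (y k) ∧ (N ≤ k → ∃ hv, y k = ⟨i, s, hv⟩) := by
    intro k
    rcases Nat.lt_or_ge k N with h | h
    · obtain ⟨s, hs, _⟩ := (cf i).bij (gpi (y k)) (by rw [len_gpi]; exact (le_of_eq (hy.1 k)).trans h.le)
      exact ⟨s, hs, fun h' => absurd h' (by omega)⟩
    · have h1 := hL k h
      have key : ∀ z : GPos lab Sf cf, z.i = i →
          ∃ s : (Sf i).Pos, (cf i).pi s = gpi z ∧ (N ≤ k → ∃ hv, z = ⟨i, s, hv⟩) := by
        rintro ⟨i', s, hv⟩ rfl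
        exact ⟨s, rfl, fun _ => ⟨hv, rfl⟩⟩
      exact key (y k) h1
  choose ys h1 h2 using hex
  refine ⟨ys, ⟨fun k => ?_, fun k => ?_⟩, h1, h2⟩
  · rw [← (cf i).len_pi, h1, len_gpi]; exact hy.1 k
  · rcases Nat.lt_or_ge k N with h | h
    · have e : (cf i).pi ((Sf i).par (ys (k + 1))) = (cf i).pi (ys k) := by
        rw [(cf i).par_pi, h1, h1]; exact hx.2 k
      have hl : T.len ((cf i).pi (ys k)) ≤ N := by
        rw [h1, len_gpi]; exact (le_of_eq (hy.1 k)).trans h.le
      obtain ⟨p, hp, hu⟩ := (cf i).bij _ hl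
      rw [hu _ e, hu (ys k) rfl]
    · obtain ⟨hv, e1⟩ := h2 k h
      obtain ⟨hv', e2⟩ := h2 (k + 1) (by omega)
      have e3 := hy.2 k
      change gpar lab Sf cf (y (k + 1)) = y k at e3
      have e4 : glen (y (k + 1)) = k + 1 := hy.1 (k + 1)
      rw [e2] at e4
      rw [e2, gpar_high lab Sf cf (z := ⟨i, ys (k + 1), hv'⟩) (by rw [e4]; omega), e1] at e3
      simp only [GPos.mk.injEq, heq_eq_eq, true_and] at e3
      exact e3

end Pool.Agent.Helper701.Marks.Glue
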