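import Pool.Agent.Helper701_Marks.Defs

/-! # Basic facts about the group -/

set_option autoImplicit false

namespace Pool.Agent.Helper701.Marks

open Monoid Monoid.CoprodI

/-- the nontrivial element -/
abbrev aa : Multiplicative (ZMod 2) := Multiplicative.ofAdd (1 : ZMod 2)

theorem aa_ne : aa ≠ 1 := by decide

theorem eq_aa : ∀ m : Multiplicative (ZMod 2), m ≠ 1 → m = aa := by decide

theorem gen_mul_gen (i : Fin 3) : gen i * gen i = 1 := by
  unfold gen
  rw [← map_mul, ← ofAdd_add, show (1 : ZMod 2) + 1 = 0 by decide, ofAdd_zero, map_one]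

theorem gen_inv (i : Fin 3) : (gen i)⁻¹ = gen i :=
  inv_eq_of_mul_eq_one_right (gen_mul_gen i)

theorem gen_mul_cancel (i : Fin 3) (g : Gam) : gen i * (gen i * g) = g := by
  rw [← mul_assoc, gen_mul_gen, one_mul]

theorem wd_one : wd 1 = Word.empty := by
  unfold wd
  show (1 : Gam) • (Word.empty : Word (fun _ : Fin 3 => Multiplicative (ZMod 2))) = _
  rw [one_smul]

theorem wd_mul (g h : Gam) : wd (g * h) = g • wd h := by
  unfold wd
  show (g * h) • (Word.empty : Word (fun _ : Fin 3 => Multiplicative (ZMod 2))) = g • (h • Word.empty)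
  rw [mul_smul]

theorem prod_wd (g : Gam) : (wd g).prod = g := Word.equiv.symm_apply_apply g

theorem wd_inj {g h : Gam} (e : wd g = wd h) : g = h := Word.equiv.injective e

theorem one_notMem (i : Fin 3) : (1 : Gam) ∉ R i := by
  unfold R
  rw [Set.mem_ofPred_eq, wd_one]
  simp [Word.fstIdx, Word.empty]

theorem wd_gen_mul (i : Fin 3) (g : Gam) (h : (wd g).fstIdx ≠ some i) :
    wd (gen i * g) = Word.cons (M := fun _ : Fin 3 => Multiplicative (ZMod 2)) (i := i) aa (wd g) h aa_ne := by
  rw [wd_mul, Word.cons_eq_smul]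
  rfl

theorem gen_mul_mem {i : Fin 3} {g : Gam} (h : g ∉ R i) : gen i * g ∈ R i := by
  have h' : (wd g).fstIdx ≠ some i := h
  unfold R
  rw [Set.mem_ofPred_eq, wd_gen_mul i g h', Word.fstIdx_cons]

theorem len_gen_mul (i : Fin 3) (g : Gam) (h : g ∉ R i) : len (gen i * g) = len g + 1 := by
  have h' : (wd g).fstIdx ≠ some i := h
  unfold len
  rw [wd_gen_mul i g h']
  rfl

theorem exists_of_mem {i : Fin 3} {g : Gam} (h : g ∈ R i) : ∃ g', g' ∉ R i ∧ g = gen i * g' := by
  have key : ∀ w : Word (fun _ : Fin 3 => Multiplicative (ZMod 2)), w.fstIdx = some i →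
      ∃ g', g' ∉ R i ∧ w.prod = gen i * g' := by
    intro w
    induction w using Word.consRecOn with
    | empty => intro h; simp [Word.fstIdx, Word.empty] at h
    | cons j m w h1 h2 _ =>
      intro h
      rw [Word.fstIdx_cons] at h
      obtain rfl := Option.some.inj h
      refine ⟨w.prod, ?_, ?_⟩
      · unfold R
        rw [Set.mem_ofPred_eq]
        have : wd w.prod = w := Word.equiv.apply_symm_apply w
        rw [this]
        exact h1
      · rw [Word.prod_cons, eq_aa m h2]
        rfl
  obtain ⟨g', h1, h2⟩ := key (wd g) h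
  exact ⟨g', h1, by rw [← h2, prod_wd]⟩

theorem mem_R_iff (i : Fin 3) (g : Gam) : gen i * g ∈ R i ↔ g ∉ R i := by
  constructor
  · intro h hg
    obtain ⟨g', h1, h2⟩ := exists_of_mem hg
    rw [h2, gen_mul_cancel] at h
    exact h1 h
  · exact gen_mul_mem

theorem R_disj {i j : Fin 3} {g : Gam} (h : i ≠ j) (h1 : g ∈ R i) : g ∉ R j := by
  intro h2
  have e : some i = some j := h1.symm.trans h2
  exact h (Option.some.inj e)

theorem cover (g : Gam) : g = 1 ∨ ∃ i, g ∈ R i := by
  rcases h : (wd g).fstIdx with _ | i
  · left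
    apply wd_inj
    rw [wd_one]
    ext1
    simp only [Word.fstIdx, Option.map_eq_none_iff, List.head?_eq_none_iff] at h
    rw [h]
    rfl
  · right
    exact ⟨i, h⟩

theorem len_one : len 1 = 0 := by
  unfold len
  rw [wd_one]
  rfl

theorem len_of_mem (i : Fin 3) (g : Gam) (h : g ∈ R i) : len g = len (gen i * g) + 1 := by
  have h1 : gen i * g ∉ R i := fun h' => (mem_R_iff i g).1 h' h
  have h2 := len_gen_mul i (gen i * g) h1
  rwa [gen_mul_cancel] at h2

/-- induction on reduced words -/
theorem gam_induction {p : Gam → Prop} (h1 : p 1)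
    (h2 : ∀ i g, g ∉ R i → p g → p (gen i * g)) (g : Gam) : p g := by
  have key : ∀ n g, len g = n → p g := by
    intro n
    induction n with
    | zero =>
      intro g hg
      rcases cover g with rfl | ⟨i, hi⟩
      · exact h1
      · have := len_of_mem i g hi
        omega
    | succ n ih =>
      intro g hg
      rcases cover g with rfl | ⟨i, hi⟩
      · exact h1
      · have h3 := len_of_mem i g hi
        have h4 : gen i * g ∉ R i := fun h' => (mem_R_iff i g).1 h' hi
        have h5 := h2 i (gen i * g) h4 (ih _ (by omega))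
        rwa [gen_mul_cancel] at h5
  exact key _ g rfl

/-- the parity homomorphism -/
noncomputable def parH : Gam →* Multiplicative (ZMod 2) := lift (fun _ => MonoidHom.id _)

theorem parH_gen (i : Fin 3) : parH (gen i) = aa := by
  unfold parH gen
  rw [lift_of]
  rfl

theorem parH_eq (g : Gam) : parH g = Multiplicative.ofAdd ((len g : ℕ) : ZMod 2) := by
  induction g using gam_induction with
  | h1 => rw [map_one, len_one]; rfl
  | h2 i g hg ih =>
    rw [map_mul, parH_gen, ih, len_gen_mul i g hg]
    push_cast
    rw [← ofAdd_add, add_comm]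

theorem par_eq (g : Gam) : par g = decide (parH g = aa) := by
  unfold par
  rw [parH_eq]
  have h : (len g % 2 = 1) ↔ (Multiplicative.ofAdd ((len g : ℕ) : ZMod 2) = aa) := by
    rw [show aa = Multiplicative.ofAdd (((1 : ℕ)) : ZMod 2) by simp, Multiplicative.ofAdd.apply_eq_iff_eq,
      ZMod.natCast_eq_natCast_iff]
    rfl
  exact decide_eq_decide.2 h

theorem parH_cases (m : Multiplicative (ZMod 2)) : decide (m * aa = aa) = !(decide (m = aa)) := by
  revert m; decide

theorem par_one : par 1 = false := by
  unfold par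
  rw [len_one]
  rfl

theorem par_mul_gen (i : Fin 3) (g : Gam) : par (g * gen i) = !(par g) := by
  rw [par_eq, par_eq, map_mul, parH_gen, parH_cases]

theorem par_gen_mul (i : Fin 3) (g : Gam) : par (gen i * g) = !(par g) := by
  rw [par_eq, par_eq, map_mul, parH_gen, mul_comm, parH_cases]

instance gam_countable : Countable Gam := by
  have h : Function.Injective (fun g : Gam => (wd g).toList) := by
    intro g h e
    exact wd_inj (Word.ext e)
  exact h.countable

theorem exists_notMem (g : Gam) : ∃ i, g ∉ R i := by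
  by_cases h : g ∈ R 0
  · exact ⟨1, R_disj (by decide) h⟩
  · exact ⟨0, h⟩

theorem len_surj : Function.Surjective len := by
  intro n
  induction n with
  | zero => exact ⟨1, len_one⟩
  | succ n ih =>
    obtain ⟨g, hg⟩ := ih
    obtain ⟨i, hi⟩ := exists_notMem g
    exact ⟨gen i * g, by rw [len_gen_mul i g hi, hg]⟩

instance gam_infinite : Infinite Gam := Infinite.of_surjective len len_surj

end Pool.Agent.Helper701.Marks
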