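import Pool.Agent.Helper701_Marks.Grp

/-! # The payoffs are quasi-Borel -/

set_option autoImplicit false

namespace Pool.Agent.Helper701.Marks

namespace PayQB

theorem qb_empty {M : Type} : QB (∅ : Set (ℕ → M)) := by
  have h := QB.basic (M := M) 0 ∅
  have e : ({x | x 0 ∈ (∅ : Set M)} : Set (ℕ → M)) = ∅ := by
    ext x; simp
  rwa [e] at h

/-- The sigma-algebra of quasi-Borel sets. -/
@[reducible] def ms (M : Type) : MeasurableSpace (ℕ → M) where
  MeasurableSet' A := QB A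
  measurableSet_empty := qb_empty
  measurableSet_compl A h := QB.compl A h
  measurableSet_iUnion f h := QB.iUnion f h

theorem ms_iff {M : Type} (A : Set (ℕ → M)) : @MeasurableSet _ (ms M) A ↔ QB A := Iff.rfl

theorem meas_y : @Measurable _ _ (ms St) _ (fun x : ℕ → St => (lim x).y) := by
  let _ := ms St
  refine measurable_pi_iff.2 fun g => measurable_pi_iff.2 fun k => ?_
  apply measurable_to_bool
  have h : (fun x : ℕ → St => (lim x).y g k) ⁻¹' {true} =
      ⋃ n, {x | x n ∈ {s : St | g ∈ s.F ∧ k < s.m ∧ s.z g k = true}} := by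
    ext x
    simp [lim]
  rw [h]
  exact MeasurableSet.iUnion fun n => (ms_iff _).2 (QB.basic n _)

theorem meas_S : @Measurable _ _ (ms St) _ (fun x : ℕ → St => (lim x).S) := by
  let _ := ms St
  refine measurable_pi_iff.2 fun k => ?_
  apply measurable_to_bool
  have h : (fun x : ℕ → St => (lim x).S k) ⁻¹' {true} =
      ⋃ n, {x | x n ∈ {s : St | k < s.m ∧ s.S k = true}} := by
    ext x
    simp [lim]
  rw [h]
  exact MeasurableSet.iUnion fun n => (ms_iff _).2 (QB.basic n _)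

theorem meas_F (g : Gam) : @MeasurableSet _ (ms St) {x : ℕ → St | g ∈ (lim x).F} := by
  let _ := ms St
  have h : {x : ℕ → St | g ∈ (lim x).F} = ⋃ n, {x | x n ∈ {s : St | g ∈ s.F}} := by
    ext x
    simp [lim]
  rw [h]
  exact MeasurableSet.iUnion fun n => (ms_iff _).2 (QB.basic n _)

/-- local sets -/
theorem meas_loc (f : (Gam → ℕ → Bool) → ℕ → Bool) (hf : Measurable f)
    (E : (ℕ → Bool) → Set (Gam → ℕ → Bool)) (hE : ∀ r, MeasurableSet (E r)) :
    @MeasurableSet _ (ms St) {x : ℕ → St | f (lim x).y ∈ (lim x).Q ∧ (lim x).y ∈ E (f (lim x).y)} := by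
  let _ := ms St
  have h : {x : ℕ → St | f (lim x).y ∈ (lim x).Q ∧ (lim x).y ∈ E (f (lim x).y)} =
      ⋃ n, {x : ℕ → St | f (lim x).y ∈ (x n).D ∧ (lim x).y ∈ E (f (lim x).y)} := by
    ext x
    simp only [lim, Set.mem_ofPred_eq, Set.mem_iUnion]
    constructor
    · rintro ⟨⟨n, h1⟩, h2⟩; exact ⟨n, h1, h2⟩
    · rintro ⟨n, h1, h2⟩; exact ⟨⟨n, h1⟩, h2⟩
  rw [h]
  refine MeasurableSet.iUnion fun n => (ms_iff _).2 (QB.loc n _ fun a => (ms_iff _).1 ?_)
  have h2 : {x : ℕ → St | f (lim x).y ∈ (x n).D ∧ (lim x).y ∈ E (f (lim x).y)} ∩ {x | x n = a} =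
      (⋃ r ∈ a.D, {x : ℕ → St | f (lim x).y = r ∧ (lim x).y ∈ E r}) ∩ {x | x n ∈ ({a} : Set St)} := by
    ext x
    simp only [Set.mem_inter_iff, Set.mem_ofPred_eq, Set.mem_iUnion, Set.mem_singleton_iff, exists_prop]
    constructor
    · rintro ⟨⟨h1, h2⟩, h3⟩
      rw [h3] at h1
      exact ⟨⟨_, h1, rfl, h2⟩, h3⟩
    · rintro ⟨⟨r, h1, h2, h4⟩, h3⟩
      rw [h3, h2]
      exact ⟨⟨h1, h4⟩, rfl⟩
  rw [h2]
  apply MeasurableSet.inter
  · apply MeasurableSet.biUnion a.cnt
    intro r _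
    have h3 : {x : ℕ → St | f (lim x).y = r ∧ (lim x).y ∈ E r} =
        (fun x : ℕ → St => (lim x).y) ⁻¹' (f ⁻¹' {r} ∩ E r) := by
      ext x; rfl
    rw [h3]
    exact meas_y ((hf (measurableSet_singleton r)).inter (hE r))
  · exact (ms_iff _).2 (QB.basic n _)

end PayQB

open PayQB in
theorem qb_pay (d : Dat) (i : Fin 3) (B : Set ((Gam → ℕ → Bool) × (ℕ → Bool))) (hB : MeasurableSet B) :
    QB {x : ℕ → St | lim x ∈ Pay d i B} := by
  rw [← ms_iff]
  let _ := ms St
  have h1 : MeasurableSet {x : ℕ → St | ∃ v, v ∉ (lim x).F ∧ v ∉ R i ∧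
      ∀ w, w ∉ (lim x).F → w ∈ R i → len v < len w} := by
    have e : {x : ℕ → St | ∃ v, v ∉ (lim x).F ∧ v ∉ R i ∧
        ∀ w, w ∉ (lim x).F → w ∈ R i → len v < len w} =
        ⋃ v, ({x : ℕ → St | v ∈ (lim x).F}ᶜ ∩ ({x : ℕ → St | v ∉ R i} ∩
          ⋂ w, ({x : ℕ → St | w ∈ (lim x).F} ∪ {x : ℕ → St | w ∈ R i → len v < len w}))) := by
      ext x
      simp only [Set.mem_ofPred_eq, Set.mem_iUnion, Set.mem_inter_iff, Set.mem_compl_iff, Set.mem_iInter,
        Set.mem_union]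
      constructor
      · rintro ⟨v, a, b, c⟩
        refine ⟨v, a, b, fun w => ?_⟩
        by_cases hw : w ∈ (lim x).F
        · exact Or.inl hw
        · exact Or.inr (c w hw)
      · rintro ⟨v, a, b, c⟩
        refine ⟨v, a, b, fun w hw => ?_⟩
        exact (c w).resolve_left hw
    rw [e]
    refine MeasurableSet.iUnion fun v => (meas_F v).compl.inter ((MeasurableSet.const _).inter
      (MeasurableSet.iInter fun w => (meas_F w).union (MeasurableSet.const _)))
  have h2 : MeasurableSet {x : ℕ → St | (lim x).F = Set.univ} := by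
    have e : {x : ℕ → St | (lim x).F = Set.univ} = ⋂ g, {x : ℕ → St | g ∈ (lim x).F} := by
      ext x
      simp only [Set.mem_ofPred_eq, Set.mem_iInter, Set.eq_univ_iff_forall]
    rw [e]
    exact MeasurableSet.iInter meas_F
  have h3 : MeasurableSet {x : ℕ → St | d.f (lim x).y ∈ (lim x).Q ∧ d.c (d.f (lim x).y) (lim x).y ≠ i} :=
    meas_loc d.f d.hf (fun r => {y | d.c r y ≠ i}) fun r =>
      ((d.hc r) (measurableSet_singleton i)).compl
  have h4 : MeasurableSet {x : ℕ → St | d.f (lim x).y ∈ (lim x).Q} := by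
    have := meas_loc d.f d.hf (fun _ => Set.univ) fun r => MeasurableSet.univ
    simpa only [Set.mem_univ, and_true] using this
  have h5 : MeasurableSet {x : ℕ → St | ((lim x).y, (lim x).S) ∈ B} :=
    (meas_y.prodMk meas_S) hB
  exact h1.union (h2.inter (h3.union (h4.compl.inter h5)))

end Pool.Agent.Helper701.Marks
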