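import Pool.Agent.Helper701_Marks.States

/-! # Combining strategies -/

set_option autoImplicit false

namespace Pool.Agent.Helper701.Marks

theorem hist_congr {M : Type} {x y : ℕ → M} (n : ℕ) (h : ∀ k, 1 ≤ k → k ≤ n → x k = y k) :
    hist x n = hist y n := by
  induction n with
  | zero => rfl
  | succ n ih =>
    show x (n + 1) :: hist x n = y (n + 1) :: hist y n
    rw [h (n + 1) (by omega) le_rfl, ih fun k h1 h2 => h k h1 (by omega)]

theorem hist_map {M : Type} (φ : M → M) (x : ℕ → M) (n : ℕ) :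
    hist (fun k => φ (x k)) n = (hist x n).map φ := by
  induction n with
  | zero => rfl
  | succ n ih =>
    show φ (x (n + 1)) :: hist (fun k => φ (x k)) n = (x (n + 1) :: hist x n).map φ
    rw [ih, List.map_cons]

theorem W2_chain {A C : Set Gam} {x : ℕ → St} {σ : List St → St} (h1 : ∀ a l, Ext A a (σ (a :: l)))
    (h2 : ∀ n, Ext C (x (2 * n)) (x (2 * n + 1))) (h3 : ∀ n, x (2 * n + 2) = σ (hist x (2 * n + 1))) :
    Chain x := by
  intro n
  rcases Nat.mod_two_eq_zero_or_one n with h | h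
  · obtain ⟨k, rfl⟩ : ∃ k, n = 2 * k := ⟨n / 2, by omega⟩
    exact (h2 k).mono (Set.subset_univ _)
  · obtain ⟨k, rfl⟩ : ∃ k, n = 2 * k + 1 := ⟨n / 2, by omega⟩
    rw [h3 k]
    exact (h1 (x (2 * k + 1)) (hist x (2 * k))).mono (Set.subset_univ _)

theorem W2_mono {A C : Set Gam} {s : St} {P P' : Set (ℕ → St)} (h : W2 (Ext A) (Ext C) s P)
    (h' : ∀ x, Chain x → x 0 = s → x ∈ P → x ∈ P') : W2 (Ext A) (Ext C) s P' := by
  obtain ⟨σ, h1, h2⟩ := h
  exact ⟨σ, h1, fun x g1 g2 g3 => h' x (W2_chain h1 g2 g3) g1 (h2 x g1 g2 g3)⟩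

theorem Win2.mono {A C : Set Gam} {s : St} {P P' : Set Lim} (h : Win2 A C s P) (h' : P ⊆ P') : Win2 A C s P' :=
  W2_mono h fun _ _ _ hx => h' hx

/-- persistence -/
theorem Win2.pers {A C : Set Gam} {s t : St} {P : Set Lim} (h : Win2 A C s P) (e : Ext C s t) : Win2 A C t P := by
  obtain ⟨σ, h1, h2⟩ := h
  refine ⟨σ, h1, fun x g1 g2 g3 => ?_⟩
  have hc := W2_chain h1 g2 g3
  have hc' : Chain (fun n => x (n + 1)) := fun n => hc (n + 1)
  have e0 : Ext C s (x 1) := e.trans' (by rw [← g1]; exact g2 0)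
  have hx : ∀ n, pre s (fun n => x (n + 1)) (n + 1) = x (n + 1) := fun n => rfl
  have hh : ∀ n, hist (pre s (fun n => x (n + 1))) n = hist x n := by
    intro n
    apply hist_congr
    intro k hk _
    obtain ⟨k, rfl⟩ : ∃ j, k = j + 1 := ⟨k - 1, by omega⟩
    rfl
  have h3 := h2 (pre s (fun n => x (n + 1))) rfl (by
    intro n
    cases n with
    | zero => exact e0
    | succ n => exact g2 (n + 1)) (by
    intro n
    rw [hh]
    exact g3 n)
  show lim x ∈ P
  have h4 : lim (pre s (fun n => x (n + 1))) ∈ P := h3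
  rw [lim_pre hc' (e0.mono (Set.subset_univ _))] at h4
  have h5 : lim (fun n => x (n + 1)) = lim x :=
    lim_subseq hc (φ := fun n => n + 1) (fun _ _ h => Nat.succ_lt_succ h)
  rwa [h5] at h4

theorem W2_aut {M : Type} {E C E' C' : M → M → Prop} {s : M} {P : Set (ℕ → M)} (φ : M → M)
    (hφ : ∀ a, φ (φ a) = a) (hE : ∀ a b, E a b → E' (φ a) (φ b)) (hC : ∀ a b, C' a b → C (φ a) (φ b))
    (h : W2 E C s P) : W2 E' C' (φ s) {x | (fun n => φ (x n)) ∈ P} := by
  obtain ⟨σ, h1, h2⟩ := h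
  refine ⟨fun l => φ (σ (l.map φ)), ?_, ?_⟩
  · intro a l
    have := hE _ _ (h1 (φ a) (l.map φ))
    rwa [hφ] at this
  · intro x g1 g2 g3
    apply h2
    · rw [g1, hφ]
    · intro n; exact hC _ _ (g2 n)
    · intro n
      rw [g3 n]
      beta_reduce
      rw [hφ, hist_map]

/-- translation by a generator -/
theorem Win2.trans {A C : Set Gam} {s : St} {P : Set Lim} (h : Win2 A C s P) (i : Fin 3) :
    Win2 {g | gen i * g ∈ A} {g | gen i * g ∈ C} (tr (gen i) s) {l | trL (gen i) l ∈ P} := by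
  have h1 := W2_aut (E' := Ext {g | gen i * g ∈ A}) (C' := Ext {g | gen i * g ∈ C}) (tr (gen i)) (tr_tr i)
    (fun a b e => Ext_tr i e) (fun a b e => Ext_tr' i (by rw [tr_tr, tr_tr]; exact e)) h
  exact W2_mono h1 fun x _ _ hx => hx

theorem Win2.xor {A C : Set Gam} {s : St} {P : Set Lim} (h : Win2 A C s P) (v : ℕ → Bool) :
    Win2 A C (xo v s) {l | xoL v l ∈ P} := by
  have h1 := W2_aut (E' := Ext A) (C' := Ext C) (xo v) (xo_xo v)
    (fun a b e => Ext_xo v e) (fun a b e => Ext_xo v e) h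
  refine W2_mono h1 fun x hc _ hx => ?_
  show xoL v (lim x) ∈ P
  rw [← lim_xo v hc]
  exact hx

theorem exists_rec {M : Type} (G : (n : ℕ) → ((m : ℕ) → m < n → M) → M) :
    ∃ w : ℕ → M, ∀ n, w n = G n (fun m _ => w m) :=
  ⟨fun n => WellFounded.fix Nat.lt_wfRel.wf G n, fun n => WellFounded.fix_eq Nat.lt_wfRel.wf G n⟩

/-- the indices of the moves seen by the player `j` -/
def vw (J j : ℕ) : ℕ → ℕ
  | 0 => 0
  | k + 1 => J * (k / 2) + j + 1 + k % 2

theorem vw_strictMono {J : ℕ} (hJ : 2 ≤ J) (j : ℕ) : StrictMono (vw J j) := by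
  apply strictMono_nat_of_lt_succ
  intro n
  cases n with
  | zero => show 0 < J * (0 / 2) + j + 1 + 0 % 2; omega
  | succ n =>
    show J * (n / 2) + j + 1 + n % 2 < J * ((n + 1) / 2) + j + 1 + (n + 1) % 2
    rcases Nat.mod_two_eq_zero_or_one n with h | h
    · have e1 : (n + 1) / 2 = n / 2 := by omega
      have e2 : (n + 1) % 2 = 1 := by omega
      rw [e1, e2, h]; omega
    · have e1 : (n + 1) / 2 = n / 2 + 1 := by omega
      have e2 : (n + 1) % 2 = 0 := by omega
      rw [e1, e2, h, Nat.mul_add]; omega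

theorem vw_odd (J j t : ℕ) : vw J j (2 * t + 1) = J * t + j + 1 := by
  show J * (2 * t / 2) + j + 1 + 2 * t % 2 = _
  rw [Nat.mul_div_cancel_left t (by omega : 0 < 2), Nat.mul_mod_right]

theorem vw_even (J j t : ℕ) : vw J j (2 * t + 2) = J * t + j + 2 := by
  show J * ((2 * t + 1) / 2) + j + 1 + (2 * t + 1) % 2 = _
  have e1 : (2 * t + 1) / 2 = t := by omega
  have e2 : (2 * t + 1) % 2 = 1 := by omega
  rw [e1, e2]

/-- the clash of `J` strategies -/
theorem clash (J : ℕ) (hJ : 2 ≤ J) (A C : Fin J → Set Gam) (s : St) (P : Fin J → Set Lim)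
    (hw : ∀ j, Win2 (A j) (C j) s (P j)) (hAC : ∀ j l, l ≠ j → A l ⊆ C j) :
    ∃ x : ℕ → St, x 0 = s ∧ Chain x ∧ ∀ j, lim x ∈ P j := by
  choose σ h1 h2 using hw
  obtain ⟨s1, hs1⟩ := exists_ext ∅ s
  have hJ0 : 0 < J := by omega
  let pl : ℕ → Fin J := fun n => ⟨n % J, Nat.mod_lt n hJ0⟩
  obtain ⟨w, hw⟩ := exists_rec (fun (n : ℕ) (prev : (m : ℕ) → m < n → St) =>
    if n = 0 then s else if n = 1 then s1 else
      σ (pl (n - 2)) (hist (fun k => if h : vw J (pl (n - 2)) k < n then prev (vw J (pl (n - 2)) k) h else s)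
        (2 * ((n - 2) / J) + 1)))
  have w0 : w 0 = s := by rw [hw 0]; simp
  have w1 : w 1 = s1 := by rw [hw 1]; simp
  have w2 : ∀ n, w (n + 2) = σ (pl n) (hist (w ∘ vw J (pl n)) (2 * (n / J) + 1)) := by
    intro n
    rw [hw (n + 2)]
    rw [if_neg (by omega), if_neg (by omega)]
    simp only [Nat.add_sub_cancel]
    congr 1
    apply hist_congr
    intro k _ hk
    have h3 : vw J (pl n) k ≤ vw J (pl n) (2 * (n / J) + 1) := (vw_strictMono hJ _).monotone hk
    rw [vw_odd] at h3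
    have h4 := Nat.div_add_mod n J
    have h5 : ((pl n : Fin J) : ℕ) = n % J := rfl
    have h6 : vw J (pl n) k < n + 2 := by omega
    simp only [dif_pos h6]
    rfl
  have hstep : ∀ n, Ext (A (pl n)) (w (n + 1)) (w (n + 2)) := by
    intro n
    rw [w2 n]
    have h3 := h1 (pl n) ((w ∘ vw J (pl n)) (2 * (n / J) + 1)) (hist (w ∘ vw J (pl n)) (2 * (n / J)))
    have h4 : (w ∘ vw J (pl n)) (2 * (n / J) + 1) = w (n + 1) := by
      show w (vw J (pl n) (2 * (n / J) + 1)) = _
      rw [vw_odd]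
      have h4 := Nat.div_add_mod n J
      have h5 : ((pl n : Fin J) : ℕ) = n % J := rfl
      rw [h5, h4]
    rw [h4] at h3
    rw [show hist (w ∘ vw J (pl n)) (2 * (n / J) + 1) = (w ∘ vw J (pl n)) (2 * (n / J) + 1) ::
      hist (w ∘ vw J (pl n)) (2 * (n / J)) from rfl, h4]
    exact h3
  have h01 : Ext ∅ (w 0) (w 1) := by rw [w0, w1]; exact hs1
  have hchain : Chain w := by
    intro n
    cases n with
    | zero => exact h01.mono (Set.subset_univ _)
    | succ n => exact (hstep n).mono (Set.subset_univ _)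
  refine ⟨w, w0, hchain, fun j => ?_⟩
  rw [← lim_subseq hchain (vw_strictMono hJ j)]
  apply h2 j
  · exact w0
  · intro t
    apply ext_seg ((vw_strictMono hJ j) (Nat.lt_succ_self _))
    intro k hk1 hk2
    rw [show (2 * t).succ = 2 * t + 1 from rfl, vw_odd] at hk2
    cases k with
    | zero => exact h01.mono (Set.empty_subset _)
    | succ n =>
      apply (hstep n).mono
      apply hAC
      intro hcon
      have h5 : n % J = j := congrArg Fin.val hcon
      have h6 := Nat.div_add_mod n J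
      cases t with
      | zero =>
        have h7 : n < J := by have := j.2; omega
        rw [Nat.mod_eq_of_lt h7] at h5
        omega
      | succ t =>
        rw [show 2 * (t + 1) = 2 * t + 2 by ring, vw_even] at hk1
        rw [h5] at h6
        have e1 : J * t < J * (n / J) := by omega
        have e2 : J * (n / J) < J * (t + 1) := by omega
        have e3 := Nat.lt_of_mul_lt_mul_left e1
        have e4 := Nat.lt_of_mul_lt_mul_left e2
        omega
  · intro t
    show w (vw J j (2 * t + 2)) = _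
    rw [vw_even]
    have h3 : pl (J * t + j) = j := by
      apply Fin.ext
      show (J * t + j) % J = j
      rw [Nat.mul_add_mod, Nat.mod_eq_of_lt j.2]
    have h4 : (J * t + j) / J = t := by
      rw [Nat.mul_add_div hJ0, Nat.div_eq_of_lt j.2, Nat.add_zero]
    have h5 := w2 (J * t + j)
    rw [h3, h4] at h5
    exact h5

end Pool.Agent.Helper701.Marks
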