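import Pool.Agent.Helper701_Marks.Glue

/-! # Quasi-Borel determinacy -/

set_option autoImplicit false

namespace Pool.Agent.Helper701.Marks

open Pool.Agent.R549.BD

/-- coverings of a smaller level -/
def weak {N N' : ℕ} (h : N ≤ N') {S T : GTree.{0}} (c : Cov N' S T) : Cov N S T where
  pi := c.pi
  len_pi := c.len_pi
  par_pi := c.par_pi
  bij q hq := c.bij q (hq.trans h)
  phi := c.phi
  phi_strat := c.phi_strat
  phi_local := c.phi_local
  phi_low i hi s hs p hp := c.phi_low i hi s hs p (lt_of_lt_of_le hp h)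
  lift := c.lift

/-- a set decided at some level can be unravelled at level `N+2` -/
theorem fixLevel {N : ℕ} (hN : N % 2 = 0) {S T : GTree.{0}} (c : Cov N S T) {A : Set (ℕ → T.Pos)} {m : ℕ}
    (hU : UnravAt c A m) : ∃ (S' : GTree.{0}) (c' : Cov N S' T), UnravAt c' A (N + 2) := by
  let C : Set S.Pos := {p | m ≤ S.len p → ∀ y, S.IsPlay y → y m = S.par^[S.len p - m] p →
    (fun n => c.pi (y n)) ∈ A}
  have hC : ∀ p, p ∈ C → S.par p ∈ C := by
    intro p hpC
    rcases Nat.eq_zero_or_pos (S.len p) with h0 | h0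
    · have h3 : S.par p = p := by
        rw [S.eq_root p h0]
        apply S.eq_root
        rw [S.len_par, S.len_root]
      rw [h3]
      exact hpC
    · intro hj y hy hyj
      rw [S.len_par] at hj hyj
      apply hpC (by omega) y hy
      rw [hyj, ← Function.iterate_succ_apply]
      congr 1
      omega
  have hCp : ∀ y, S.IsPlay y → ((∀ n, y n ∈ C) ↔ (fun n => c.pi (y n)) ∈ A) := by
    intro y hy
    constructor
    · intro h
      apply h m (by rw [hy.1]) y hy
      rw [hy.1, Nat.sub_self]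
      rfl
    · intro h n hj y' hy' hyj
      rw [hy.1] at hj hyj
      rw [L3.par_iter' hy hj] at hyj
      exact (hU y' y hy' hy hyj).2 h
  obtain ⟨S2, c2, hU2⟩ := L1.main S N hN C hC
  refine ⟨S2, L3.comp c2 c, fun z z' hz hz' hzz => ?_⟩
  have h5 := hU2 z z' hz hz' hzz
  simp only [Set.mem_ofPred_eq] at h5
  rw [hCp _ (L3.map_play c2.pi c2.len_pi c2.par_pi hz),
    hCp _ (L3.map_play c2.pi c2.len_pi c2.par_pi hz')] at h5
  exact h5

theorem unravelQ (T : GTree.{0}) (A : Set (ℕ → T.Pos)) (hA : QBT T A) :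
    ∀ (T' : GTree.{0}) (F : T'.Pos → T.Pos), (∀ p, T.len (F p) = T'.len p) →
      (∀ p, F (T'.par p) = T.par (F p)) → ∀ N, N % 2 = 0 →
      ∃ (S : GTree.{0}) (c : Cov N S T'), UnravAt c {x | (fun n => F (x n)) ∈ A} (N + 2) := by
  induction hA with
  | fin m C =>
    intro T' F _ _ N hN
    apply fixLevel hN (L3.idCov N T') (m := m)
    intro y y' _ _ hyy
    simp only [Set.mem_ofPred_eq, L3.idCov, hyy]
  | compl A _ ih =>
    intro T' F hl hp N hN
    obtain ⟨S, c, hU⟩ := ih T' F hl hp N hN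
    refine ⟨S, c, fun y y' hy hy' hyy => ?_⟩
    have := hU y y' hy hy' hyy
    simp only [Set.mem_ofPred_eq, Set.mem_compl_iff] at this ⊢
    exact not_congr this
  | iUnion A _ ih =>
    intro T' F hl hp N hN
    -- the sequence of trees
    let St : Type 1 := Σ T'' : GTree.{0}, {F'' : T''.Pos → T.Pos //
      (∀ p, T.len (F'' p) = T''.len p) ∧ ∀ p, F'' (T''.par p) = T.par (F'' p)}
    have H : ∀ (j : ℕ) (st : St), ∃ (S : GTree.{0}) (c : Cov (N + 2 * j) S st.1),
        UnravAt c {x | (fun n => st.2.1 (x n)) ∈ A j} (N + 2 * j + 2) :=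
      fun j st => ih j st.1 st.2.1 st.2.2.1 st.2.2.2 (N + 2 * j) (by omega)
    choose S c hU using H
    let nxt : ℕ → St → St := fun j st => ⟨S j st, ⟨fun p => st.2.1 ((c j st).pi p),
      ⟨fun p => by rw [st.2.2.1, (c j st).len_pi], fun p => by
        beta_reduce
        rw [(c j st).par_pi, st.2.2.2]⟩⟩⟩
    let st : ℕ → St := fun n => Nat.rec ⟨T', ⟨F, ⟨hl, hp⟩⟩⟩ (fun j s => nxt j s) n
    let cc : ∀ j, Cov (N + 2 * j) (st (j+1)).1 (st j).1 := fun j => c j (st j)
    obtain ⟨Sinf, c0, f, hfl, hfp, hfc, hf0⟩ := L2.main (fun j => (st j).1) N cc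
    have hF : ∀ j p, F (f 0 p) = (st j).2.1 (f j p) := by
      intro j p
      induction j with
      | zero => rfl
      | succ j ihj =>
        rw [ihj]
        change (st j).2.1 (f j p) = (st j).2.1 ((cc j).pi (f (j+1) p))
        rw [hfc j p]
    -- membership in `A j` is decided at level `N + 2 * j + 2`
    have hdec : ∀ j y y', Sinf.IsPlay y → Sinf.IsPlay y' → y (N + 2 * j + 2) = y' (N + 2 * j + 2) →
        ((fun n => F (c0.pi (y n))) ∈ A j ↔ (fun n => F (c0.pi (y' n))) ∈ A j) := by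
      intro j y y' hy hy' hyy
      have h3 := hU j (st j) (fun n => f (j+1) (y n)) (fun n => f (j+1) (y' n))
        (L3.map_play (T := (st (j+1)).1) (f (j+1)) (hfl (j+1)) (hfp (j+1)) hy)
        (L3.map_play (T := (st (j+1)).1) (f (j+1)) (hfl (j+1)) (hfp (j+1)) hy')
        (by rw [hyy])
      have h4 : ∀ p, (st j).2.1 ((c j (st j)).pi (f (j+1) p)) = F (c0.pi p) := by
        intro p
        rw [hf0 p, hF j p]
        exact congrArg _ (hfc j p)
      simp only [Set.mem_ofPred_eq, h4] at h3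
      exact h3
    let C : Set Sinf.Pos := {p | ∀ j, N + 2 * j + 2 ≤ Sinf.len p → ∀ y, Sinf.IsPlay y →
      y (N + 2 * j + 2) = Sinf.par^[Sinf.len p - (N + 2 * j + 2)] p → (fun n => F (c0.pi (y n))) ∉ A j}
    have hC : ∀ p, p ∈ C → Sinf.par p ∈ C := by
      intro p hpC
      rcases Nat.eq_zero_or_pos (Sinf.len p) with h0 | h0
      · have h3 : Sinf.par p = p := by
          rw [Sinf.eq_root p h0]
          apply Sinf.eq_root
          rw [Sinf.len_par, Sinf.len_root]
        rw [h3]
        exact hpC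
      · intro j hj y hy hyj
        rw [Sinf.len_par] at hj hyj
        apply hpC j (by omega) y hy
        rw [hyj, ← Function.iterate_succ_apply]
        congr 1
        omega
    have hCp : ∀ y, Sinf.IsPlay y →
        ((∀ n, y n ∈ C) ↔ ∀ j, (fun n => F (c0.pi (y n))) ∉ A j) := by
      intro y hy
      constructor
      · intro h j
        apply h (N + 2 * j + 2) j (by rw [hy.1]) y hy
        rw [hy.1, Nat.sub_self]
        rfl
      · intro h n j hj y' hy' hyj
        rw [hy.1] at hj hyj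
        rw [L3.par_iter' hy hj] at hyj
        intro hmem
        exact h j ((hdec j y' y hy' hy hyj).1 hmem)
    obtain ⟨S2, c2, hU2⟩ := L1.main Sinf N hN C hC
    refine ⟨S2, L3.comp c2 c0, fun z z' hz hz' hzz => ?_⟩
    have h5 := hU2 z z' hz hz' hzz
    simp only [Set.mem_ofPred_eq] at h5
    rw [hCp _ (L3.map_play c2.pi c2.len_pi c2.par_pi hz),
      hCp _ (L3.map_play c2.pi c2.len_pi c2.par_pi hz')] at h5
    simp only [Set.mem_ofPred_eq, Set.mem_iUnion]
    have h6 := not_congr h5
    push Not at h6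
    exact h6
  | loc n A _ ih =>
    intro T' F hl hp N hN
    have hN' : (N + 2 * n) % 2 = 0 := by omega
    have H := fun p => ih p T' F hl hp (N + 2 * n) hN'
    choose Sf cf hU using H
    let lab : T'.Pos → T.Pos := fun q => F (T'.res n q)
    have hd : ∀ i, ∃ d, (Sf i).IsStrat d := fun i => L3.exists_strat (Sf i)
    choose d hd using hd
    have key : UnravAt (Glue.GC (lab := lab) (Sf := Sf) (cf := cf) d hd)
        {x | (fun n => F (x n)) ∈ A} (N + 2 * n + 2) := by
      intro y y' hy hy' hyy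
      have hxp : ∀ y : ℕ → Glue.GPos lab Sf cf, (Glue.GT lab Sf cf).IsPlay y →
          T'.IsPlay (fun k => Glue.gpi (y k)) := fun y hy =>
        L3.map_play (S := Glue.GT lab Sf cf) Glue.gpi Glue.len_gpi (Glue.gpi_gpar lab Sf cf) hy
      have hi : ∀ y : ℕ → Glue.GPos lab Sf cf, (Glue.GT lab Sf cf).IsPlay y → ∀ k, N + 2 * n ≤ k →
          (y k).i = F (Glue.gpi (y n)) := by
        intro y hy k hk
        have h1 := Glue.L_gpi (y k)
        rw [← h1]
        unfold Glue.L
        have h2 : T'.res (N + 2 * n) (Glue.gpi (y k)) = Glue.gpi (y (N + 2 * n)) := T'.play_res (hxp y hy) hk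
        rw [h2]
        have h3 := T'.play_res (hxp y hy) (show n ≤ N + 2 * n by omega)
        exact congrArg F h3
      set i := (y (N + 2 * n)).i with hi'
      have e1 : i = F (Glue.gpi (y n)) := hi y hy _ le_rfl
      have e2 : (y' (N + 2 * n)).i = F (Glue.gpi (y' n)) := hi y' hy' _ le_rfl
      have e3 : (y (N + 2 * n + 2)).i = F (Glue.gpi (y n)) := hi y hy _ (by omega)
      have e4 : (y' (N + 2 * n + 2)).i = F (Glue.gpi (y' n)) := hi y' hy' _ (by omega)
      have e5 : (y' (N + 2 * n)).i = i := by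
        rw [e2, ← e4, ← hyy, e3, ← e1]
      obtain ⟨ys, g1, g2, g3⟩ := Glue.proj_play hy (i := i) rfl
      obtain ⟨ys', g1', g2', g3'⟩ := Glue.proj_play hy' (i := i) e5
      have e6 : ys (N + 2 * n + 2) = ys' (N + 2 * n + 2) := by
        obtain ⟨a1, a2⟩ := g3 (N + 2 * n + 2) (by omega)
        obtain ⟨b1, b2⟩ := g3' (N + 2 * n + 2) (by omega)
        rw [a2, b2] at hyy
        simpa using hyy
      have h7 := hU i ys ys' g1 g1' e6
      simp only [Set.mem_ofPred_eq, g2, g2', Set.mem_inter_iff] at h7 ⊢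
      have e7 : F (Glue.gpi (y n)) = i := e1.symm
      have e8 : F (Glue.gpi (y' n)) = i := by rw [← e2, e5]
      rw [and_iff_left e7, and_iff_left e8] at h7
      exact h7
    exact fixLevel hN (weak (by omega) (Glue.GC (lab := lab) (Sf := Sf) (cf := cf) d hd))
      (m := N + 2 * n + 2) key

/-- Quasi-Borel games on arbitrary trees are determined. -/
theorem qdet (T : GTree.{0}) (A : Set (ℕ → T.Pos)) (hA : QBT T A) : T.Det A := by
  obtain ⟨S, c, hU⟩ := unravelQ T A hA T (fun p => p) (fun _ => rfl) (fun _ => rfl) 0 rfl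
  rcases L3.L3b S {y | (fun n => c.pi (y n)) ∈ A} (0 + 2) (fun y y' hy hy' hyy => hU y y' hy hy' hyy) with
    ⟨s, hs, hsw⟩ | ⟨s, hs, hsw⟩
  · left
    refine ⟨c.phi 0 s, c.phi_strat 0 (by norm_num) s hs, fun x hx hxc => ?_⟩
    obtain ⟨y, hy, hyc, hyx⟩ := c.lift 0 (by norm_num) s hs x hx hxc
    have h3 := hsw y hy hyc
    have h4 : (fun n => c.pi (y n)) = x := funext hyx
    rw [Set.mem_ofPred_eq, h4] at h3
    exact h3
  · right
    refine ⟨c.phi 1 s, c.phi_strat 1 (by norm_num) s hs, fun x hx hxc => ?_⟩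
    obtain ⟨y, hy, hyc, hyx⟩ := c.lift 1 (by norm_num) s hs x hx hxc
    have h3 := hsw y hy hyc
    have h4 : (fun n => c.pi (y n)) = x := funext hyx
    rw [Set.mem_ofPred_eq, h4] at h3
    exact h3

end Pool.Agent.Helper701.Marks
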