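import Pool.Agent.Helper701_Marks.Grp

/-! # States, limits -/

set_option autoImplicit false

namespace Pool.Agent.Helper701.Marks

theorem Ext.mono {A B : Set Gam} (h : A ⊆ B) {s t : St} (e : Ext A s t) : Ext B s t where
  lt := e.lt
  sub := e.sub
  sup := e.sup.trans (Set.union_subset_union_right _ h)
  z := e.z
  T := e.T
  S := e.S
  D := e.D

theorem Ext.trans {A B : Set Gam} {r s t : St} (e : Ext A r s) (e' : Ext B s t) : Ext (A ∪ B) r t where
  lt := e.lt.trans e'.lt
  sub := e.sub.trans e'.sub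
  sup := by
    intro g hg
    rcases e'.sup hg with h | h
    · rcases e.sup h with h | h
      · exact Or.inl h
      · exact Or.inr (Or.inl h)
    · exact Or.inr (Or.inr h)
  z g hg k hk := by rw [e'.z g (e.sub hg) k (hk.trans e.lt), e.z g hg k hk]
  T := by
    obtain ⟨T, hT⟩ := e.T
    obtain ⟨T', hT'⟩ := e'.T
    refine ⟨fun k => if k < s.m then T k else T' k, fun g hg k h1 h2 => ?_⟩
    by_cases h : k < s.m
    · rw [e'.z g (e.sub hg) k h, hT g hg k h1 h]
      simp only [if_pos h]
    · rw [hT' g (e.sub hg) k (by omega) h2]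
      simp only [if_neg h]
  S k hk := by rw [e'.S k (hk.trans e.lt), e.S k hk]
  D := e.D.trans e'.D

theorem Ext.trans' {A : Set Gam} {r s t : St} (e : Ext A r s) (e' : Ext A s t) : Ext A r t := by
  have := e.trans e'
  rwa [Set.union_self] at this

/-- extension without new vertices to the length `n`, with prescribed continuation of `S` -/
theorem exists_ext0 (s : St) (n : ℕ) (h : s.m < n) (u : ℕ → Bool) (hu : ∀ k < s.m, s.S k = u k) :
    ∃ t, Ext ∅ s t ∧ t.m = n ∧ t.F = s.F ∧ ∀ k < n, t.S k = u k := by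
  refine ⟨⟨n, s.F, fun g k => if k < s.m then s.z g k else par g, u, s.D, ?_, s.cnt⟩, ?_, rfl, rfl,
    fun k _ => rfl⟩
  · intro g hg g' hg' e
    apply s.inj g hg g' hg'
    intro k hk
    have := e k (hk.trans h)
    simpa only [if_pos hk] using this
  · constructor
    · exact h
    · exact subset_rfl
    · exact Set.subset_union_left
    · intro g _ k hk
      simp only [if_pos hk]
    · refine ⟨fun _ => false, fun g _ k h1 _ => ?_⟩
      simp only [if_neg (show ¬ k < s.m by omega)]
      simp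
    · intro k hk
      exact (hu k hk).symm
    · exact subset_rfl

theorem exists_ext (A : Set Gam) (s : St) : ∃ t, Ext A s t := by
  obtain ⟨t, ht, _⟩ := exists_ext0 s (s.m + 1) (by omega) s.S (fun _ _ => rfl)
  exact ⟨t, ht.mono (Set.empty_subset _)⟩

theorem Ext_tr (i : Fin 3) {A : Set Gam} {s t : St} (e : Ext A s t) :
    Ext {g | gen i * g ∈ A} (tr (gen i) s) (tr (gen i) t) where
  lt := e.lt
  sub g hg := e.sub hg
  sup := by
    intro g hg
    rcases e.sup hg with h | h
    · exact Or.inl h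
    · right
      rw [gen_inv] at h
      exact h
  z g hg k hk := e.z _ hg k hk
  T := by
    obtain ⟨T, hT⟩ := e.T
    refine ⟨fun k => !(T k), fun g hg k h1 h2 => ?_⟩
    have h3 := hT _ hg k h1 h2
    show t.z ((gen i)⁻¹ * g) k = _
    rw [h3, gen_inv, par_gen_mul]
    simp
  S := e.S
  D := e.D

theorem tr_tr (i : Fin 3) (s : St) : tr (gen i) (tr (gen i) s) = s := by
  obtain ⟨m, F, z, S, D, inj, cnt⟩ := s
  simp only [tr, gen_inv, Set.mem_ofPred_eq, gen_mul_cancel]
  rfl

theorem Ext_tr' (i : Fin 3) {A : Set Gam} {s t : St} (e : Ext {g | gen i * g ∈ A} (tr (gen i) s) (tr (gen i) t)) :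
    Ext A s t := by
  have h := Ext_tr i e
  rw [tr_tr, tr_tr] at h
  have h2 : {g | gen i * g ∈ {g | gen i * g ∈ A}} = A := by
    ext g
    simp only [Set.mem_ofPred_eq, gen_mul_cancel]
  rwa [h2] at h

theorem xo_xo (v : ℕ → Bool) (s : St) : xo v (xo v s) = s := by
  obtain ⟨m, F, z, S, D, inj, cnt⟩ := s
  simp only [xo, Bool.xor_assoc, Bool.xor_self, Bool.xor_false]

theorem Ext_xo (v : ℕ → Bool) {A : Set Gam} {s t : St} (e : Ext A s t) : Ext A (xo v s) (xo v t) where
  lt := e.lt
  sub := e.sub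
  sup := e.sup
  z := e.z
  T := e.T
  S k hk := by
    show xor (t.S k) (v k) = xor (s.S k) (v k)
    rw [e.S k hk]
  D := e.D

theorem lim_tr (d : Gam) (x : ℕ → St) : lim (fun n => tr d (x n)) = trL d (lim x) := rfl

theorem Chain.ext {x : ℕ → St} (hx : Chain x) {a b : ℕ} (h : a < b) : Ext Set.univ (x a) (x b) := by
  induction b, h using Nat.le_induction with
  | base => exact hx a
  | succ b _ ih => exact ih.trans' (hx b)

/-- transitivity along a segment -/
theorem ext_seg {A : Set Gam} {x : ℕ → St} {a b : ℕ} (h : a < b)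
    (hx : ∀ k, a ≤ k → k < b → Ext A (x k) (x (k + 1))) : Ext A (x a) (x b) := by
  induction b, h using Nat.le_induction with
  | base => exact hx a le_rfl (by omega)
  | succ b hb ih =>
    exact (ih fun k h1 h2 => hx k h1 (by omega)).trans' (hx b (by omega) (by omega))

theorem lim_F {x : ℕ → St} (n : ℕ) : (x n).F ⊆ (lim x).F := fun _ hg => ⟨n, hg⟩

theorem lim_Q {x : ℕ → St} (n : ℕ) : (x n).D ⊆ (lim x).Q := fun _ hg => ⟨n, hg⟩

theorem Chain.z_eq {x : ℕ → St} (hx : Chain x) {n n' : ℕ} {g : Gam} (hg : g ∈ (x n).F) (hg' : g ∈ (x n').F)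
    {k : ℕ} (hk : k < (x n).m) (hk' : k < (x n').m) : (x n).z g k = (x n').z g k := by
  rcases lt_trichotomy n n' with h | rfl | h
  · exact ((hx.ext h).z g hg k hk).symm
  · rfl
  · exact (hx.ext h).z g hg' k hk'

theorem Chain.S_eq {x : ℕ → St} (hx : Chain x) {n n' : ℕ}
    {k : ℕ} (hk : k < (x n).m) (hk' : k < (x n').m) : (x n).S k = (x n').S k := by
  rcases lt_trichotomy n n' with h | rfl | h
  · exact ((hx.ext h).S k hk).symm
  · rfl
  · exact (hx.ext h).S k hk'

theorem lim_y {x : ℕ → St} (hx : Chain x) {n : ℕ} {g : Gam} (hg : g ∈ (x n).F) {k : ℕ} (hk : k < (x n).m) :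
    (lim x).y g k = (x n).z g k := by
  simp only [lim]
  cases h : (x n).z g k
  · rw [decide_eq_false_iff_not]
    rintro ⟨n', h1, h2, h3⟩
    rw [hx.z_eq hg h1 hk h2, h3] at h
    exact absurd h (by decide)
  · simp only [decide_eq_true_eq]
    exact ⟨n, hg, hk, h⟩

theorem lim_S {x : ℕ → St} (hx : Chain x) {n k : ℕ} (hk : k < (x n).m) : (lim x).S k = (x n).S k := by
  simp only [lim]
  cases h : (x n).S k
  · rw [decide_eq_false_iff_not]
    rintro ⟨n', h2, h3⟩
    rw [hx.S_eq hk h2, h3] at h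
    exact absurd h (by decide)
  · simp only [decide_eq_true_eq]
    exact ⟨n, hk, h⟩

theorem Chain.le_m {x : ℕ → St} (hx : Chain x) (n : ℕ) : n ≤ (x n).m := by
  induction n with
  | zero => omega
  | succ n ih => have := (hx n).lt; omega

theorem Chain.mono_F {x : ℕ → St} (hx : Chain x) {a b : ℕ} (h : a ≤ b) : (x a).F ⊆ (x b).F := by
  rcases Nat.lt_or_ge a b with h1 | h1
  · exact (hx.ext h1).sub
  · obtain rfl : a = b := by omega
    exact subset_rfl

theorem Chain.mono_D {x : ℕ → St} (hx : Chain x) {a b : ℕ} (h : a ≤ b) : (x a).D ⊆ (x b).D := by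
  rcases Nat.lt_or_ge a b with h1 | h1
  · exact (hx.ext h1).D
  · obtain rfl : a = b := by omega
    exact subset_rfl

theorem Chain.mono_m {x : ℕ → St} (hx : Chain x) {a b : ℕ} (h : a ≤ b) : (x a).m ≤ (x b).m := by
  rcases Nat.lt_or_ge a b with h1 | h1
  · exact (hx.ext h1).lt.le
  · obtain rfl : a = b := by omega
    exact le_rfl

theorem Chain.comp {x : ℕ → St} (hx : Chain x) {φ : ℕ → ℕ} (hφ : StrictMono φ) : Chain (x ∘ φ) :=
  fun n => hx.ext (hφ (Nat.lt_succ_self n))

theorem lim_subseq {x : ℕ → St} (hx : Chain x) {φ : ℕ → ℕ} (hφ : StrictMono φ) : lim (x ∘ φ) = lim x := by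
  have hc := hx.comp hφ
  have hF : (lim (x ∘ φ)).F = (lim x).F := by
    ext g
    constructor
    · rintro ⟨n, h⟩; exact ⟨φ n, h⟩
    · rintro ⟨n, h⟩; exact ⟨n, hx.mono_F (hφ.id_le n) h⟩
  ext1
  · exact hF
  · funext g k
    by_cases hg : g ∈ (lim x).F
    · obtain ⟨n, hn⟩ := hg
      have h1 : g ∈ (x (max n (k + 1))).F := hx.mono_F (le_max_left _ _) hn
      have h2 : k < (x (max n (k + 1))).m :=
        lt_of_lt_of_le (Nat.lt_succ_self k) ((hx.le_m _).trans' (le_max_right _ _))
      have h3 : g ∈ (x (φ (max n (k + 1)))).F := hx.mono_F (hφ.id_le _) h1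
      have h4 : k < (x (φ (max n (k + 1)))).m := lt_of_lt_of_le h2 (hx.mono_m (hφ.id_le _))
      rw [lim_y hc (n := max n (k + 1)) h3 h4, lim_y hx h3 h4]
      rfl
    · have h1 : g ∉ (lim (x ∘ φ)).F := by rw [hF]; exact hg
      have e1 : (lim x).y g k = false := by
        simp only [lim]
        rw [decide_eq_false_iff_not]
        rintro ⟨n', h1, h2, h3⟩
        exact hg ⟨n', h1⟩
      have e2 : (lim (x ∘ φ)).y g k = false := by
        simp only [lim]
        rw [decide_eq_false_iff_not]
        rintro ⟨n', h3, h4, h5⟩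
        exact h1 ⟨n', h3⟩
      rw [e1, e2]
  · funext k
    have h2 : k < (x (k + 1)).m := lt_of_lt_of_le (Nat.lt_succ_self k) (hx.le_m _)
    have h4 : k < (x (φ (k + 1))).m := lt_of_lt_of_le h2 (hx.mono_m (hφ.id_le _))
    rw [lim_S hc (n := k + 1) h4, lim_S hx h4]
    rfl
  · ext r
    constructor
    · rintro ⟨n, h⟩; exact ⟨φ n, h⟩
    · rintro ⟨n, h⟩; exact ⟨n, hx.mono_D (hφ.id_le n) h⟩

theorem lim_xo (v : ℕ → Bool) {x : ℕ → St} (hx : Chain x) : lim (fun n => xo v (x n)) = xoL v (lim x) := by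
  have hc : Chain (fun n => xo v (x n)) := fun n => Ext_xo v (hx n)
  ext1
  · rfl
  · rfl
  · funext k
    have h2 : k < (x (k + 1)).m := lt_of_lt_of_le (Nat.lt_succ_self k) (hx.le_m _)
    rw [lim_S hc (n := k + 1) h2]
    show xor ((x (k + 1)).S k) (v k) = xor ((lim x).S k) (v k)
    rw [lim_S hx h2]
  · rfl

theorem Chain.pre {x : ℕ → St} (hx : Chain x) {s : St} (hs : Ext Set.univ s (x 0)) : Chain (pre s x) := by
  intro n
  cases n with
  | zero => exact hs
  | succ n => exact hx n

/-- the limit does not depend on the first state -/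
theorem lim_pre {x : ℕ → St} (hx : Chain x) {s : St} (hs : Ext Set.univ s (x 0)) : lim (pre s x) = lim x :=
  (lim_subseq (hx.pre hs) (φ := fun n => n + 1) (fun _ _ h => Nat.succ_lt_succ h)).symm

theorem lim_mem_XS {x : ℕ → St} (hx : Chain x) (h : (lim x).F = Set.univ) : (lim x).y ∈ XS := by
  have hF : ∀ g, ∃ n, g ∈ (x n).F := fun g => by
    have : g ∈ (lim x).F := by rw [h]; trivial
    exact this
  constructor
  · intro g g' e
    obtain ⟨n, hn⟩ := hF g
    obtain ⟨n', hn'⟩ := hF g'
    have h1 := hx.mono_F (le_max_left n n') hn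
    have h2 := hx.mono_F (le_max_right n n') hn'
    apply (x (max n n')).inj g h1 g' h2
    intro k hk
    rw [← lim_y hx h1 hk, ← lim_y hx h2 hk, e]
  · intro g i
    obtain ⟨n, hn⟩ := hF g
    obtain ⟨n', hn'⟩ := hF (g * gen i)
    refine ⟨(x (max n n')).m, fun k hk => ?_⟩
    -- find the step at which `k` is decided
    have hex : ∃ j, k < (x j).m := ⟨k + 1, lt_of_lt_of_le (Nat.lt_succ_self k) (hx.le_m _)⟩
    classical
    have hj := Nat.find_spec hex
    have hj' := fun j h => Nat.find_min hex (m := j) h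
    set j := Nat.find hex with hjdef
    have hlt : max n n' < j := by
      by_contra hcon
      have := hx.mono_m (not_lt.1 hcon)
      omega
    obtain ⟨j', hj''⟩ : ∃ j', j = j' + 1 := ⟨j - 1, by omega⟩
    have hk' : (x j').m ≤ k := not_lt.1 (hj' j' (by omega))
    have h1 := hx.mono_F ((le_max_left n n').trans (show max n n' ≤ j' by omega)) hn
    have h2 := hx.mono_F ((le_max_right n n').trans (show max n n' ≤ j' by omega)) hn'
    obtain ⟨T, hT⟩ := (hx j').T
    rw [hj''] at hj
    have h3 : g ∈ (x (j' + 1)).F := (hx j').sub h1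
    have h4 : g * gen i ∈ (x (j' + 1)).F := (hx j').sub h2
    rw [lim_y hx h3 hj, lim_y hx h4 hj, hT g h1 k hk' hj, hT _ h2 k hk' hj, par_mul_gen]
    cases T k <;> cases par g <;> decide

/-- joining two states (the edge lemma) -/
theorem exists_join (i : Fin 3) (s t : St) (hm : s.m = t.m) (hS : ∀ k < s.m, s.S k = t.S k)
    (hs : s.F ⊆ (R i)ᶜ) (ht : t.F ⊆ R i) :
    ∃ j : St, Ext (R i) s j ∧ Ext (R i)ᶜ t j := by
  classical
  have hdis : ∀ g, g ∈ s.F → g ∉ t.F := fun g h1 h2 => hs h1 (ht h2)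
  let z : Gam → ℕ → Bool := fun g k =>
    if k < s.m then (if g ∈ s.F then s.z g k else t.z g k)
    else if g ∈ s.F ∨ k = s.m then par g else !(par g)
  have z1 : ∀ g ∈ s.F, ∀ k < s.m, z g k = s.z g k := by
    intro g hg k hk
    simp only [z, if_pos hk, if_pos hg]
  have z2 : ∀ g ∈ t.F, ∀ k < s.m, z g k = t.z g k := by
    intro g hg k hk
    simp only [z, if_pos hk, if_neg (fun h => hdis g h hg)]
  have z3 : ∀ g ∈ s.F, ∀ k, s.m ≤ k → z g k = par g := by
    intro g hg k hk
    simp only [z, if_neg (show ¬ k < s.m by omega), hg, true_or, if_true]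
  have z4 : ∀ g, z g s.m = par g := by
    intro g
    simp only [z, if_neg (show ¬ s.m < s.m by omega), or_true, if_true]
  have z5 : ∀ g ∈ t.F, z g (s.m + 1) = !(par g) := by
    intro g hg
    have h1 : ¬ (g ∈ s.F ∨ s.m + 1 = s.m) := by
      rintro (h | h)
      · exact hdis g h hg
      · omega
    simp only [z, if_neg (show ¬ s.m + 1 < s.m by omega), if_neg h1]
  have cross : ∀ g ∈ s.F, ∀ g' ∈ t.F, (∀ k < s.m + 2, z g k = z g' k) → False := by
    intro g hg g' hg' e
    have e1 := e s.m (by omega)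
    have e2 := e (s.m + 1) (by omega)
    rw [z4, z4] at e1
    rw [z3 g hg _ (by omega), z5 g' hg', e1] at e2
    cases h : par g' <;> rw [h] at e2 <;> exact absurd e2 (by decide)
  refine ⟨⟨s.m + 2, s.F ∪ t.F, z, s.S, s.D ∪ t.D, ?_, s.cnt.union t.cnt⟩, ?_, ?_⟩
  · rintro g (hg | hg) g' (hg' | hg') e
    · apply s.inj g hg g' hg'
      intro k hk
      rw [← z1 g hg k hk, ← z1 g' hg' k hk]
      exact e k (by omega)
    · exact (cross g hg g' hg' e).elim
    · exact (cross g' hg' g hg fun k hk => (e k hk).symm).elim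
    · apply t.inj g hg g' hg'
      intro k hk
      rw [← hm] at hk
      rw [← z2 g hg k hk, ← z2 g' hg' k hk]
      exact e k (by omega)
  · constructor
    · show s.m < s.m + 2; omega
    · exact Set.subset_union_left
    · exact Set.union_subset_union_right _ ht
    · exact z1
    · refine ⟨fun _ => false, fun g hg k h1 _ => ?_⟩
      show z g k = _
      rw [z3 g hg k h1]
      simp
    · intro k _; rfl
    · exact Set.subset_union_left
  · constructor
    · show t.m < s.m + 2; omega
    · exact Set.subset_union_right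
    · rintro g (hg | hg)
      · exact Or.inr (hs hg)
      · exact Or.inl hg
    · intro g hg k hk
      exact z2 g hg k (by omega)
    · refine ⟨fun k => decide (k = s.m + 1), fun g hg k h1 h2 => ?_⟩
      have h2' : k < s.m + 2 := h2
      rcases (show k = s.m ∨ k = s.m + 1 by omega) with rfl | rfl
      · show z g s.m = _
        rw [z4]
        simp
      · show z g (s.m + 1) = _
        rw [z5 g hg]
        simp
    · intro k hk
      exact hS k (by omega)
    · exact Set.subset_union_right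

end Pool.Agent.Helper701.Marks
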