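import Pool.Agent.Helper701_Marks.WN

/-! # Theorem A -/

set_option autoImplicit false

namespace Pool.Agent.Helper701.Marks

namespace ThmA

variable (d : Dat)

/-- the space of pairs -/
abbrev YS : Type := (Gam → ℕ → Bool) × (ℕ → Bool)

/-- `B ∈ U_i` -/
def U (i : Fin 3) (B : Set YS) : Prop := ∀ m u, W d i m u B

/-- independence of the second coordinate -/
def Ind (B : Set YS) : Prop := ∀ y S S', (y, S) ∈ B → (y, S') ∈ B

variable {d}

theorem Inv.compl {B : Set YS} (h : Inv B) : Inv Bᶜ := by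
  intro y hy i S
  simp only [Set.mem_compl_iff, h y hy i S]

theorem Ind.compl {B : Set YS} (h : Ind B) : Ind Bᶜ := by
  intro y S S' h1 h2
  exact h1 (h y S' S h2)

theorem Inv.inter {B B' : Set YS} (h : Inv B) (h' : Inv B') : Inv (B ∩ B') := by
  intro y hy i S
  simp only [Set.mem_inter_iff, h y hy i S, h' y hy i S]

theorem Ind.inter {B B' : Set YS} (h : Ind B) (h' : Ind B') : Ind (B ∩ B') :=
  fun y S S' h1 => ⟨h y S S' h1.1, h' y S S' h1.2⟩

theorem Ind.shift {B : Set YS} (h : Ind B) (v : ℕ → Bool) :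
    {p : YS | (p.1, fun k => xor (p.2 k) (v k)) ∈ B} = B := by
  ext ⟨y, S⟩
  exact ⟨fun h1 => h y _ _ h1, fun h1 => h y _ _ h1⟩

theorem U_or {i : Fin 3} {B : Set YS} (hm : MeasurableSet B) (hi : Inv B) (hd : Ind B) :
    U d i B ∨ U d i Bᶜ := by
  by_contra hcon
  rw [not_or] at hcon
  unfold U at hcon
  simp only [not_forall] at hcon
  obtain ⟨⟨m, u, h1⟩, ⟨m', u', h2⟩⟩ := hcon
  obtain ⟨m1, u1, _, _, h3⟩ := W_det d hm h1
  obtain ⟨m2, u2, _, _, h4⟩ := W_det d hm.compl h2
  rw [compl_compl] at h4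
  have h5 := NN_pers d h3 (le_max_left m1 m2) (u' := u1) (fun _ _ => rfl)
  have h6 := NN_pers d h4 (le_max_right m1 m2) (u' := u2) (fun _ _ => rfl)
  have h7 := NN_xor d h6 (fun k => xor (u1 k) (u2 k))
  rw [hd.shift] at h7
  have h8 : (fun k => xor (u2 k) (xor (u1 k) (u2 k))) = u1 := by
    funext k
    cases u1 k <;> cases u2 k <;> rfl
  rw [h8] at h7
  exact edge d hi disjoint_compl_left h5 h7

theorem inv_univ : Inv (Set.univ : Set YS) := fun _ _ _ _ => by simp

theorem ind_univ : Ind (Set.univ : Set YS) := fun _ _ _ _ => trivial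

theorem vert (B : Fin 3 → Set YS) (h : ∀ j, U d j (B j)) : ∃ q, ∀ j, q ∈ B j := by
  obtain ⟨y, _, S, _, h2⟩ := vertex d (m := 0) (fun _ _ => false) B (fun j => h j 0 _) ∅ Set.countable_empty
  exact ⟨_, h2⟩

theorem U_univ (i : Fin 3) : U d i Set.univ := by
  rcases U_or (i := i) MeasurableSet.univ inv_univ ind_univ with h | h
  · exact h
  · exfalso
    rw [Set.compl_univ] at h
    have h1 : ∀ j, ∃ B : Set YS, U d j B := fun j => by
      rcases U_or (i := j) MeasurableSet.univ inv_univ ind_univ with h | h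
      · exact ⟨_, h⟩
      · exact ⟨_, h⟩
    choose B hB using h1
    obtain ⟨q, hq⟩ := vert (d := d) (fun j => if j = i then ∅ else B j) (by
      intro j
      by_cases hj : j = i
      · subst hj
        simp only [if_true]
        exact h
      · simp only [if_neg hj]
        exact hB j)
    have := hq i
    simp at this

theorem U_move {i j : Fin 3} {B : Set YS} (hm : MeasurableSet B) (hi : Inv B) (hd : Ind B) (h : U d i B) :
    U d j B := by
  by_cases hij : i = j
  · subst hij; exact h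
  rcases U_or (i := j) hm hi hd with h' | h'
  · exact h'
  · exfalso
    obtain ⟨q, hq⟩ := vert (d := d) (fun l => if l = i then B else if l = j then Bᶜ else Set.univ) (by
      intro l
      by_cases hl : l = i
      · subst hl
        simp only [if_true]
        exact h
      · by_cases hl' : l = j
        · subst hl'
          simp only [if_neg hl, if_true]
          exact h'
        · simp only [if_neg hl, if_neg hl']
          exact U_univ l)
    have h1 := hq i
    have h2 := hq j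
    simp only [if_true] at h1
    rw [if_neg (Ne.symm hij), if_pos rfl] at h2
    exact h2 h1

theorem U_inter {B B' : Set YS} (hm : MeasurableSet B) (hi : Inv B) (hd : Ind B)
    (hm' : MeasurableSet B') (hi' : Inv B') (hd' : Ind B') (h : U d 2 B) (h' : U d 2 B') :
    U d 2 (B ∩ B') := by
  rcases U_or (i := (2 : Fin 3)) (hm.inter hm') (Inv.inter hi hi') (Ind.inter hd hd') with h1 | h1
  · exact h1
  · exfalso
    obtain ⟨q, hq⟩ := vert (d := d) ![B, B', (B ∩ B')ᶜ] (by
      intro l
      fin_cases l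
      · exact U_move hm hi hd h
      · exact U_move hm' hi' hd' h'
      · exact h1)
    exact hq 2 ⟨hq 0, hq 1⟩

/-- decision after an extension -/
theorem decide_W {B : Set YS} (hm : MeasurableSet B) (hi : Inv B) (i : Fin 3) (m : ℕ) (u : ℕ → Bool) :
    ∃ (m' : ℕ) (u' : ℕ → Bool), m ≤ m' ∧ (∀ k < m, u' k = u k) ∧ (W d i m' u' B ∨ W d i m' u' Bᶜ) := by
  by_cases h1 : W d i m u B
  · exact ⟨m, u, le_rfl, fun _ _ => rfl, Or.inl h1⟩
  obtain ⟨m1, u1, hm1, hu1, h2⟩ := W_det d hm h1
  by_cases h3 : W d i m1 u1 Bᶜ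
  · exact ⟨m1, u1, hm1.le, hu1, Or.inr h3⟩
  obtain ⟨m2, u2, hm2, hu2, h4⟩ := W_det d hm.compl h3
  rw [compl_compl] at h4
  exact (edge d hi disjoint_compl_left (NN_pers d h2 hm2.le hu2) h4).elim

variable (d) in
/-- the cylinder sets -/
def Ck (k : ℕ) (b : Bool) : Set YS := {p | d.f p.1 k = b}

theorem Ck_meas (k : ℕ) (b : Bool) : MeasurableSet (Ck d k b) := by
  have h : Measurable (fun p : YS => d.f p.1 k) := (measurable_pi_apply k).comp (d.hf.comp measurable_fst)
  exact h (measurableSet_singleton b)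

theorem Ck_inv (k : ℕ) (b : Bool) : Inv (Ck d k b) := by
  intro y hy i S
  show d.f (act (gen i) y) k = b ↔ d.f y k = b
  rw [d.inv y hy]

theorem Ck_ind (k : ℕ) (b : Bool) : Ind (Ck d k b) := fun _ _ _ h => h

variable (d) in
/-- the finite intersections -/
def Bk (r : ℕ → Bool) (k : ℕ) : Set YS := {p | ∀ j < k, d.f p.1 j = r j}

theorem Bk_succ (r : ℕ → Bool) (k : ℕ) : Bk d r (k + 1) = Bk d r k ∩ Ck d k (r k) := by
  ext p
  constructor
  · intro h
    exact ⟨fun j hj => h j (by omega), h k (by omega)⟩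
  · rintro ⟨h1, h2⟩ j hj
    rcases Nat.lt_or_ge j k with h3 | h3
    · exact h1 j h3
    · obtain rfl : j = k := by omega
      exact h2

theorem Bk_meas (r : ℕ → Bool) (k : ℕ) : MeasurableSet (Bk d r k) := by
  induction k with
  | zero =>
    have : Bk d r 0 = Set.univ := by ext p; simp [Bk]
    rw [this]; exact MeasurableSet.univ
  | succ k ih => rw [Bk_succ]; exact ih.inter (Ck_meas _ _)

theorem Bk_inv (r : ℕ → Bool) (k : ℕ) : Inv (Bk d r k) := by
  intro y hy i S
  show (∀ j < k, d.f (act (gen i) y) j = r j) ↔ ∀ j < k, d.f y j = r j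
  rw [d.inv y hy]

theorem Bk_ind (r : ℕ → Bool) (k : ℕ) : Ind (Bk d r k) := fun _ _ _ h => h

/-- the real `r*` -/
theorem exists_r (d : Dat) : ∃ r : ℕ → Bool, ∀ k, U d 2 (Bk d r k) := by
  have h : ∀ k, ∃ b, U d 2 (Ck d k b) := by
    intro k
    rcases U_or (i := (2 : Fin 3)) (Ck_meas (d := d) k true) (Ck_inv k true) (Ck_ind k true) with h | h
    · exact ⟨true, h⟩
    · refine ⟨false, ?_⟩
      have e : (Ck d k true)ᶜ = Ck d k false := by
        ext p
        simp [Ck]
      rwa [e] at h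
  choose r hr using h
  refine ⟨r, fun k => ?_⟩
  induction k with
  | zero =>
    have : Bk d r 0 = Set.univ := by ext p; simp [Bk]
    rw [this]; exact U_univ 2
  | succ k ih =>
    rw [Bk_succ]
    exact U_inter (Bk_meas _ _) (Bk_inv _ _) (Bk_ind _ _) (Ck_meas _ _) (Ck_inv _ _) (Ck_ind _ _) ih (hr k)

variable (d) in
/-- the set of the final game -/
def Bs (r : ℕ → Bool) : Set YS :=
  {p | ∃ n, d.f p.1 n ≠ r n ∧ (∀ j < n, d.f p.1 j = r j) ∧ p.2 n = true}

theorem Bs_meas (r : ℕ → Bool) : MeasurableSet (Bs d r) := by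
  have e : Bs d r = ⋃ n, ((Ck d n (r n))ᶜ ∩ (Bk d r n ∩ {p : YS | p.2 n = true})) := by
    ext p
    simp only [Bs, Set.mem_ofPred_eq, Set.mem_iUnion, Set.mem_inter_iff, Set.mem_compl_iff, Ck, Bk]
  rw [e]
  refine MeasurableSet.iUnion fun n => (Ck_meas _ _).compl.inter ((Bk_meas _ _).inter ?_)
  have h : Measurable (fun p : YS => p.2 n) := (measurable_pi_apply n).comp measurable_snd
  exact h (measurableSet_singleton true)

theorem Bs_inv (r : ℕ → Bool) : Inv (Bs d r) := by
  intro y hy i S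
  show (∃ n, d.f (act (gen i) y) n ≠ r n ∧ (∀ j < n, d.f (act (gen i) y) j = r j) ∧ S n = true) ↔
    ∃ n, d.f y n ≠ r n ∧ (∀ j < n, d.f y j = r j) ∧ S n = true
  rw [d.inv y hy]

theorem mem_Bs {r : ℕ → Bool} {y : Gam → ℕ → Bool} {S : ℕ → Bool} {n : ℕ} (h1 : d.f y n ≠ r n)
    (h2 : ∀ j < n, d.f y j = r j) : (y, S) ∈ Bs d r ↔ S n = true := by
  constructor
  · rintro ⟨n', h3, h4, h5⟩
    rcases lt_trichotomy n n' with h | h | h
    · exact (h1 (h4 n h)).elim
    · rw [h]; exact h5
    · exact (h3 (h2 n' h)).elim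
  · intro h3
    exact ⟨n, h1, h2, h3⟩

/-- the last step, the case of equal answers -/
theorem equal_case {r : ℕ → Bool} (hr : ∀ k, U d 2 (Bk d r k)) {m : ℕ} {u : ℕ → Bool} {g : Set YS}
    (hg : ∀ (y : Gam → ℕ → Bool) (S S' : ℕ → Bool) (n : ℕ), d.f y n ≠ r n → (∀ j < n, d.f y j = r j) →
      (y, S) ∈ g → (y, S') ∈ g → S n = S' n)
    (h0 : W d 0 m u g) (h1 : W d 1 m u g) : False := by
  have h2 := W_xor d h1 (fun _ => true)
  obtain ⟨y, _, S, h3, h4⟩ := vertex d (m := m) ![u, fun k => xor (u k) true, u]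
    ![g, {p | (p.1, fun k => xor (p.2 k) true) ∈ g}, Bk d r m] (by
      intro j
      fin_cases j
      · exact h0
      · exact h2
      · exact hr m m u) {r} (Set.countable_singleton r)
  have h5 : d.f y ≠ r := h3
  have hex : ∃ n, d.f y n ≠ r n := by
    by_contra hcon
    push Not at hcon
    exact h5 (funext hcon)
  classical
  have h6 := Nat.find_spec hex
  have h7 : ∀ j < Nat.find hex, d.f y j = r j := fun j hj => not_not.1 (Nat.find_min hex hj)
  have h8 : ∀ j < m, d.f y j = r j := h4 2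
  have h9 : m ≤ Nat.find hex := by
    by_contra hcon
    exact h6 (h8 _ (not_le.1 hcon))
  have h10 := hg y _ _ _ h6 h7 (h4 0) (h4 1)
  simp only [Matrix.cons_val_zero, Matrix.cons_val_one, if_neg (not_lt.2 h9)] at h10
  cases hS : S (Nat.find hex) <;> rw [hS] at h10 <;> simp at h10

end ThmA

open ThmA in
theorem noDat (d : Dat) : False := by
  obtain ⟨r, hr⟩ := exists_r d
  obtain ⟨m0, u0, _, _, h0⟩ := decide_W (d := d) (Bs_meas r) (Bs_inv r) 0 0 (fun _ => false)
  obtain ⟨m, u, hm, hu, h1⟩ := decide_W (d := d) (Bs_meas r) (Bs_inv r) 1 m0 u0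
  have h0' : W d 0 m u (Bs d r) ∨ W d 0 m u (Bs d r)ᶜ := by
    rcases h0 with h | h
    · exact Or.inl (W_pers d h hm hu)
    · exact Or.inr (W_pers d h hm hu)
  have mixed : ∀ g g' : Set YS, Disjoint g g' → W d 0 m u g → W d 1 m u g' → False := by
    intro g g' hgg h2 h3
    obtain ⟨y, _, S, _, h4⟩ := vertex d (m := m) (fun _ => u) ![g, g', Set.univ] (by
      intro j
      fin_cases j
      · exact h2
      · exact h3
      · exact U_univ 2 m u) ∅ Set.countable_empty
    exact Set.disjoint_left.1 hgg (h4 0) (h4 1)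
  rcases h0' with h2 | h2 <;> rcases h1 with h3 | h3
  · refine equal_case hr ?_ h2 h3
    intro y S S' n a b c e
    rw [mem_Bs a b] at c e
    rw [c, e]
  · exact mixed _ _ disjoint_compl_right h2 h3
  · exact mixed _ _ disjoint_compl_left h2 h3
  · refine equal_case hr ?_ h2 h3
    intro y S S' n a b c e
    rw [Set.mem_compl_iff, mem_Bs a b, Bool.not_eq_true] at c e
    rw [c, e]

end Pool.Agent.Helper701.Marks
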