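import Pool.Agent.Helper701_Marks.Grp

/-! # Theorem B, part 1: the Bernoulli measure and Walsh functions -/

set_option autoImplicit false

open MeasureTheory Measure
open scoped ENNReal

namespace Pool.Agent.Helper701.Marks.ThmB

/-! ## The fair coin -/

/-- the fair coin -/
noncomputable def nu : Measure Bool := (2⁻¹ : ℝ≥0∞) • (Measure.dirac true + Measure.dirac false)

instance : IsProbabilityMeasure nu := by
  constructor
  simp only [nu, Measure.smul_apply, Measure.coe_add, Pi.add_apply, measure_univ, smul_eq_mul]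
  rw [one_add_one_eq_two]
  exact ENNReal.inv_mul_cancel two_ne_zero ENNReal.ofNat_ne_top

theorem nu_map_not : nu.map (fun b => !b) = nu := by
  have hm : Measurable (fun b : Bool => !b) := measurable_from_top
  unfold nu
  rw [Measure.map_smul, Measure.map_add _ _ hm, Measure.map_dirac' hm, Measure.map_dirac' hm, add_comm]
  rfl

/-! ## The Bernoulli measure -/

/-- the Bernoulli measure -/
noncomputable def mu : Measure (Gam → Bool) := Measure.infinitePi (fun _ : Gam => nu)

instance : IsProbabilityMeasure mu := by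
  unfold mu
  infer_instance

open Classical in
/-- flip the coordinate `g` -/
noncomputable def flip (g : Gam) (x : Gam → Bool) : Gam → Bool := fun k => if k = g then !(x k) else x k

theorem flip_self (g : Gam) (x : Gam → Bool) : flip g x g = !(x g) := by simp [flip]

theorem flip_ne {g k : Gam} (h : k ≠ g) (x : Gam → Bool) : flip g x k = x k := by simp [flip, h]

theorem mp_flip (g : Gam) : MeasurePreserving (flip g) mu mu := by
  classical
  have hf : ∀ k : Gam, Measurable (fun b : Bool => if k = g then !b else b) := fun k => measurable_from_top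
  refine ⟨?_, ?_⟩
  · refine measurable_pi_lambda _ (fun k => ?_)
    exact (hf k).comp (measurable_pi_apply k)
  · have h1 := Measure.infinitePi_map_pi (fun _ : Gam => nu) hf
    have h2 : ∀ k : Gam, nu.map (fun b : Bool => if k = g then !b else b) = nu := by
      intro k
      by_cases hk : k = g
      · simp only [hk, if_true]
        exact nu_map_not
      · simp only [hk, if_false]
        exact Measure.map_id
    unfold mu
    refine Eq.trans h1 ?_
    congr 1
    funext k
    exact h2 k

theorem mp_act (d : Gam) : MeasurePreserving (act (α := Bool) d) mu mu := by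
  have hm : Measurable (act (α := Bool) d) :=
    measurable_pi_lambda _ (fun k => measurable_pi_apply (d⁻¹ * k))
  refine ⟨hm, ?_⟩
  unfold mu
  refine Measure.eq_infinitePi _ (fun s t ht => ?_)
  rw [Measure.map_apply hm (.pi s.countable_toSet fun _ _ => ht _)]
  have h1 : (act (α := Bool) d) ⁻¹' (Set.pi (s : Set Gam) t) =
      Set.pi ((s.map (mulLeftEmbedding d⁻¹) : Finset Gam) : Set Gam) (fun h => t (d * h)) := by
    ext x
    simp only [Set.mem_preimage, Set.mem_pi, Finset.mem_coe, Finset.mem_map, mulLeftEmbedding_apply, act]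
    constructor
    · rintro h k ⟨g, hg, rfl⟩
      rw [mul_inv_cancel_left]
      exact h g hg
    · intro h g hg
      have := h (d⁻¹ * g) ⟨g, hg, rfl⟩
      rwa [mul_inv_cancel_left] at this
  rw [h1, Measure.infinitePi_pi _ (fun i _ => ht _), Finset.prod_map]
  refine Finset.prod_congr rfl (fun g _ => ?_)
  rw [mulLeftEmbedding_apply, mul_inv_cancel_left]

/-! ## Walsh functions -/

/-- sign -/
def sg (b : Bool) : ℝ := if b = true then -1 else 1

theorem sg_mul_self (b : Bool) : sg b * sg b = 1 := by cases b <;> simp [sg]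

theorem sg_not (b : Bool) : sg (!b) = - sg b := by cases b <;> simp [sg]

theorem sg_abs (b : Bool) : |sg b| = 1 := by cases b <;> simp [sg]

/-- Walsh functions -/
noncomputable def chi (F : Finset Gam) (x : Gam → Bool) : ℝ := ∏ g ∈ F, sg (x g)

theorem chi_mul_self (F : Finset Gam) (x : Gam → Bool) : chi F x * chi F x = 1 := by
  unfold chi
  rw [← Finset.prod_mul_distrib]
  exact Finset.prod_eq_one (fun g _ => sg_mul_self _)

theorem chi_abs (F : Finset Gam) (x : Gam → Bool) : |chi F x| = 1 := by
  unfold chi
  rw [Finset.abs_prod]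
  exact Finset.prod_eq_one (fun g _ => sg_abs _)

theorem measurable_sg : Measurable sg := measurable_from_top

theorem measurable_chi (F : Finset Gam) : Measurable (chi F) := by
  unfold chi
  exact Finset.measurable_prod F (fun g _ => measurable_sg.comp (measurable_pi_apply g))

theorem chi_flip_mem {F : Finset Gam} {g : Gam} (h : g ∈ F) (x : Gam → Bool) : chi F (flip g x) = - chi F x := by
  classical
  unfold chi
  rw [← Finset.mul_prod_erase F _ h, ← Finset.mul_prod_erase F (fun k => sg (x k)) h, flip_self, sg_not, neg_mul]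
  congr 2
  refine Finset.prod_congr rfl (fun k hk => ?_)
  rw [flip_ne (Finset.ne_of_mem_erase hk)]

theorem chi_flip_notMem {F : Finset Gam} {g : Gam} (h : g ∉ F) (x : Gam → Bool) : chi F (flip g x) = chi F x := by
  unfold chi
  refine Finset.prod_congr rfl (fun k hk => ?_)
  have hkg : k ≠ g := fun e => h (e ▸ hk)
  rw [flip_ne hkg]

theorem integrable_of_bdd {u : (Gam → Bool) → ℝ} (hu : Measurable u) {C : ℝ} (hC : ∀ x, |u x| ≤ C) : Integrable u mu :=
  Integrable.of_bound hu.aestronglyMeasurable C (Filter.Eventually.of_forall (fun x => by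
    rw [Real.norm_eq_abs]; exact hC x))

theorem integrable_chi_mul (F G : Finset Gam) : Integrable (fun x => chi F x * chi G x) mu :=
  integrable_of_bdd ((measurable_chi F).mul (measurable_chi G)) (C := 1) (fun x => by
    rw [abs_mul, chi_abs, chi_abs, mul_one])

theorem integral_comp_mp {T : (Gam → Bool) → Gam → Bool} (hT : MeasurePreserving T mu mu) {u : (Gam → Bool) → ℝ}
    (hu : Measurable u) : ∫ x, u (T x) ∂mu = ∫ x, u x ∂mu := by
  conv_rhs => rw [← hT.map_eq]
  rw [integral_map hT.measurable.aemeasurable hu.aestronglyMeasurable]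

theorem integral_chi_ne {F G : Finset Gam} (h : F ≠ G) : ∫ x, chi F x * chi G x ∂mu = 0 := by
  classical
  have key : ∀ {F G : Finset Gam} {g : Gam}, g ∈ F → g ∉ G → ∫ x, chi F x * chi G x ∂mu = 0 := by
    intro F G g hF hG
    have h1 := integral_comp_mp (mp_flip g) (u := fun x => chi F x * chi G x) ((measurable_chi F).mul (measurable_chi G))
    have h2 : ∀ x, chi F (flip g x) * chi G (flip g x) = - (chi F x * chi G x) := by
      intro x
      rw [chi_flip_mem hF, chi_flip_notMem hG, neg_mul]
    simp only [h2] at h1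
    rw [integral_neg] at h1
    linarith
  obtain ⟨g, hg⟩ : ∃ g, ¬ (g ∈ F ↔ g ∈ G) := by
    by_contra hcon
    push Not at hcon
    exact h (Finset.ext hcon)
  by_cases hF : g ∈ F
  · exact key hF (fun hG => hg (iff_of_true hF hG))
  · have hG : g ∈ G := by
      by_contra hG
      exact hg (iff_of_false hF hG)
    have := key hG hF
    simp only [mul_comm] at this ⊢
    exact this

theorem integral_chi_self (F : Finset Gam) : ∫ x, chi F x * chi F x ∂mu = 1 := by
  simp [chi_mul_self]

theorem integral_sq (S : Finset (Finset Gam)) (a : Finset Gam → ℝ) :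
    ∫ x, (∑ F ∈ S, a F * chi F x) ^ 2 ∂mu = ∑ F ∈ S, a F ^ 2 := by
  classical
  have h1 : ∀ x, (∑ F ∈ S, a F * chi F x) ^ 2 = ∑ F ∈ S, ∑ G ∈ S, (a F * a G) * (chi F x * chi G x) := by
    intro x
    rw [sq, Finset.sum_mul_sum]
    refine Finset.sum_congr rfl (fun F _ => Finset.sum_congr rfl (fun G _ => ?_))
    ring
  simp only [h1]
  rw [integral_finsetSum S (fun F _ => integrable_finsetSum S (fun G _ => (integrable_chi_mul F G).const_mul _))]
  refine Finset.sum_congr rfl (fun F hF => ?_)
  rw [integral_finsetSum S (fun G _ => (integrable_chi_mul F G).const_mul _)]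
  rw [Finset.sum_eq_single F]
  · rw [integral_const_mul, integral_chi_self, mul_one, sq]
  · intro G _ hG
    rw [integral_const_mul, integral_chi_ne (Ne.symm hG), mul_zero]
  · intro h
    exact absurd hF h

theorem chi_act (d : Gam) (F : Finset Gam) (x : Gam → Bool) :
    chi F (act d x) = chi (F.map (mulLeftEmbedding d⁻¹)) x := by
  unfold chi
  rw [Finset.prod_map]
  rfl

/-! ## The free part -/

theorem measurable_lin (S : Finset (Finset Gam)) (a : Finset Gam → ℝ) :
    Measurable (fun x => ∑ F ∈ S, a F * chi F x) :=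
  Finset.measurable_sum S (fun F _ => (measurable_chi F).const_mul _)

theorem lin_abs_le (S : Finset (Finset Gam)) (a : Finset Gam → ℝ) (x : Gam → Bool) :
    |∑ F ∈ S, a F * chi F x| ≤ ∑ F ∈ S, |a F| := by
  refine (Finset.abs_sum_le_sum_abs _ _).trans (Finset.sum_le_sum (fun F _ => ?_))
  rw [abs_mul, chi_abs, mul_one]

theorem fixed_null {d : Gam} (hd : d ≠ 1) : mu {x | act d x = x} = 0 := by
  classical
  have hinf : (Set.range (fun g : Gam => ({g, d⁻¹ * g} : Finset Gam))).Infinite := by
    intro hfin
    have h1 : (⋃ F ∈ Set.range (fun g : Gam => ({g, d⁻¹ * g} : Finset Gam)), (F : Set Gam)).Finite :=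
      hfin.biUnion (fun F _ => F.finite_toSet)
    refine (Set.infinite_univ (α := Gam)) (h1.subset (fun g _ => ?_))
    simp only [Set.mem_iUnion]
    exact ⟨_, ⟨g, rfl⟩, by simp⟩
  have key : ∀ N : ℕ, 1 ≤ N → mu.real {x | act d x = x} * N ≤ 1 := by
    intro N hN
    obtain ⟨t, ht, hcard⟩ := hinf.exists_subset_card_eq N
    have h1 : ∀ x ∈ {x : Gam → Bool | act d x = x}, (∑ F ∈ t, (1 : ℝ) * chi F x) ^ 2 = (N : ℝ) ^ 2 := by
      intro x hx
      have h2 : ∀ F ∈ t, (1 : ℝ) * chi F x = 1 := by
        intro F hF
        obtain ⟨g, rfl⟩ := ht hF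
        have hg : g ≠ d⁻¹ * g := by
          intro e
          apply hd
          have h3 : d⁻¹ = 1 := by
            have h4 : d⁻¹ * g = 1 * g := by rw [one_mul]; exact e.symm
            exact mul_right_cancel h4
          rwa [inv_eq_one] at h3
        have h5 : x (d⁻¹ * g) = x g := congrFun hx g
        show (1 : ℝ) * chi ({g, d⁻¹ * g} : Finset Gam) x = 1
        unfold chi
        rw [Finset.prod_pair hg, h5, sg_mul_self, one_mul]
      rw [Finset.sum_congr rfl h2, Finset.sum_const, hcard, nsmul_eq_mul, mul_one]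
    have hmeas : Measurable (fun x => (∑ F ∈ t, (1 : ℝ) * chi F x) ^ 2) := (measurable_lin t (fun _ => 1)).pow_const 2
    have hint : Integrable (fun x => (∑ F ∈ t, (1 : ℝ) * chi F x) ^ 2) mu := by
      refine integrable_of_bdd hmeas (C := (∑ F ∈ t, |(1 : ℝ)|) ^ 2) (fun x => ?_)
      rw [abs_pow]
      exact pow_le_pow_left₀ (abs_nonneg _) (lin_abs_le t (fun _ => 1) x) 2
    have h3 := mul_meas_ge_le_integral_of_nonneg (μ := mu)
      (Filter.Eventually.of_forall (fun x => sq_nonneg (∑ F ∈ t, (1 : ℝ) * chi F x))) hint ((N : ℝ) ^ 2)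
    rw [integral_sq t (fun _ => 1)] at h3
    simp only [one_pow, Finset.sum_const, hcard, nsmul_eq_mul, mul_one] at h3
    have h4 : mu.real {x | act d x = x} ≤ mu.real {x | (N : ℝ) ^ 2 ≤ (∑ F ∈ t, (1 : ℝ) * chi F x) ^ 2} :=
      measureReal_mono (fun x hx => (h1 x hx).ge)
    have hN' : (0 : ℝ) < N := by exact_mod_cast hN
    have h5 : (N : ℝ) ^ 2 * mu.real {x | act d x = x} ≤ N :=
      (mul_le_mul_of_nonneg_left h4 (by positivity)).trans h3
    nlinarith
  have h0 : mu.real {x | act d x = x} = 0 := by
    by_contra hne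
    have hpos : 0 < mu.real {x | act d x = x} := lt_of_le_of_ne measureReal_nonneg (Ne.symm hne)
    obtain ⟨N, hN⟩ := exists_nat_gt (1 / mu.real {x | act d x = x})
    have hN0 : 1 ≤ N := by
      rcases Nat.eq_zero_or_pos N with h | h
      · rw [h] at hN
        have : 0 < 1 / mu.real {x | act d x = x} := by positivity
        simp only [Nat.cast_zero] at hN
        linarith
      · exact h
    have h1 := key N hN0
    rw [div_lt_iff₀ hpos] at hN
    linarith
  rwa [measureReal_eq_zero_iff] at h0

theorem ae_free : ∀ᵐ x ∂mu, ∀ γ : Gam, γ ≠ 1 → act γ x ≠ x := by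
  rw [ae_all_iff]
  intro γ
  by_cases h : γ = 1
  · exact Filter.Eventually.of_forall (fun x h' => absurd h h')
  · have h1 := fixed_null h
    filter_upwards [measure_eq_zero_iff_ae_notMem.1 h1] with x hx _ hx'
    exact hx hx'

end Pool.Agent.Helper701.Marks.ThmB
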