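import Pool.Agent.Helper701_Marks.ThmB1

/-! # Theorem B, part 2: cylinder approximation and Walsh expansion -/

set_option autoImplicit false

open MeasureTheory Measure Filter
open scoped ENNReal Topology

namespace Pool.Agent.Helper701.Marks.ThmB

/-! ## Walsh expansion -/

open Classical in
/-- the indicator of a finite set -/
noncomputable def ind (s : Finset Gam) : Gam → Bool := fun g => decide (g ∈ s)

theorem sum_chi_mul (T : Finset Gam) (x y : Gam → Bool) :
    ∑ F ∈ T.powerset, chi F x * chi F y = ∏ g ∈ T, (1 + sg (x g) * sg (y g)) := by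
  rw [Finset.prod_one_add]
  refine Finset.sum_congr rfl (fun F _ => ?_)
  unfold chi
  rw [Finset.prod_mul_distrib]

theorem sg_eq_iff (a b : Bool) : sg a * sg b = if a = b then 1 else -1 := by
  cases a <;> cases b <;> simp [sg]

theorem prod_eq (T : Finset Gam) (x y : Gam → Bool) :
    ∏ g ∈ T, (1 + sg (x g) * sg (y g)) = if (∀ g ∈ T, x g = y g) then (2 : ℝ) ^ T.card else 0 := by
  split_ifs with h
  · rw [Finset.prod_congr rfl (g := fun _ => (2 : ℝ)) (fun g hg => by rw [h g hg, sg_mul_self]; norm_num)]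
    rw [Finset.prod_const]
  · push Not at h
    obtain ⟨g, hg, hne⟩ := h
    refine Finset.prod_eq_zero hg ?_
    rw [sg_eq_iff, if_neg hne]
    norm_num

theorem expand (T : Finset Gam) (u : (Gam → Bool) → ℝ) (hu : ∀ x y : Gam → Bool, (∀ g ∈ T, x g = y g) → u x = u y) :
    ∃ a : Finset Gam → ℝ, (∀ F, F ∉ T.powerset → a F = 0) ∧ ∀ x, u x = ∑ F ∈ T.powerset, a F * chi F x := by
  classical
  refine ⟨fun F => if F ∈ T.powerset then ((2 : ℝ) ^ T.card)⁻¹ * ∑ s ∈ T.powerset, u (ind s) * chi F (ind s) else 0,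
    fun F hF => if_neg hF, fun x => ?_⟩
  have h1 : ∀ F ∈ T.powerset, (if F ∈ T.powerset then ((2 : ℝ) ^ T.card)⁻¹ * ∑ s ∈ T.powerset, u (ind s) * chi F (ind s) else 0) * chi F x =
      ∑ s ∈ T.powerset, ((2 : ℝ) ^ T.card)⁻¹ * u (ind s) * (chi F (ind s) * chi F x) := by
    intro F hF
    rw [if_pos hF, Finset.mul_sum, Finset.sum_mul]
    refine Finset.sum_congr rfl (fun s _ => ?_)
    ring
  rw [Finset.sum_congr rfl h1, Finset.sum_comm]
  have h2 : ∀ s ∈ T.powerset, ∑ F ∈ T.powerset, ((2 : ℝ) ^ T.card)⁻¹ * u (ind s) * (chi F (ind s) * chi F x) =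
      if s = T.filter (fun g => x g = true) then u x else 0 := by
    intro s hs
    rw [← Finset.mul_sum, sum_chi_mul, prod_eq]
    have hs' : s ⊆ T := Finset.mem_powerset.1 hs
    by_cases h : ∀ g ∈ T, ind s g = x g
    · have hs2 : s = T.filter (fun g => x g = true) := by
        ext g
        rw [Finset.mem_filter]
        constructor
        · intro hg
          refine ⟨hs' hg, ?_⟩
          rw [← h g (hs' hg)]
          simp [ind, hg]
        · rintro ⟨hg, hx⟩
          have := h g hg
          rw [hx] at this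
          simpa [ind] using this
      rw [if_pos h, if_pos hs2, hu _ _ h]
      have h3 : (2 : ℝ) ^ T.card ≠ 0 := by positivity
      field_simp
    · have hs2 : s ≠ T.filter (fun g => x g = true) := by
        intro e
        apply h
        intro g hg
        rw [e]
        unfold ind
        cases hx : x g <;> simp [Finset.mem_filter, hg, hx]
      rw [if_neg h, if_neg hs2, mul_zero]
  rw [Finset.sum_congr rfl h2, Finset.sum_ite_eq', if_pos]
  exact Finset.mem_powerset.2 (Finset.filter_subset _ _)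

/-! ## Cylinders are dense -/

theorem dense_cyl : mu.MeasureDense (measurableCylinders (fun _ : Gam => Bool)) :=
  Measure.MeasureDense.of_generateFrom_isSetAlgebra_finite mu
    ⟨empty_mem_measurableCylinders _, fun _ h => compl_mem_measurableCylinders h,
      fun _ _ h h' => union_mem_measurableCylinders h h'⟩ generateFrom_measurableCylinders.symm

theorem approx_set {A : Set (Gam → Bool)} (hA : MeasurableSet A) {ε : ℝ} (hε : 0 < ε) :
    ∃ (T : Finset Gam) (C : Set (Gam → Bool)), MeasurableSet C ∧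
      (∀ x y : Gam → Bool, (∀ g ∈ T, x g = y g) → (x ∈ C ↔ y ∈ C)) ∧ mu.real (symmDiff A C) ≤ ε := by
  obtain ⟨C, hC, h⟩ := dense_cyl.approx A hA (measure_ne_top _ _) ε hε
  obtain ⟨T, S, hS, rfl⟩ := (mem_measurableCylinders C).1 hC
  refine ⟨T, cylinder T S, MeasurableSet.cylinder T hS, ?_, ?_⟩
  · intro x y hxy
    rw [mem_cylinder, mem_cylinder]
    have : Finset.restrict T x = Finset.restrict T y := by
      funext g
      exact hxy g.1 g.2
    rw [this]
  · exact ENNReal.toReal_le_of_le_ofReal hε.le h.le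

/-! ## The exceptional sets are small -/

theorem tendsto_bad (p : ℕ → (Gam → Bool) → Bool) (hp : ∀ K, Measurable (p K))
    (h : ∀ x : Gam → Bool, (∀ γ : Gam, γ ≠ 1 → act γ x ≠ x) → ∀ i : Fin 3,
      ∃ N, ∀ K, N ≤ K → p K (act (gen i) x) ≠ p K x) (i : Fin 3) :
    Tendsto (fun K => mu {x | p K (act (gen i) x) = p K x}) atTop (𝓝 0) := by
  have hm : ∀ K, MeasurableSet {x | p K (act (gen i) x) = p K x} := fun K =>
    measurableSet_eq_fun ((hp K).comp (mp_act (gen i)).measurable) (hp K)
  have h1 := tendsto_measure_of_ae_tendsto_indicator_of_isFiniteMeasure (μ := mu) atTop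
    (A := ∅) MeasurableSet.empty hm (by
      filter_upwards [ae_free] with x hx
      obtain ⟨N, hN⟩ := h x hx i
      filter_upwards [eventually_ge_atTop N] with K hK
      simpa using hN K hK)
  simpa using h1

theorem exists_small (p : ℕ → (Gam → Bool) → Bool) (hp : ∀ K, Measurable (p K))
    (h : ∀ x : Gam → Bool, (∀ γ : Gam, γ ≠ 1 → act γ x ≠ x) → ∀ i : Fin 3,
      ∃ N, ∀ K, N ≤ K → p K (act (gen i) x) ≠ p K x) {ε : ℝ} (hε : 0 < ε) :
    ∃ K, ∀ i : Fin 3, mu.real {x | p K (act (gen i) x) = p K x} ≤ ε := by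
  have h1 : ∀ i : Fin 3, ∀ᶠ K in atTop, mu.real {x | p K (act (gen i) x) = p K x} ≤ ε := by
    intro i
    have h2 := tendsto_bad p hp h i
    have h3 : ∀ᶠ K in atTop, mu {x | p K (act (gen i) x) = p K x} < ENNReal.ofReal ε :=
      h2.eventually_lt_const (ENNReal.ofReal_pos.2 hε)
    filter_upwards [h3] with K hK
    exact ENNReal.toReal_le_of_le_ofReal hε.le hK.le
  exact (eventually_all.2 h1).exists

/-! ## Translation of Walsh polynomials -/

/-- translate a finite set by the involution `gen i` -/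
def tl (i : Fin 3) (F : Finset Gam) : Finset Gam := F.map (mulLeftEmbedding (gen i))

theorem tl_tl (i : Fin 3) (F : Finset Gam) : tl i (tl i F) = F := by
  ext g
  simp only [tl, Finset.mem_map, mulLeftEmbedding_apply]
  constructor
  · rintro ⟨k, ⟨l, hl, rfl⟩, rfl⟩
    rwa [gen_mul_cancel]
  · intro hg
    exact ⟨gen i * g, ⟨g, hg, rfl⟩, gen_mul_cancel i g⟩

theorem chi_gen (i : Fin 3) (F : Finset Gam) (x : Gam → Bool) : chi F (act (gen i) x) = chi (tl i F) x := by
  rw [chi_act, gen_inv]
  rfl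

theorem shift_sq (P : Finset (Finset Gam)) (a : Finset Gam → ℝ) (ha : ∀ F, F ∉ P → a F = 0) (i : Fin 3) :
    ∑ F ∈ P, (a F + a (tl i F)) ^ 2 ≤
      ∫ x, ((∑ F ∈ P, a F * chi F (act (gen i) x)) + ∑ F ∈ P, a F * chi F x) ^ 2 ∂mu := by
  classical
  have hinj : Function.Injective (tl i) := fun F G e => by rw [← tl_tl i F, e, tl_tl]
  set Q := P ∪ P.image (tl i) with hQ
  have h1 : ∀ x, (∑ F ∈ P, a F * chi F (act (gen i) x)) + ∑ F ∈ P, a F * chi F x =
      ∑ F ∈ Q, (a F + a (tl i F)) * chi F x := by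
    intro x
    have e1 : ∑ F ∈ P, a F * chi F x = ∑ F ∈ Q, a F * chi F x := by
      refine Finset.sum_subset Finset.subset_union_left (fun F _ hF => ?_)
      rw [ha F hF, zero_mul]
    have e2 : ∑ F ∈ P, a F * chi F (act (gen i) x) = ∑ F ∈ Q, a (tl i F) * chi F x := by
      have e3 : ∑ F ∈ P, a F * chi F (act (gen i) x) = ∑ F ∈ P.image (tl i), a (tl i F) * chi F x := by
        rw [Finset.sum_image (fun F _ G _ e => hinj e)]
        refine Finset.sum_congr rfl (fun F _ => ?_)
        rw [tl_tl, chi_gen]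
      rw [e3]
      refine Finset.sum_subset Finset.subset_union_right (fun F _ hF => ?_)
      have : tl i F ∉ P := fun h' => hF (Finset.mem_image.2 ⟨tl i F, h', tl_tl i F⟩)
      rw [ha _ this, zero_mul]
    rw [e1, e2, ← Finset.sum_add_distrib]
    refine Finset.sum_congr rfl (fun F _ => ?_)
    ring
  simp only [h1]
  rw [integral_sq Q (fun F => a F + a (tl i F))]
  exact Finset.sum_le_sum_of_subset_of_nonneg Finset.subset_union_left (fun F _ _ => sq_nonneg _)

end Pool.Agent.Helper701.Marks.ThmB
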