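import Pool.Agent.Helper701_Marks.Det2
import Pool.Agent.Helper701_Marks.Play
import Pool.Agent.Helper701_Marks.PayQB

/-! # The relations `W` and `NN` -/

set_option autoImplicit false

namespace Pool.Agent.Helper701.Marks

variable (d : Dat)

theorem W_det {i : Fin 3} {m : ℕ} {u : ℕ → Bool} {B : Set ((Gam → ℕ → Bool) × (ℕ → Bool))}
    (hB : MeasurableSet B) (h : ¬ W d i m u B) :
    ∃ (m' : ℕ) (u' : ℕ → Bool), m < m' ∧ (∀ k < m, u' k = u k) ∧ NN d i m' u' Bᶜ := by
  unfold W at h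
  push Not at h
  obtain ⟨s, hm, hF, hS, hw⟩ := h
  rcases det2 (Ext (R i)) (Ext (R i)ᶜ) (exists_ext _) (exists_ext _) s _ (qb_pay d i B hB) with h1 | ⟨t, ht, h1⟩
  · exact (hw h1).elim
  · refine ⟨t.m, t.S, ?_, ?_, t, rfl, ?_, fun _ _ => rfl, ?_⟩
    · rw [← hm]; exact ht.lt
    · intro k hk
      rw [ht.S k (by rw [hm]; exact hk), hS k hk]
    · intro g hg
      rcases ht.sup hg with h2 | h2
      · rw [hF] at h2
        rw [Set.mem_singleton_iff.1 h2]
        exact one_notMem i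
      · exact h2
    · rw [compl_compl]
      refine W2_mono h1 fun x hx h0 hx' => ?_
      have h2 : lim (pre s x) ∉ Pay d i B := hx'
      rw [lim_pre hx (by rw [h0]; exact ht.mono (Set.subset_univ _))] at h2
      exact h2

theorem W_pers {i : Fin 3} {m m' : ℕ} {u u' : ℕ → Bool} {B : Set ((Gam → ℕ → Bool) × (ℕ → Bool))}
    (h : W d i m u B) (hm : m ≤ m') (hu : ∀ k < m, u' k = u k) : W d i m' u' B := by
  intro s hsm hF hS
  rcases Nat.lt_or_ge m m' with h1 | h1
  · let s0 : St := ⟨m, {1}, s.z, s.S, s.D, by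
      intro g hg g' hg' _
      rw [Set.mem_singleton_iff.1 hg, Set.mem_singleton_iff.1 hg'], s.cnt⟩
    have h2 : Win2 (R i) (R i)ᶜ s0 (Pay d i B) := by
      apply h s0 rfl rfl
      intro k hk
      show s.S k = u k
      rw [hS k (by omega), hu k hk]
    apply h2.pers
    constructor
    · show m < s.m; omega
    · rw [hF]
    · rw [hF]; exact Set.subset_union_left
    · intro g _ k _; rfl
    · refine ⟨fun k => xor (s.z 1 k) (par 1), fun g hg k _ _ => ?_⟩
      have hg' : g = 1 := hg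
      rw [hg']
      simp
    · intro k _; rfl
    · exact subset_rfl
  · obtain rfl : m = m' := by omega
    exact h s hsm hF fun k hk => by rw [hS k hk, hu k hk]

theorem NN_pers {i : Fin 3} {m m' : ℕ} {u u' : ℕ → Bool} {B : Set ((Gam → ℕ → Bool) × (ℕ → Bool))}
    (h : NN d i m u B) (hm : m ≤ m') (hu : ∀ k < m, u' k = u k) : NN d i m' u' B := by
  obtain ⟨s, hsm, hF, hS, hw⟩ := h
  rcases Nat.lt_or_ge m m' with h1 | h1
  · obtain ⟨t, h2, h3, h4, h5⟩ := exists_ext0 s m' (by omega) u' (fun k hk => by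
      rw [hS k (by omega), hu k (by omega)])
    exact ⟨t, h3, by rw [h4]; exact hF, h5, hw.pers (h2.mono (Set.empty_subset _))⟩
  · obtain rfl : m = m' := by omega
    exact ⟨s, hsm, hF, fun k hk => by rw [hS k hk, hu k hk], hw⟩

theorem W_xor {i : Fin 3} {m : ℕ} {u : ℕ → Bool} {B : Set ((Gam → ℕ → Bool) × (ℕ → Bool))}
    (h : W d i m u B) (v : ℕ → Bool) :
    W d i m (fun k => xor (u k) (v k)) {p | (p.1, fun k => xor (p.2 k) (v k)) ∈ B} := by
  intro s hsm hF hS
  have h1 := (h (xo v s) hsm hF (by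
    intro k hk
    show xor (s.S k) (v k) = u k
    rw [hS k hk, Bool.xor_assoc, Bool.xor_self, Bool.xor_false])).xor v
  rw [xo_xo] at h1
  exact h1

theorem NN_xor {i : Fin 3} {m : ℕ} {u : ℕ → Bool} {B : Set ((Gam → ℕ → Bool) × (ℕ → Bool))}
    (h : NN d i m u B) (v : ℕ → Bool) :
    NN d i m (fun k => xor (u k) (v k)) {p | (p.1, fun k => xor (p.2 k) (v k)) ∈ B} := by
  obtain ⟨s, hsm, hF, hS, hw⟩ := h
  refine ⟨xo v s, hsm, hF, ?_, hw.xor v⟩
  intro k hk
  show xor (s.S k) (v k) = _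
  rw [hS k hk]

/-- the edge lemma -/
theorem edge {i : Fin 3} {m : ℕ} {u : ℕ → Bool} {B B' : Set ((Gam → ℕ → Bool) × (ℕ → Bool))}
    (hB' : Inv B') (hd : Disjoint B B') (h : NN d i m u B) (h' : NN d i m u B') : False := by
  obtain ⟨s, hsm, hF, hS, hw⟩ := h
  obtain ⟨s', hsm', hF', hS', hw'⟩ := h'
  have e1 : {g | gen i * g ∈ (R i)ᶜ} = R i := by
    ext g
    simp only [Set.mem_ofPred_eq, Set.mem_compl_iff, mem_R_iff, not_not]
  have e2 : {g | gen i * g ∈ R i} = (R i)ᶜ := by
    ext g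
    simp only [Set.mem_ofPred_eq, Set.mem_compl_iff, mem_R_iff]
  have hw2 := hw'.trans i
  rw [e1, e2] at hw2
  have hFt : (tr (gen i) s').F ⊆ R i := by
    intro g hg
    have h1 : (gen i)⁻¹ * g ∈ s'.F := hg
    rw [gen_inv] at h1
    by_contra h2
    exact hF' h1 ((mem_R_iff i g).2 h2)
  obtain ⟨j, hj1, hj2⟩ := exists_join i s (tr (gen i) s') (by show s.m = s'.m; omega) (by
    intro k hk
    show s.S k = s'.S k
    rw [hS k (by omega), hS' k (by omega)]) hF hFt
  have a1 := hw.pers hj1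
  have a2 := hw2.pers hj2
  obtain ⟨x, _, hc, hx⟩ := clash 2 le_rfl ![(R i)ᶜ, R i] ![R i, (R i)ᶜ] j
    ![(Pay d i Bᶜ)ᶜ, {l | trL (gen i) l ∈ (Pay d i B'ᶜ)ᶜ}] (by
      intro j
      fin_cases j
      · exact a1
      · exact a2) (by
      intro j l hjl
      fin_cases j <;> fin_cases l
      · exact (hjl rfl).elim
      · exact subset_rfl
      · exact subset_rfl
      · exact (hjl rfl).elim)
  have b1 : lim x ∉ Pay d i Bᶜ := hx 0
  have b2 : trL (gen i) (lim x) ∉ Pay d i B'ᶜ := hx 1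
  by_cases hu : (lim x).F = Set.univ
  · have hy := lim_mem_XS hc hu
    have hu' : (trL (gen i) (lim x)).F = Set.univ := by
      rw [Set.eq_univ_iff_forall]
      intro g
      show _ ∈ (lim x).F
      rw [hu]; trivial
    have hy' : (trL (gen i) (lim x)).y = act (gen i) (lim x).y := rfl
    simp only [Pay, Set.mem_ofPred_eq, not_or, not_and, Set.mem_compl_iff, not_not] at b1 b2
    have c1 := b1.2 hu
    have c2 := b2.2 hu'
    rw [hy', d.inv _ hy i] at c2
    by_cases hQ : d.f (lim x).y ∈ (lim x).Q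
    · exact d.col _ hy i ((c2.1 hQ).trans (c1.1 hQ).symm)
    · have d1 := c1.2 hQ
      have d2 : (act (gen i) (lim x).y, (lim x).S) ∈ B' := c2.2 hQ
      rw [hB' _ hy] at d2
      exact Set.disjoint_left.1 hd d1 d2
  · simp only [Pay, Set.mem_ofPred_eq, not_or, not_exists, not_and, Set.mem_compl_iff, not_forall,
      not_lt] at b1 b2
    have c1 : ∀ v, v ∉ (lim x).F → v ∉ R i → ∃ w, w ∉ (lim x).F ∧ w ∈ R i ∧ len w ≤ len v := by
      intro v h1 h2
      obtain ⟨w, h3, h4, h5⟩ := b1.1 v h1 h2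
      exact ⟨w, h3, h4, h5⟩
    have c2 : ∀ w, w ∉ (lim x).F → w ∈ R i → ∃ v, v ∉ (lim x).F ∧ v ∉ R i ∧ len v + 2 ≤ len w := by
      intro w h1 h2
      have h3 : gen i * w ∉ R i := fun h => (mem_R_iff i w).1 h h2
      have h4 : gen i * w ∉ (trL (gen i) (lim x)).F := by
        intro h
        have h' : (gen i)⁻¹ * (gen i * w) ∈ (lim x).F := h
        rw [inv_mul_cancel_left] at h'
        exact h1 h'
      obtain ⟨w', h5, h6, h7⟩ := b2.1 _ h4 h3
      refine ⟨gen i * w', ?_, fun h => (mem_R_iff i w').1 h h6, ?_⟩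
      · intro h
        apply h5
        show (gen i)⁻¹ * w' ∈ (lim x).F
        rw [gen_inv]; exact h
      · have h8 := len_of_mem i w h2
        have h9 := len_of_mem i w' h6
        omega
    have c3 : ∀ n v, len v < n → v ∉ (lim x).F → v ∉ R i → False := by
      intro n
      induction n with
      | zero => intro v h; omega
      | succ n ih =>
        intro v h1 h2 h3
        obtain ⟨w, h4, h5, h6⟩ := c1 v h2 h3
        obtain ⟨v', h7, h8, h9⟩ := c2 w h4 h5
        exact ih v' (by omega) h7 h8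
    rw [Set.eq_univ_iff_forall] at hu
    push Not at hu
    obtain ⟨g, hg⟩ := hu
    by_cases hgi : g ∈ R i
    · obtain ⟨v, h1, h2, _⟩ := c2 g hg hgi
      exact c3 _ v (Nat.lt_succ_self _) h1 h2
    · exact c3 _ g (Nat.lt_succ_self _) hg hgi

/-- the vertex lemma -/
theorem vertex {m : ℕ} (u : Fin 3 → ℕ → Bool) (B : Fin 3 → Set ((Gam → ℕ → Bool) × (ℕ → Bool)))
    (h : ∀ j, W d j m (u j) (B j)) (D0 : Set (ℕ → Bool)) (hD : D0.Countable) :
    ∃ y ∈ XS, ∃ (S : ℕ → Bool), d.f y ∉ D0 ∧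
      ∀ j, (y, fun k => if k < m then u j k else S k) ∈ B j := by
  let s : St := ⟨m, {1}, fun _ _ => false, u 0, D0, by
    intro g hg g' hg' _
    rw [Set.mem_singleton_iff.1 hg, Set.mem_singleton_iff.1 hg'], hD⟩
  let v : Fin 3 → ℕ → Bool := fun j k => if k < m then xor (u 0 k) (u j k) else false
  have hw : ∀ j, Win2 (R j) (R j)ᶜ s {l | xoL (v j) l ∈ Pay d j (B j)} := by
    intro j
    have h1 := (h j (xo (v j) s) rfl rfl (by
      intro k hk
      show xor (u 0 k) (v j k) = u j k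
      simp only [v, if_pos hk]
      rw [← Bool.xor_assoc, Bool.xor_self, Bool.false_xor])).xor (v j)
    rw [xo_xo] at h1
    exact h1
  obtain ⟨x, h0, hc, hx⟩ := clash 3 (by omega) R (fun j => (R j)ᶜ) s _ hw (by
    intro j l hjl g hg
    exact R_disj hjl hg)
  set l := lim x with hl
  have h1F : (1 : Gam) ∈ l.F := lim_F 0 (by rw [h0]; exact rfl)
  have hu : l.F = Set.univ := by
    by_contra hne
    have hmin : ∃ n, ∃ w, w ∉ l.F ∧ len w = n := by
      rw [Set.eq_univ_iff_forall] at hne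
      push Not at hne
      obtain ⟨g, hg⟩ := hne
      exact ⟨len g, g, hg, rfl⟩
    classical
    obtain ⟨w, hw1, hw2⟩ := Nat.find_spec hmin
    have hw3 : ∀ v, v ∉ l.F → len w ≤ len v := by
      intro v hv
      rw [hw2]
      exact Nat.find_min' hmin ⟨v, hv, rfl⟩
    rcases cover w with rfl | ⟨j, hj⟩
    · exact hw1 h1F
    · rcases hx j with ⟨v, h2, _, h4⟩ | ⟨h2, _⟩
      · have := h4 w hw1 hj
        have := hw3 v h2
        omega
      · exact hne h2
  have hy := lim_mem_XS hc hu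
  have hx' : ∀ j, (d.f l.y ∈ l.Q ∧ d.c (d.f l.y) l.y ≠ j) ∨
      (d.f l.y ∉ l.Q ∧ (l.y, fun k => xor (l.S k) (v j k)) ∈ B j) := by
    intro j
    rcases hx j with ⟨w, h2, _, _⟩ | ⟨_, h2⟩
    · exact (h2 (by show w ∈ l.F; rw [hu]; trivial)).elim
    · exact h2
  have hQ : d.f l.y ∉ l.Q := by
    intro hQ
    rcases hx' (d.c (d.f l.y) l.y) with h2 | h2
    · exact h2.2 rfl
    · exact h2.1 hQ
  refine ⟨l.y, hy, l.S, ?_, ?_⟩
  · intro h
    apply hQ
    apply lim_Q 0
    rw [h0]
    exact h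
  · intro j
    rcases hx' j with h2 | h2
    · exact (hQ h2.1).elim
    · have e : (fun k => if k < m then u j k else l.S k) = fun k => xor (l.S k) (v j k) := by
        funext k
        by_cases hk : k < m
        · have h3 : l.S k = u 0 k := by
            rw [hl, lim_S hc (n := 0) (by rw [h0]; exact hk), h0]
          simp only [v, if_pos hk, h3]
          rw [← Bool.xor_assoc, Bool.xor_self, Bool.false_xor]
        · simp only [v, if_neg hk, Bool.xor_false]
      rw [e]
      exact h2.2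

end Pool.Agent.Helper701.Marks
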